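import Pool.Agent.T2h79.XM.Red

/-!
# The elementary condition and the Rédei systems
-/

set_option autoImplicit false
set_option linter.unusedVariables false
set_option linter.unusedSectionVars false

namespace Pool.Agent.T2h79.XM

open Finset
open Pool.Agent.Y703.CQ (nr)
open Pool.Agent.N973.ND (uu)
open Pool.Agent.N916.GB (Po sy Vt Gd z2 z2_add_self z2_sq nr_recip z2_eq_of_add)
open Pool.Agent.N848.Q hiding star

open Pool.Agent.N848.Q renaming star → st

open scoped Classical

/-- outside the class `7` modulo `8` -/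
lemma cond_iff_crit {m : ℕ} (hm : m % 8 ≠ 7) : Cond m ↔ Crit (-(m : ℤ)) := by
  constructor
  · intro h a b hab ha _ hcd
    rcases h a b hab.symm (Or.inl ha) hcd with h1 | h1
    · exact h1
    · rw [h1, mul_one] at hab
      omega
  · intro h a b hab ha hcd
    left
    refine h a b hab.symm ?_ (fun h => ?_) hcd
    · rcases ha with h1 | h1
      · exact h1
      · exact absurd h1.1 hm
    · exfalso
      have : (0 : ℤ) ≤ m := Int.natCast_nonneg m
      omega

/-- the class `7` modulo `8` -/
lemma cond_iff_gd7 {m : ℕ} (hm : Squarefree m) (h7 : m % 8 = 7) :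
    Gd false 0 0 m.primeFactors ↔ Cond m := by
  set S := m.primeFactors with hSdef
  have h4 : m % 4 = if (0 : ZMod 2) = 0 then 3 else 1 := by rw [if_pos rfl]; omega
  have hS : ∀ p ∈ S, Po p := po_of (by omega)
  have hM : Dl 0 0 * ∏ p ∈ S, st p = -(m : ℤ) := by
    have := M_of (r := 0) hm h4
    rwa [if_neg (by decide)] at this
  have hD : Dl 0 0 = 1 := by unfold Dl; norm_num
  rw [hD, one_mul] at hM
  have hVt : Vt false S = S := if_neg (by decide)
  have hrow : ∀ T ⊆ S, ∀ q ∈ S, ∑ p ∈ S, ((if p ∈ T then (1 : ZMod 2) else 0) +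
      (if q ∈ T then 1 else 0)) * sy 0 0 q p =
      if q ∈ T then ns q (∏ p ∈ S \ T, st p) else ns q (∏ p ∈ T, st p) := by
    intro T hTS q hq
    have h1 := row_eq (t := false) (r := 0) (s := 0) hS (fun _ => ⟨rfl, rfl⟩) hTS hq
    rw [hVt, hD, one_mul] at h1
    exact h1
  have hsq : Squarefree (m : ℤ) := Int.squarefree_natCast.2 hm
  constructor
  · intro hG a b hab ha hcd
    have ha4 : a % 4 = 1 := by omega
    have hsa : Squarefree a.natAbs := by
      rw [Int.squarefree_natAbs]
      refine hsq.squarefree_of_dvd ⟨-b, ?_⟩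
      linarith
    have e1 := eq_prod_star ha4 hsa
    set T := a.natAbs.primeFactors with hT
    have hTS : T ⊆ S := by
      intro p hp
      rw [hSdef, Nat.mem_primeFactors]
      refine ⟨Nat.prime_of_mem_primeFactors hp, ?_, hm.ne_zero⟩
      have h1 : (p : ℤ) ∣ a := Int.natCast_dvd.2 (Nat.dvd_of_mem_primeFactors hp)
      have h2 : (p : ℤ) ∣ -(m : ℤ) := by rw [← hab]; exact h1.mul_right _
      exact_mod_cast (dvd_neg).1 h2
    have ha0 : a ≠ 0 := by rintro rfl; norm_num at ha4
    have e2 : b = ∏ p ∈ S \ T, st p := by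
      have : a * b = a * ∏ p ∈ S \ T, st p := by
        rw [hab, ← hM, ← prod_sdiff hTS, ← e1]
        ring
      exact mul_left_cancel₀ ha0 this
    have hconst := hG (fun p => if p ∈ T then 1 else 0) (by
      rw [hVt]
      intro q hq
      rw [hrow T hTS q hq]
      have hq' := hS q hq
      split_ifs with hqT
      · rw [← e2, ns_zero]
        refine (hcd q hq'.1 hq'.2).2 ?_
        rw [e1]
        exact star_dvd_prod hqT
      · rw [← e1, ns_zero]
        refine (hcd q hq'.1 hq'.2).1 ?_
        rw [e2]
        exact star_dvd_prod (mem_sdiff.2 ⟨hq, hqT⟩))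
    rw [hVt] at hconst
    by_cases hne : T = ∅
    · left
      rw [e1, hne, prod_empty]
    · right
      obtain ⟨p₀, hp₀⟩ := Finset.nonempty_iff_ne_empty.2 hne
      have hST : S \ T = ∅ := by
        rw [sdiff_eq_empty_iff_subset]
        intro p hp
        have h4 := hconst p₀ (hTS hp₀) p hp
        rw [if_pos hp₀] at h4
        by_contra hpT
        rw [if_neg hpT] at h4
        exact one_ne_zero h4
      rw [e2, hST, prod_empty]
  · intro hC x hx
    rw [hVt] at hx ⊢
    set T := S.filter fun p => x p = 1 with hT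
    have hTS : T ⊆ S := filter_subset _ _
    have hind : ∀ p ∈ S, (if p ∈ T then (1 : ZMod 2) else 0) = x p := by
      intro p hp
      by_cases h : x p = 1
      · rw [if_pos (mem_filter.2 ⟨hp, h⟩), h]
      · have h5 : p ∉ T := fun h' => h (mem_filter.1 h').2
        rw [if_neg h5, (z2 _).resolve_right h]
    have hrows : ∀ q ∈ S, (if q ∈ T then ns q (∏ p ∈ S \ T, st p) else ns q (∏ p ∈ T, st p)) =
        0 := by
      intro q hq
      rw [← hrow T hTS q hq]
      refine Eq.trans (sum_congr rfl fun p hp => ?_) (hx q hq)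
      rw [hind p hp, hind q hq]
    have hab : (∏ p ∈ T, st p) * ∏ p ∈ S \ T, st p = -(m : ℤ) := by
      rw [← hM, ← prod_sdiff hTS, mul_comm]
    have h8 := prod_star_mod T fun p hp => hS p (hTS hp)
    have hone : ∀ U ⊆ S, ∏ p ∈ U, st p = 1 → U = ∅ := by
      intro U hU h
      by_contra hne
      obtain ⟨p₀, hp₀⟩ := Finset.nonempty_iff_ne_empty.2 hne
      have h4 : (p₀ : ℤ) ∣ 1 := by
        rw [← h]
        exact star_dvd_prod hp₀
      have h5 := (hS p₀ (hU hp₀)).1.one_lt
      rw [Int.natCast_dvd] at h4
      exact h5.ne' (Nat.dvd_one.1 h4)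
    rcases hC _ _ hab (by
        split_ifs at h8
        · exact Or.inl h8
        · exact Or.inr ⟨h7, h8⟩) (by
        intro q hq hq2
        have hqP : Po q := ⟨hq, hq2⟩
        constructor
        · intro h
          have hqS : q ∈ S \ T := by
            by_contra hcon
            exact not_dvd_prod_star hqP _ (fun p hp => hS p (mem_sdiff.1 hp).1) hcon h
          have h4 := hrows q (mem_sdiff.1 hqS).1
          rw [if_neg (mem_sdiff.1 hqS).2, ns_zero] at h4
          exact h4
        · intro h
          have hqT : q ∈ T := by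
            by_contra hcon
            exact not_dvd_prod_star hqP _ (fun p hp => hS p (hTS hp)) hcon h
          have h4 := hrows q (hTS hqT)
          rw [if_pos hqT, ns_zero] at h4
          exact h4) with h | h
    · have h1 := hone T hTS h
      intro p hp q hq
      have h2 := hind p hp
      have h3 := hind q hq
      rw [h1, if_neg (notMem_empty _)] at h2 h3
      rw [← h2, ← h3]
    · have h1 := hone _ sdiff_subset h
      rw [sdiff_eq_empty_iff_subset] at h1
      intro p hp q hq
      have h2 := hind p hp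
      have h3 := hind q hq
      rw [if_pos (h1 hp)] at h2
      rw [if_pos (h1 hq)] at h3
      rw [← h2, ← h3]

/-- the parameters of `m`: odd part, `t`, `r`, `s` -/
def Par (m n : ℕ) (t : Bool) (r s : ZMod 2) : Prop :=
  m = (if r = 1 then 2 * n else n) ∧ (n % 4 = if s = 0 then 3 else 1) ∧
    (t = false → r = 0 ∧ s = 0) ∧ (t = true → r ≠ 0 ∨ s ≠ 0)

lemma par_exists {m : ℕ} (hm : Squarefree m) : ∃ n t r s, Par m n t r s := by
  have h4 : m % 4 ≠ 0 := by
    intro h0
    have h6 := hm 2 (by omega)
    rw [Nat.isUnit_iff] at h6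
    omega
  rcases (by omega : m % 4 = 3 ∨ m % 4 = 1 ∨ (m % 2 = 0 ∧ (m / 2) % 4 = 3) ∨
    (m % 2 = 0 ∧ (m / 2) % 4 = 1)) with h | h | h | h
  · exact ⟨m, false, 0, 0, by rw [if_neg (by decide)], by rw [if_pos rfl]; exact h,
      fun _ => ⟨rfl, rfl⟩, fun h => by simp at h⟩
  · exact ⟨m, true, 0, 1, by rw [if_neg (by decide)], by rw [if_neg (by decide)]; exact h,
      fun h => by simp at h, fun _ => Or.inr (by decide)⟩
  · exact ⟨m / 2, true, 1, 0, by rw [if_pos rfl]; omega, by rw [if_pos rfl]; exact h.2,
      fun h => by simp at h, fun _ => Or.inl (by decide)⟩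
  · exact ⟨m / 2, true, 1, 1, by rw [if_pos rfl]; omega, by rw [if_neg (by decide)]; exact h.2,
      fun h => by simp at h, fun _ => Or.inl (by decide)⟩

/-- the condition and the Rédei system -/
theorem cond_iff_gd {m n : ℕ} {t : Bool} {r s : ZMod 2} (hm : Squarefree m) (hp : Par m n t r s) :
    Gd t r s n.primeFactors ↔ Cond m := by
  obtain ⟨h1, h2, h3, h4⟩ := hp
  have hn : Squarefree n := by
    rw [h1] at hm
    split_ifs at hm
    · exact hm.squarefree_of_dvd (dvd_mul_left _ _)
    · exact hm
  by_cases h7 : m % 8 = 7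
  · have hr : ¬ r = 1 := by
      intro hr
      rw [if_pos hr] at h1
      omega
    rw [if_neg hr] at h1
    subst h1
    have hs : s = 0 := by
      by_contra hs
      rw [if_neg hs] at h2
      omega
    have hr0 := (z2 r).resolve_right hr
    have ht : t = false := by
      by_contra ht
      rcases h4 (by simpa using ht) with h | h
      · exact h hr0
      · exact h hs
    subst ht
    subst hs
    subst hr0
    exact cond_iff_gd7 hm h7
  · rw [cond_iff_crit h7, h1]
    refine crit_iff hn h2 h3 fun ht => ?_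
    obtain ⟨hr, hs⟩ := h3 ht
    rw [hr, if_neg (by decide)] at h1
    rw [hs, if_pos rfl] at h2
    omega

end Pool.Agent.T2h79.XM
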