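import Pool.Agent.T2h79.XM.EQ
import Pool.Agent.Q286.EQ.MW

/-!
# Points over imaginary quadratic fields
-/

set_option autoImplicit false
set_option linter.unusedVariables false
set_option linter.unusedSectionVars false

namespace Pool.Agent.T2h79.XM

open WeierstrassCurve Pool.Agent.H437R2.Man.MW

section field

variable {K : Type} [Field K] [NumberField K]

/-- complex conjugation -/
lemma exists_conj (h2 : Module.finrank ℚ K = 2) {s : K} {m : ℕ} (hm : 0 < m)
    (hs : s ^ 2 = -(m : K)) : ∃ σ : K ≃ₐ[ℚ] K, σ s = -s ∧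
      ∀ x : K, ∃ p q : ℚ, x = (p : K) + (q : K) * s := by
  classical
  have hmK : (m : K) ≠ 0 := by exact_mod_cast hm.ne'
  have hs0 : s ≠ 0 := by
    rintro rfl
    apply hmK
    have : (0 : K) ^ 2 = -(m : K) := hs
    rw [zero_pow two_ne_zero] at this
    exact neg_eq_zero.1 this.symm
  have hsq : ∀ q : ℚ, (q : K) ≠ s := by
    intro q hq
    rw [← hq] at hs
    have h1 : q ^ 2 = -(m : ℚ) := by exact_mod_cast hs
    have h3 : (0 : ℚ) < m := by exact_mod_cast hm
    have h4 := sq_nonneg q
    linarith
  have hli : LinearIndependent ℚ ![(1 : K), s] := by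
    rw [LinearIndependent.pair_iff]
    intro a b hab
    have hab' : (a : K) + (b : K) * s = 0 := by
      rw [Algebra.smul_def, Algebra.smul_def] at hab
      simpa using hab
    have hb : b = 0 := by
      by_contra hb
      have hbK : (b : K) ≠ 0 := by exact_mod_cast hb
      apply hsq (-a / b)
      push_cast
      field_simp
      linear_combination -hab'
    subst hb
    refine ⟨?_, rfl⟩
    have : (a : K) = 0 := by simpa using hab'
    exact_mod_cast this
  have hspan : ∀ x : K, ∃ p q : ℚ, x = (p : K) + (q : K) * s := by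
    intro x
    have hcard : Fintype.card (Fin 2) = Module.finrank ℚ K := by rw [h2]; rfl
    have htop := hli.span_eq_top_of_card_eq_finrank hcard
    have hx : x ∈ Submodule.span ℚ (Set.range ![(1 : K), s]) := by rw [htop]; trivial
    rw [Matrix.range_cons, Matrix.range_cons, Matrix.range_empty, Set.union_empty,
      Set.singleton_union, Submodule.mem_span_pair] at hx
    obtain ⟨p, q, hpq⟩ := hx
    refine ⟨p, q, ?_⟩
    rw [← hpq, Algebra.smul_def, Algebra.smul_def]
    simp
  have : Algebra.IsQuadraticExtension ℚ K := ⟨h2⟩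
  have hg : IsGalois ℚ K := inferInstance
  have hcard : Nat.card (K ≃ₐ[ℚ] K) = 2 := by rw [IsGalois.card_aut_eq_finrank, h2]
  obtain ⟨σ, hσ⟩ : ∃ σ : K ≃ₐ[ℚ] K, σ ≠ 1 := by
    by_contra hcon
    push Not at hcon
    have : Nat.card (K ≃ₐ[ℚ] K) ≤ 1 := by
      have : Subsingleton (K ≃ₐ[ℚ] K) := ⟨fun a b => by rw [hcon a, hcon b]⟩
      exact Finite.card_le_one_iff_subsingleton.2 this
    omega
  refine ⟨σ, ?_, hspan⟩
  have h3 : (σ s) ^ 2 = s ^ 2 := by
    rw [← map_pow, hs, map_neg, map_natCast]
  rcases sq_eq_sq_iff_eq_or_eq_neg.1 h3 with h | h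
  · exfalso
    apply hσ
    ext x
    obtain ⟨p, q, rfl⟩ := hspan x
    rw [map_add, map_mul, h]
    have hp : ∀ p : ℚ, σ (p : K) = (p : K) := fun p => map_ratCast σ p
    rw [hp, hp]
    rfl
  · exact h

end field

section points

variable {K : Type} [Field K] [NumberField K] [DecidableEq K]

/-- the coordinates -/
def coord {F : Type} [Field F] {W : WeierstrassCurve F} : W.toAffine.Point → Option (F × F)
  | .zero => none
  | .some x y _ => some (x, y)

lemma coord_inj {F : Type} [Field F] {W : WeierstrassCurve F} :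
    Function.Injective (coord (W := W)) := by
  rintro (_ | ⟨x, y, h⟩) (_ | ⟨x', y', h'⟩) he
  · rfl
  · exact absurd he (by simp [coord])
  · exact absurd he (by simp [coord])
  · simp only [coord, Option.some.injEq, Prod.mk.injEq] at he
    obtain ⟨rfl, rfl⟩ := he
    rfl

/-- a set of points with coordinates from a finite set of points -/
lemma finite_coord {F G : Type} [Field F] [Field G] {W : WeierstrassCurve F}
    {V : WeierstrassCurve G} (hV : Finite V.toAffine.Point) (g : Option (G × G) → Option (F × F))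
    (S : Set W.toAffine.Point) (hS : ∀ P ∈ S, ∃ Q : V.toAffine.Point, coord P = g (coord Q)) :
    S.Finite := by
  have h1 : (coord '' S).Finite := by
    refine (Set.finite_range (fun Q : V.toAffine.Point => g (coord Q))).subset ?_
    rintro _ ⟨P, hP, rfl⟩
    obtain ⟨Q, hQ⟩ := hS P hP
    exact ⟨Q, hQ.symm⟩
  exact h1.of_finite_image coord_inj.injOn

abbrev EK (K : Type) [Field K] [NumberField K] : WeierstrassCurve K := E0.baseChange K

lemma ek_eqn {x y : K} : (EK K).toAffine.Equation x y ↔ y ^ 2 = x * (x - 9) * (x - 25) := by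
  rw [WeierstrassCurve.Affine.equation_iff]
  simp only [WeierstrassCurve.baseChange, WeierstrassCurve.map, crv, EK]
  simp only [map_zero, map_neg, map_add, map_mul, map_ofNat]
  constructor <;> intro h <;> linear_combination h

lemma ek_neg {x y : K} : (EK K).toAffine.negY x y = -y := by
  simp [WeierstrassCurve.Affine.negY, WeierstrassCurve.baseChange, WeierstrassCurve.map, crv, EK]

/-- the points over `K` -/
theorem ek_finite (h2 : Module.finrank ℚ K = 2) {s : K} {m : ℕ} (hm : 0 < m)
    (hs : s ^ 2 = -(m : K)) (hT : Finite (Pt (0 : ℚ) (9 * m) (25 * m))) :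
    Finite (EK K).toAffine.Point := by
  obtain ⟨σ, hσ, hspan⟩ := exists_conj h2 hm hs
  have hmK : (m : K) ≠ 0 := by exact_mod_cast hm.ne'
  have hmQ : (m : ℚ) ≠ 0 := by exact_mod_cast hm.ne'
  have hs0 : s ≠ 0 := by
    rintro rfl
    apply hmK
    have : (0 : K) ^ 2 = -(m : K) := hs
    rw [zero_pow two_ne_zero] at this
    exact neg_eq_zero.1 this.symm
  have hσp : ∀ p : ℚ, σ (p : K) = (p : K) := fun p => map_ratCast σ p
  have hσσ : ∀ x, σ (σ x) = x := by
    intro x
    obtain ⟨p, q, rfl⟩ := hspan x
    rw [map_add, map_mul, hσ, hσp, hσp, map_add, map_mul, map_neg, hσ, hσp, hσp, neg_neg]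
  set c : (EK K).toAffine.Point →+ (EK K).toAffine.Point :=
    Affine.Point.map (W' := E0) (S := ℚ) (F := K) (K := K) (σ : K →ₐ[ℚ] K) with hc
  have hcc : ∀ P, c (c P) = P := by
    rintro (_ | ⟨x, y, h⟩)
    · rfl
    · apply coord_inj
      show some (σ (σ x), σ (σ y)) = some (x, y)
      rw [hσσ, hσσ]
  -- rational and anti-rational elements
  have hfix : ∀ x, σ x = x → ∃ p : ℚ, x = p := by
    intro x hx
    obtain ⟨p, q, rfl⟩ := hspan x
    rw [map_add, map_mul, hσ, hσp, hσp] at hx
    refine ⟨p, ?_⟩
    have h1 : (2 : K) * ((q : K) * s) = 0 := by linear_combination -hx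
    rcases mul_eq_zero.1 h1 with h | h
    · norm_num at h
    · rw [h, add_zero]
  have hanti : ∀ x, σ x = -x → ∃ q : ℚ, x = q * s := by
    intro x hx
    obtain ⟨p, q, rfl⟩ := hspan x
    rw [map_add, map_mul, hσ, hσp, hσp] at hx
    refine ⟨q, ?_⟩
    have h1 : (2 : K) * (p : K) = 0 := by linear_combination hx
    rcases mul_eq_zero.1 h1 with h | h
    · norm_num at h
    · rw [h, zero_add]
  -- the rational points
  have hplus : {P : (EK K).toAffine.Point | c P = P}.Finite := by
    refine finite_coord q_finite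
      (fun o => o.map fun z => ((z.1 : K), (z.2 : K))) _ ?_
    rintro (_ | ⟨x, y, h⟩) hP
    · exact ⟨0, rfl⟩
    · have h1 : some (σ x, σ y) = some (x, y) := congrArg coord hP
      simp only [Option.some.injEq, Prod.mk.injEq] at h1
      obtain ⟨p, rfl⟩ := hfix x h1.1
      obtain ⟨q, rfl⟩ := hfix y h1.2
      have h2 := ek_eqn.1 h.1
      have h3 : q ^ 2 = (p + 0) * (p + -9) * (p + -25) := by
        have : q ^ 2 = p * (p - 9) * (p - 25) := by exact_mod_cast h2
        rw [this]; ring
      exact ⟨Affine.Point.some p q (crv_nonsing q12 q13 q23 h3), rfl⟩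
  have hminus : {P : (EK K).toAffine.Point | c P = -P}.Finite := by
    refine finite_coord hT
      (fun o => o.map fun z => (-(z.1 : K) / m, (z.2 : K) / m ^ 2 * s)) _ ?_
    rintro (_ | ⟨x, y, h⟩) hP
    · exact ⟨0, rfl⟩
    · have h1 : some (σ x, σ y) = coord (-(Affine.Point.some x y h)) := congrArg coord hP
      rw [Affine.Point.neg_some] at h1
      simp only [coord, Option.some.injEq, Prod.mk.injEq, ek_neg] at h1
      obtain ⟨p, rfl⟩ := hfix x h1.1
      obtain ⟨q, rfl⟩ := hanti y h1.2
      have h2 := ek_eqn.1 h.1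
      have h3 : -(m : ℚ) * q ^ 2 = p * (p - 9) * (p - 25) := by
        have : -(m : K) * (q : K) ^ 2 = p * (p - 9) * (p - 25) := by
          rw [← h2, mul_pow, hs]; ring
        exact_mod_cast this
      have h4 : (m ^ 2 * q) ^ 2 = (-m * p + 0) * (-m * p + 9 * m) * (-m * p + 25 * m) := by
        linear_combination (-(m : ℚ) ^ 3) * h3
      have q12' : (0 : ℚ) ≠ 9 * m := by intro h; apply hmQ; linarith
      have q13' : (0 : ℚ) ≠ 25 * m := by intro h; apply hmQ; linarith
      have q23' : (9 * m : ℚ) ≠ 25 * m := by intro h; apply hmQ; linarith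
      refine ⟨Affine.Point.some (-m * p) (m ^ 2 * q) (crv_nonsing q12' q13' q23' h4), ?_⟩
      show some ((p : K), (q : K) * s) = some (-((-m * p : ℚ) : K) / m,
        ((m ^ 2 * q : ℚ) : K) / m ^ 2 * s)
      congr 2
      · push_cast
        field_simp
      · push_cast
        field_simp
  -- finite order
  have horder : ∀ (f : (EK K).toAffine.Point →+ (EK K).toAffine.Point)
      (hf : {P | c P = f P}.Finite) (P : (EK K).toAffine.Point), c P = f P →
      (∀ P, f (f P) = P) → IsOfFinAddOrder P := by
    intro f hf P hP hff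
    let H : AddSubgroup (EK K).toAffine.Point :=
      { carrier := {P | c P = f P}
        zero_mem' := by simp
        add_mem' := fun {a b} ha hb => by
          show c (a + b) = f (a + b)
          rw [map_add, map_add, show c a = f a from ha, show c b = f b from hb]
        neg_mem' := fun {a} ha => by
          show c (-a) = f (-a)
          rw [map_neg, map_neg, show c a = f a from ha] }
    have hH : Finite H := hf
    have h1 : IsOfFinAddOrder (⟨P, hP⟩ : H) := isOfFinAddOrder_of_finite _
    obtain ⟨n, hn, h3⟩ := isOfFinAddOrder_iff_nsmul_eq_zero.1 h1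
    refine isOfFinAddOrder_iff_nsmul_eq_zero.2 ⟨n, hn, ?_⟩
    have := congrArg Subtype.val h3
    simpa using this
  have hΔ : (EK K).Δ ≠ 0 := by
    have h1 : (EK K).Δ = algebraMap ℚ K E0.Δ := by
      simp [EK, WeierstrassCurve.baseChange, WeierstrassCurve.map_Δ]
    rw [h1, crv_Δ]
    intro h
    have := (map_eq_zero _).1 h
    norm_num at this
  refine finite_of_double (fun P => ?_) (Pool.Agent.Q286.EQ.mordell_weil K (EK K) hΔ)
  have e : P + P = (P + c P) + (P - c P) := by abel
  rw [e]
  refine IsOfFinAddOrder.add ?_ ?_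
  · refine horder (AddMonoidHom.id _) hplus _ ?_ (fun _ => rfl)
    show c (P + c P) = P + c P
    rw [map_add, hcc, add_comm]
  · refine horder (-AddMonoidHom.id _) hminus _ ?_ (fun P => ?_)
    · show c (P - c P) = -(P - c P)
      rw [map_sub, hcc]
      abel
    · show -(-P) = P
      exact neg_neg P

end points

/-- the modular curve `X_0(15)`: `y² + x y + y = x³ + x² - 10 x - 10` -/
def X015 (K : Type) [Field K] : WeierstrassCurve K := ⟨1, 1, 1, -10, -10⟩

theorem x015_finite {K : Type} [Field K] [NumberField K] (h : Finite (EK K).toAffine.Point) :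
    Finite (X015 K).toAffine.Point := by
  classical
  have h1 : (Set.univ : Set (X015 K).toAffine.Point).Finite := by
    refine finite_coord h (fun o => o.map fun z => ((z.1 - 13) / 4,
      (z.2 - 4 * ((z.1 - 13) / 4) - 4) / 8)) _ ?_
    rintro (_ | ⟨x, y, h⟩) -
    · exact ⟨0, rfl⟩
    · have h2 := (WeierstrassCurve.Affine.equation_iff _ _).1 h.1
      simp only [X015] at h2
      have h3 : (8 * y + 4 * x + 4) ^ 2 = (4 * x + 13) * (4 * x + 13 - 9) * (4 * x + 13 - 25) := by
        linear_combination 64 * h2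
      have h4 : (EK K).toAffine.Equation (4 * x + 13) (8 * y + 4 * x + 4) := ek_eqn.2 h3
      have hΔ : (EK K).Δ ≠ 0 := by
        have h1 : (EK K).Δ = algebraMap ℚ K E0.Δ := by
          simp [EK, WeierstrassCurve.baseChange, WeierstrassCurve.map_Δ]
        rw [h1, crv_Δ]
        intro h
        have := (map_eq_zero _).1 h
        norm_num at this
      have h5 : (EK K).toAffine.Nonsingular (4 * x + 13) (8 * y + 4 * x + 4) := by
        have : (EK K).IsElliptic := ⟨isUnit_iff_ne_zero.2 hΔ⟩
        exact WeierstrassCurve.Affine.equation_iff_nonsingular.1 h4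
      refine ⟨Affine.Point.some _ _ h5, ?_⟩
      show some (x, y) = some ((4 * x + 13 - 13) / 4,
        (8 * y + 4 * x + 4 - 4 * ((4 * x + 13 - 13) / 4) - 4) / 8)
      congr 2
      · ring
      · ring
  exact Set.finite_univ_iff.1 h1

/-- **The criterion.** -/
theorem criterion {m : ℕ} (hm : Squarefree m) (h3 : m % 3 ≠ 1) (h5 : m % 5 ≠ 1)
    (h5' : m % 5 ≠ 4) (hC : Cond m) (K : Type) [Field K] [NumberField K]
    (h2 : Module.finrank ℚ K = 2) (s : K) (hs : s ^ 2 = -(m : K)) :
    Finite (X015 K).toAffine.Point := by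
  classical
  exact x015_finite (ek_finite h2 (Nat.pos_of_ne_zero hm.ne_zero) hs
    (tw_finite hm h3 h5 h5' hC))

end Pool.Agent.T2h79.XM
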