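import Pool.Agent.T2h79.XM.LK
import Pool.Agent.T2h79.XM.Crit
import Pool.Agent.T2h79.XM.KP
import Pool.Agent.Y797.FK.Disc
import Pool.Agent.Y486.FK.Amb1
import Pool.Agent.Y688.FK.Amb2
import Pool.Agent.Y629.FK.Sq
import Pool.Agent.Y168.FK.Leg

/-!
# The criterion in terms of the class group
-/

set_option autoImplicit false
set_option linter.unusedVariables false
set_option linter.unusedSectionVars false

namespace Pool.Agent.T2h79.XM.CG

open Finset NumberField
open Pool.Agent.T2h79.XM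
open Pool.Agent.Y755.FK (Rn)
open Pool.Agent.Y703.CQ (nr)
open Pool.Agent.N973.ND (uu)
open Pool.Agent.N916.GB (Po sy Vt Gd Gv Ev Lm Lm_mulVec Ev_const Gv_iff_rank z2 z2_add_self z2_sq
  nr_recip z2_eq_of_add)
open Pool.Agent.N848.Q hiding star

open Pool.Agent.N848.Q renaming star → st

open scoped Classical

/-- few ramified ideals have a norm which is a norm from the field -/
theorem few_norms {K : Type} [Field K] [NumberField K] (h2 : Module.finrank ℚ K = 2) {m : ℕ}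
    (hm : Squarefree m) (hs : ∃ s : K, s ^ 2 = -(m : K))
    (hcl : ∀ x : ClassGroup (𝓞 K), x ^ 4 = 1 → x ^ 2 = 1) :
    ((Rn m).divisors.filter fun b : ℕ => ∃ u v : ℚ, (b : ℚ) = u ^ 2 + m * v ^ 2).card ≤ 2 := by
  refine le_of_le_of_eq (card_le_card fun b hb => ?_)
    (Pool.Agent.Y688.FK.t_AMB2 Pool.Agent.Y486.FK.t_AMB1 K h2 m hm hs 1 (one_pow 2))
  rw [mem_filter, Nat.mem_divisors] at hb ⊢
  obtain ⟨⟨hb1, hb2⟩, hb3⟩ := hb
  refine ⟨⟨hb1, hb2⟩, ?_⟩
  obtain ⟨I, hI⟩ := (Pool.Agent.Y486.FK.t_AMB1 K h2 m hm hs).1 b hb1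
  refine ⟨I, hI, ?_⟩
  have hb0 : 1 ≤ b := Nat.pos_of_dvd_of_pos hb1 (Nat.pos_of_ne_zero hb2)
  obtain ⟨x, hx⟩ := (Pool.Agent.Y629.FK.t_SQ K h2 m hm hs b hb0 I hI).2 hb3
  have h1 : (ClassGroup.mk0 I) ^ 2 = 1 := by
    rw [← map_pow, ClassGroup.mk0_eq_one_iff]
    rw [SubmonoidClass.coe_pow, hI]
    exact ⟨⟨_, rfl⟩⟩
  have h3 : x ^ 4 = 1 := by
    rw [show 4 = 2 * 2 by norm_num, pow_mul, hx, h1]
  rw [← hx]
  exact hcl x h3

lemma jac_one {p : ℕ} (hp : p.Prime) {a : ℤ} (ha : ¬ (p : ℤ) ∣ a) (h : ns p a = 0) :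
    jacobiSym a p = 1 := by
  have : Fact p.Prime := ⟨hp⟩
  rw [← jacobiSym.legendreSym.to_jacobiSym, ns_leg ha, if_pos h]

lemma st_eq (p : ℕ) : ∃ ε : ℤ, (ε = 1 ∨ ε = -1) ∧ st p = ε * p ∧ (ε = 1 → uu p = 0) := by
  unfold st uu
  by_cases h : p % 4 = 3
  · rw [if_pos h, if_pos h]
    exact ⟨-1, Or.inr rfl, by ring, fun h => by norm_num at h⟩
  · rw [if_neg h, if_neg h]
    exact ⟨1, Or.inl rfl, by ring, fun _ => rfl⟩

section

variable {m n : ℕ} {t : Bool} {r s : ZMod 2}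

lemma par_facts (hm : Squarefree m) (hp : Par m n t r s) : Squarefree n ∧ n % 2 = 1 ∧
    (∀ p ∈ n.primeFactors, Po p) ∧ Dl r s * ∏ q ∈ n.primeFactors, st q = -(m : ℤ) ∧
    (t = false → r = 0 ∧ s = 0) ∧ ∏ q ∈ Vt t n.primeFactors, q = Rn m := by
  obtain ⟨h1, h2, h3, h4⟩ := hp
  have hn : Squarefree n := by
    rw [h1] at hm
    split_ifs at hm
    · exact hm.squarefree_of_dvd (dvd_mul_left _ _)
    · exact hm
  have ho : n % 2 = 1 := odd_of h2
  have hS := po_of ho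
  have hpr : ∏ q ∈ n.primeFactors, q = n := Nat.prod_primeFactors_of_squarefree hn
  refine ⟨hn, ho, hS, ?_, h3, ?_⟩
  · rw [M_of hn h2, ← h1]
  · unfold Vt Rn
    cases t
    · obtain ⟨hr, hs⟩ := h3 rfl
      rw [if_neg (by decide), hpr]
      rw [hr, if_neg (by decide)] at h1
      rw [hs, if_pos rfl] at h2
      rw [if_neg (by omega), h1]
    · rw [if_pos rfl, prod_insert (fun h => (hS 2 h).2 rfl), hpr]
      rcases z2 r with hr | hr
      · rw [hr, if_neg (by decide)] at h1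
        have hs : s ≠ 0 := by
          rcases h4 rfl with h | h
          · exact absurd hr h
          · exact h
        rw [if_neg hs] at h2
        rw [if_pos (by omega), h1]
      · rw [hr, if_pos rfl] at h1
        rw [if_neg (by omega), h1]

/-- the symbols of a vector of the left kernel -/
lemma key (hm : Squarefree m) (hp : Par m n t r s) {S : Finset ℕ} (hSdef : S = n.primeFactors)
    {y : Vt t S → ZMod 2}
    (hy : ∀ p, Col (fun q p : Vt t S => sy r s (q : ℕ) (p : ℕ)) y p = 0)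
    {e b c : ℕ} (he : e = 1 ∨ e = 2) (hb : ∏ q ∈ Su t S y, q = e * b)
    (hbc : b * c = m) :
    (∀ p : ℕ, p.Prime → p ≠ 2 → p ∣ c → jacobiSym ((e : ℤ) * b) p = 1) ∧
      ∀ p : ℕ, p.Prime → p ≠ 2 → p ∣ b → jacobiSym ((e : ℤ) * c) p = 1 := by
  obtain ⟨hn, ho, hS, hM, hok, hV⟩ := par_facts hm hp
  rw [← hSdef] at hS hM hV
  set Y := Su t S y with hYdef
  have hYp : ∀ q ∈ Y, q.Prime := fun q hq => vt_prime hS q (su_sub y hq)
  have hmn : ∀ p : ℕ, p.Prime → p ≠ 2 → p ∣ m → p ∈ S := by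
    intro p h1 h2 h3
    rw [hSdef, Nat.mem_primeFactors]
    refine ⟨h1, ?_, hn.ne_zero⟩
    rw [hp.1] at h3
    split_ifs at h3
    · rcases h1.dvd_mul.1 h3 with h | h
      · exact absurd ((Nat.prime_dvd_prime_iff_eq h1 Nat.prime_two).1 h) h2
      · exact h
    · exact h3
  have hcop : ∀ p : ℕ, p.Prime → p ∣ b → ¬ p ∣ c := by
    intro p h1 h2 h3
    have h4 : p * p ∣ m := hbc ▸ mul_dvd_mul h2 h3
    exact h1.one_lt.ne' (Nat.isUnit_iff.1 (hm p h4))
  have hep : ∀ p : ℕ, p.Prime → p ≠ 2 → ¬ p ∣ e := by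
    intro p h1 h2 h3
    rcases he with rfl | rfl
    · exact h1.one_lt.ne' (Nat.dvd_one.1 h3)
    · exact h2 ((Nat.prime_dvd_prime_iff_eq h1 Nat.prime_two).1 h3)
  have hYb : ∀ p : ℕ, p.Prime → p ≠ 2 → (p ∈ Y ↔ p ∣ b) := by
    intro p h1 h2
    constructor
    · intro h
      have h3 : p ∣ e * b := hb ▸ dvd_prod_of_mem (fun q => q) h
      exact (h1.dvd_mul.1 h3).resolve_left (hep p h1 h2)
    · intro h
      have h3 : p ∣ ∏ q ∈ Y, q := by rw [hb]; exact h.mul_left e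
      obtain ⟨q, hq, h4⟩ := (Nat.prime_iff.1 h1).dvd_finsetProd_iff _ |>.1 h3
      rw [(Nat.prime_dvd_prime_iff_eq h1 (hYp q hq)).1 h4]
      exact hq
  constructor
  · intro p h1 h2 h3
    have hpS : p ∈ S := hmn p h1 h2 (hbc ▸ h3.mul_left b)
    have hpb : ¬ p ∣ b := fun h => hcop p h1 h h3
    have hpY : p ∉ Y := fun h => hpb ((hYb p h1 h2).1 h)
    have h4 := col_eq hS hok hpS (hy ⟨p, sub_vt hpS⟩)
    rw [if_neg hpY, add_zero, erase_eq_of_notMem hpY] at h4
    refine jac_one h1 ?_ ?_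
    · rw [← Nat.cast_mul, Int.natCast_dvd_natCast]
      intro h
      rcases h1.dvd_mul.1 h with h | h
      · exact hep p h1 h2 h
      · exact hpb h
    · rw [← Nat.cast_mul, ← hb, Nat.cast_prod]
      exact h4
  · intro p h1 h2 h3
    have hpS : p ∈ S := hmn p h1 h2 (hbc ▸ h3.mul_right c)
    have hpc : ¬ p ∣ c := hcop p h1 h3
    have hpY : p ∈ Y := (hYb p h1 h2).2 h3
    have h4 := col_eq hS hok hpS (hy ⟨p, sub_vt hpS⟩)
    rw [if_pos hpY] at h4
    obtain ⟨b', rfl⟩ := h3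
    have hp0 : (p : ℤ) ≠ 0 := by exact_mod_cast h1.ne_zero
    have hpb' : ¬ p ∣ b' := by
      intro h
      have h5 : p * p ∣ m := by
        rw [← hbc, mul_assoc]
        exact mul_dvd_mul_left p (h.mul_right c)
      exact h1.one_lt.ne' (Nat.isUnit_iff.1 (hm p h5))
    have h5 : ∏ q ∈ Y.erase p, (q : ℤ) = e * b' := by
      have h6 : (p : ℤ) * ∏ q ∈ Y.erase p, (q : ℤ) = p * (e * b') := by
        rw [mul_prod_erase Y (fun q => (q : ℤ)) hpY, ← Nat.cast_prod, hb]
        push_cast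
        ring
      exact mul_left_cancel₀ hp0 h6
    obtain ⟨ε, hε, hst, hεu⟩ := st_eq p
    have h6 : Dl r s * ∏ q ∈ S.erase p, st q = -ε * (b' * c) := by
      have h7 : (ε * p) * (Dl r s * ∏ q ∈ S.erase p, st q) = (ε * p) * (-ε * (b' * c)) := by
        rw [← hst]
        have h8 : st p * (Dl r s * ∏ q ∈ S.erase p, st q) = Dl r s * ∏ q ∈ S, st q := by
          rw [← mul_prod_erase S st hpS]
          ring
        rw [h8, hM, ← hbc, hst]
        push_cast
        rcases hε with rfl | rfl <;> ring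
      refine mul_left_cancel₀ ?_ h7
      rcases hε with rfl | rfl
      · rw [one_mul]; exact hp0
      · rw [neg_one_mul]; exact neg_ne_zero.2 hp0
    have hd : ∀ a : ℕ, ¬ p ∣ a → ¬ (p : ℤ) ∣ (a : ℤ) := fun a ha => by
      rwa [Int.natCast_dvd_natCast]
    have hε0 : ns p (-ε) = 0 := by
      rcases hε with rfl | rfl
      · rw [ns_neg_one h1]
        exact hεu rfl
      · rw [neg_neg, ns_one]
    have hεd : ¬ (p : ℤ) ∣ -ε := by
      intro h
      have h7 : (p : ℤ) ∣ 1 := by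
        rcases hε with rfl | rfl
        · exact (dvd_neg.1 h)
        · rwa [neg_neg] at h
      have h8 : p ∣ 1 := by exact_mod_cast h7
      exact h1.one_lt.ne' (Nat.dvd_one.1 h8)
    have hpp : Prime (p : ℤ) := Nat.prime_iff_prime_int.1 h1
    have hbcd : ¬ (p : ℤ) ∣ (b' : ℤ) * c := fun h =>
      (hpp.dvd_or_dvd h).elim (hd b' hpb') (hd c hpc)
    rw [h5, h6, ns_mul h1 (hd e (hep p h1 h2)) (hd b' hpb'), ns_mul h1 hεd hbcd,
      ns_mul h1 (hd b' hpb') (hd c hpc), hε0, zero_add] at h4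
    have h7 : ns p ((e : ℤ) * c) = 0 := by
      rw [ns_mul h1 (hd e (hep p h1 h2)) (hd c hpc)]
      have h8 : ns p (e : ℤ) + ns p (b' : ℤ) + (ns p (b' : ℤ) + ns p (c : ℤ)) =
          ns p (e : ℤ) + ns p (c : ℤ) + (ns p (b' : ℤ) + ns p (b' : ℤ)) := by ring
      rw [h8, z2_add_self, add_zero] at h4
      exact h4
    refine jac_one h1 (fun h => ?_) h7
    exact (hpp.dvd_or_dvd h).elim (hd e (hep p h1 h2)) (hd c hpc)

/-- a vector of the left kernel gives a norm -/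
theorem nm_of (hm : Squarefree m) (hp : Par m n t r s) {y : Vt t n.primeFactors → ZMod 2}
    (hy : ∀ p, Col (fun q p : Vt t n.primeFactors => sy r s (q : ℕ) (p : ℕ)) y p = 0) :
    (∏ q ∈ Su t n.primeFactors y, q) ∈ (Rn m).divisors.filter fun b : ℕ =>
      ∃ u v : ℚ, (b : ℚ) = u ^ 2 + m * v ^ 2 := by
  obtain ⟨hn, ho, hS, hM, hok, hV⟩ := par_facts hm hp
  have hLEG := Pool.Agent.Y168.FK.t_LEG
  have hR0 : Rn m ≠ 0 := by
    rw [← hV]
    exact prod_ne_zero_iff.2 fun q hq => (vt_prime hS q hq).ne_zero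
  have hdv : (∏ q ∈ Su t n.primeFactors y, q) ∣ Rn m := by
    rw [← hV]
    exact prod_dvd_prod_of_subset _ _ _ (su_sub y)
  rw [mem_filter, Nat.mem_divisors]
  refine ⟨⟨hdv, hR0⟩, ?_⟩
  by_cases hA : (∏ q ∈ Su t n.primeFactors y, q) ∣ m
  · obtain ⟨c, hc⟩ := hA
    obtain ⟨h1, h2⟩ := key hm hp rfl hy (Or.inl rfl) (one_mul _).symm hc.symm
    have h3 := (hLEG.1 (∏ q ∈ Su t n.primeFactors y, q) c (hc ▸ hm)).2 ⟨fun p a1 a2 a3 => ?_,
      fun p a1 a2 a3 => ?_⟩
    · rw [← hc] at h3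
      exact h3
    · have := h1 p a1 a2 a3
      rwa [Nat.cast_one, one_mul] at this
    · have := h2 p a1 a2 a3
      rwa [Nat.cast_one, one_mul] at this
  · -- the product is even and `m` is odd
    have hm4 : m % 4 = 1 := by
      by_contra h
      have : Rn m = m := if_neg h
      rw [this] at hdv
      exact hA hdv
    have hR : Rn m = 2 * m := if_pos hm4
    have h2Y : 2 ∈ Su t n.primeFactors y := by
      by_contra h
      refine hA ?_
      have h1 : (∏ q ∈ Su t n.primeFactors y, q).Coprime 2 := by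
        refine Nat.Coprime.prod_left fun q hq => ?_
        rw [Nat.coprime_primes (vt_prime hS q (su_sub y hq)) Nat.prime_two]
        rintro rfl
        exact h hq
      rw [hR] at hdv
      exact h1.dvd_of_dvd_mul_left hdv
    have h3 := (mul_prod_erase (Su t n.primeFactors y) (fun q : ℕ => q) h2Y).symm
    rw [h3, hR] at hdv
    obtain ⟨c, hc⟩ := Nat.dvd_of_mul_dvd_mul_left (by norm_num) hdv
    obtain ⟨h1, h2⟩ := key hm hp rfl hy (Or.inr rfl) h3 hc.symm
    have hmo : Odd m := by rw [Nat.odd_iff]; omega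
    have h4 := (hLEG.2 (∏ q ∈ (Su t n.primeFactors y).erase 2, q) c (hc ▸ hm) (hc ▸ hmo)).2
      ⟨fun p a1 a2 => ?_, fun p a1 a2 => ?_⟩
    · rw [h3]
      rw [← hc] at h4
      exact h4
    · have hp2 : p ≠ 2 := by
        rintro rfl
        have : 2 ∣ m := hc ▸ a2.mul_left _
        omega
      exact h1 p a1 hp2 a2
    · have hp2 : p ≠ 2 := by
        rintro rfl
        have : 2 ∣ m := hc ▸ a2.mul_right _
        omega
      exact h2 p a1 hp2 a2

/-- **No class of order four: the Rédei system has only the constant solutions.** -/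
theorem gd_of_class {K : Type} [Field K] [NumberField K] (h2 : Module.finrank ℚ K = 2)
    (hm : Squarefree m) (hp : Par m n t r s) (hs : ∃ s : K, s ^ 2 = -(m : K))
    (hcl : ∀ x : ClassGroup (𝓞 K), x ^ 4 = 1 → x ^ 2 = 1) : Gd t r s n.primeFactors := by
  rw [Gd_iffv]
  by_cases hV : Nonempty (Vt t n.primeFactors)
  · refine gv_of_left _ ?_
    obtain ⟨hn, ho, hS, -⟩ := par_facts hm hp
    refine (card_le_card_of_injOn (fun y => ∏ q ∈ Su t n.primeFactors y, q) (fun y hy => ?_)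
      (fun y₁ _ y₂ _ h => ?_)).trans (few_norms h2 hm hs hcl)
    · exact nm_of hm hp (mem_filter.1 hy).2
    · have h3 : ∀ y, (∏ q ∈ Su t n.primeFactors y, q).primeFactors = Su t n.primeFactors y :=
        fun y => Nat.primeFactors_prod fun p hp => vt_prime hS p (su_sub y hp)
      have h4 : Su t n.primeFactors y₁ = Su t n.primeFactors y₂ := by
        rw [← h3 y₁, ← h3 y₂]
        exact congrArg Nat.primeFactors h
      funext q
      have h5 := mem_su (y := y₁) q.2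
      have h6 := mem_su (y := y₂) q.2
      rw [h4] at h5
      have h7 : y₁ q = 1 ↔ y₂ q = 1 := h5.symm.trans h6
      rcases z2 (y₁ q) with h8 | h8
      · rcases z2 (y₂ q) with h9 | h9
        · rw [h8, h9]
        · exact absurd (h7.2 h9) (by rw [h8]; decide)
      · rw [h8, h7.1 h8]
  · exact fun x _ p => absurd ⟨p⟩ hV

end

/-- the criterion in terms of the class group -/
theorem class_criterion {m : ℕ} (hm : Squarefree m) (h3 : m % 3 ≠ 1) (h5 : m % 5 ≠ 1)
    (h5' : m % 5 ≠ 4) (K : Type) [Field K] [NumberField K] (h2 : Module.finrank ℚ K = 2)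
    (hs : ∃ s : K, s ^ 2 = -(m : K))
    (hcl : ∀ x : ClassGroup (𝓞 K), x ^ 4 = 1 → x ^ 2 = 1) : Finite (X015 K).toAffine.Point := by
  obtain ⟨n, t, r, s, hp⟩ := par_exists hm
  obtain ⟨s', hs'⟩ := hs
  exact criterion hm h3 h5 h5' ((cond_iff_gd hm hp).1 (gd_of_class h2 hm hp ⟨s', hs'⟩ hcl))
    K h2 s' hs'

/-- the criterion in terms of the discriminant and the class group -/
theorem disc_criterion (K : Type) [Field K] [NumberField K] (h2 : Module.finrank ℚ K = 2)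
    (h0 : NumberField.discr K < 0) (h3 : NumberField.discr K % 3 ≠ 2)
    (h5 : NumberField.discr K % 5 ≠ 1) (h5' : NumberField.discr K % 5 ≠ 4)
    (hcl : ∀ x : ClassGroup (𝓞 K), x ^ 4 = 1 → x ^ 2 = 1) : Finite (X015 K).toAffine.Point := by
  obtain ⟨m, hm, hs⟩ := Pool.Agent.Y797.FK.t_DISC.2.1 K h2 h0
  have hd := Pool.Agent.Y797.FK.t_DISC.1 K h2 m hm hs
  have e3 : m % 3 ≠ 1 := by
    split_ifs at hd <;> rw [hd] at h3 <;> omega
  have e5 : m % 5 ≠ 1 ∧ m % 5 ≠ 4 := by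
    split_ifs at hd <;> rw [hd] at h5 h5' <;> omega
  exact class_criterion hm e3 e5.1 e5.2 K h2 hs hcl

end Pool.Agent.T2h79.XM.CG
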