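import Pool.Agent.T2h79.XM.IS4

/-!
# The second class of fields: the general criterion for the discriminant
-/

set_option autoImplicit false
set_option linter.unusedVariables false
set_option linter.unusedSectionVars false

namespace Pool.Agent.T2h79.XM.IS

open Finset NumberField
open Pool.Agent.T2h79.XM
open Pool.Agent.T2h79.XM.Z

open scoped Classical

lemma sec_of_m {m : ℕ} {a b : ℤ} (h1 : a * b = -(m : ℤ)) (h2 : a % 4 = 1)
    (h3 : m % 4 ≠ 3 → a % 8 = 1)
    (h4 : ∀ q : ℕ, q.Prime → q ≠ 2 → (q : ℤ) ∣ b → IsSquare ((a : ℤ) : ZMod q))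
    (h5 : ∀ q : ℕ, q.Prime → (q : ℤ) ∣ a → IsSquare ((b : ℤ) : ZMod q)) :
    Sec (-(fo m * m)) a (fo m * b) := by
  rcases fo_cases m with ⟨h6, h7⟩ | ⟨h6, h7⟩
  · rw [h7]
    refine ⟨?_, h2, fun h => ?_, ?_, ?_⟩
    · rw [one_mul, one_mul, h1]
    · omega
    · rwa [one_mul]
    · intro q hq hqa
      rw [one_mul]
      exact h5 q hq hqa
  · rw [h7]
    refine ⟨?_, h2, fun _ => h3 h6, fun q hq hq2 hqb => h4 q hq hq2 ?_, fun q hq hqa => ?_⟩
    · linear_combination 4 * h1
    · rcases (Nat.prime_iff_prime_int.1 hq).dvd_or_dvd hqb with h | h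
      · exfalso
        have h8 : q ∣ 4 := by exact_mod_cast h
        have h9 : q ∣ 2 ^ 2 := by simpa using h8
        exact hq2 ((Nat.prime_dvd_prime_iff_eq hq Nat.prime_two).1 (hq.dvd_of_dvd_pow h9))
      · exact h
    · obtain ⟨w, hw⟩ := h5 q hq hqa
      refine ⟨2 * w, ?_⟩
      push_cast at hw ⊢
      linear_combination 4 * hw

/-- **The general criterion.** -/
theorem general (K : Type) [Field K] [NumberField K] (h2 : Module.finrank ℚ K = 2)
    (h0 : NumberField.discr K < 0) (h3 : NumberField.discr K % 3 = 2)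
    (h5 : NumberField.discr K % 5 = 1 ∨ NumberField.discr K % 5 = 4)
    (hne : NumberField.discr K ≠ -4)
    (hA : ∀ a b : ℤ, Sec (NumberField.discr K) a b → (a % 5 = 1 ∨ a % 5 = 4) → a = 1 ∨ b = 1)
    (hB : ∀ a b : ℤ, Fac (NumberField.discr K) a b → (a % 5 = 1 ∨ a % 5 = 4)) :
    Finite (X015 K).toAffine.Point := by
  obtain ⟨m, hm, hs⟩ := Pool.Agent.Y797.FK.t_DISC.2.1 K h2 h0
  have hd := Pool.Agent.Y797.FK.t_DISC.1 K h2 m hm hs
  have hd' : NumberField.discr K = -(fo m * m) := by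
    rw [hd]
    unfold fo
    split_ifs <;> ring
  have e3 : m % 3 = 1 := by split_ifs at hd <;> rw [hd] at h3 <;> omega
  have e5 : m % 5 = 1 ∨ m % 5 = 4 := by split_ifs at hd <;> rw [hd] at h5 <;> omega
  have hm1 : m ≠ 1 := by
    rintro rfl
    rw [if_neg (by norm_num)] at hd
    exact hne (by rw [hd]; norm_num)
  obtain ⟨n, t, r, s, hp⟩ := par_exists hm
  obtain ⟨s', hs'⟩ := hs
  rw [hd'] at hA hB
  have ht : m % 4 ≠ 3 → t = true := by
    intro h
    by_contra ht
    exact h ((par_t hp).2 (by simpa using ht))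
  refine criterionz hm hm1 hp e3 e5 (gz_of_second hm hp e3 e5
    (fun a b k1 k2 k3 k4 k5 k6 => ?_) (fun a b k1 k2 k3 k4 k5 => ?_)) K h2 s' hs'
  · rcases hA a (fo m * b) (sec_of_m k1 k2 (fun h => k3 (ht h)) k4 k5) k6 with h | h
    · exact Or.inl h
    · right
      rcases fo_cases m with ⟨h6, h7⟩ | ⟨h6, h7⟩
      · refine ⟨?_, by rwa [h7, one_mul] at h⟩
        by_contra ht'
        exact (par_t hp).1 (by simpa using ht') h6
      · exfalso
        rw [h7] at h
        omega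
  · exact hB a (fo m * b) (of_m ⟨k1, k2, fun h => k3 (ht h), k4, k5⟩)

end Pool.Agent.T2h79.XM.IS
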