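import Pool.Agent.T2h79.XM.Num
import Pool.Agent.T2h79.XM.Crit
import Pool.Agent.T2h79.XM.KP
import Pool.Agent.T2h79.XM.Z.Iso
import Pool.Agent.N218.GB.Fin
import Pool.Agent.N916.GB.Num

/-!
# The density of the imaginary quadratic fields over which `X_0(15)` has finitely many points
-/

set_option autoImplicit false
set_option linter.unusedVariables false

namespace Pool.Agent.T2h79.XM

open Finset Filter Topology
open Pool.Agent.N916.GB (SS Gd Ok eta)
open Pool.Agent.T2h79.XM.Z (Gz Okz S_DQz)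

open scoped Classical

/-- `X_0(15)` has finitely many points over `ℚ(√-D)` -/
def Fin15 (D : ℕ) : Prop := ∀ (K : Type) [Field K] [NumberField K], Module.finrank ℚ K = 2 →
  (∃ s : K, s ^ 2 = -(D : K)) → Finite (X015 K).toAffine.Point

/-! ### The parameters of a fundamental discriminant -/

/-- the squarefree part -/
def mD (D : ℕ) : ℕ := if D % 4 = 3 then D else D / 4

/-- its odd part -/
def nD (D : ℕ) : ℕ := if D % 4 = 3 then D else if (D / 4) % 2 = 1 then D / 4 else D / 8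

/-- whether the discriminant is even -/
def tD (D : ℕ) : Bool := if D % 4 = 3 then false else true

/-- whether the squarefree part is even -/
def rD (D : ℕ) : ZMod 2 := if D % 4 ≠ 3 ∧ (D / 4) % 2 = 0 then 1 else 0

/-- whether the odd part is `1` modulo `4` -/
def sD (D : ℕ) : ZMod 2 := if nD D % 4 = 3 then 0 else 1

lemma rD_zero {D : ℕ} (h : ¬ (D % 4 ≠ 3 ∧ (D / 4) % 2 = 0)) : rD D = 0 := if_neg h

lemma fd_cases {D : ℕ} (hD : Fd D) : (D % 4 = 3 ∧ Squarefree D) ∨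
    (D % 8 = 4 ∧ (D / 4) % 4 = 1 ∧ Squarefree (D / 4)) ∨
    (D % 8 = 0 ∧ (D / 8) % 2 = 1 ∧ Squarefree (D / 4)) := by
  rcases hD with h | ⟨h1, h2, h3⟩
  · exact Or.inl h
  · right
    rcases (by omega : (D / 4) % 4 = 1 ∨ (D / 4) % 4 = 2 ∨ (D / 4) % 4 = 0) with h | h | h
    · exact Or.inl ⟨by omega, h, h3⟩
    · exact Or.inr ⟨by omega, by omega, h3⟩
    · exfalso
      have h4 : 2 * 2 ∣ D / 4 := by omega
      have h5 := h3 2 h4
      rw [Nat.isUnit_iff] at h5
      omega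

lemma sqf_mD {D : ℕ} (hD : Fd D) : Squarefree (mD D) := by
  unfold mD
  rcases hD with ⟨h1, h2⟩ | ⟨h1, h2, h3⟩
  · rw [if_pos h1]; exact h2
  · rw [if_neg (by omega)]; exact h3

lemma par_D {D : ℕ} (hD : Fd D) : Par (mD D) (nD D) (tD D) (rD D) (sD D) := by
  rcases fd_cases hD with ⟨h1, h2⟩ | ⟨h1, h2, h3⟩ | ⟨h1, h2, h3⟩
  · have e1 : mD D = D := if_pos h1
    have e2 : nD D = D := if_pos h1
    have e3 : tD D = false := if_pos h1
    have e4 : rD D = 0 := if_neg (by omega)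
    have e5 : sD D = 0 := by unfold sD; rw [e2, if_pos h1]
    rw [e1, e2, e3, e4, e5]
    exact ⟨by rw [if_neg (by decide)], by rw [if_pos rfl]; exact h1, fun _ => ⟨rfl, rfl⟩,
      fun h => by simp at h⟩
  · have e1 : mD D = D / 4 := if_neg (by omega)
    have e2 : nD D = D / 4 := by
      unfold nD
      rw [if_neg (by omega), if_pos (by omega)]
    have e3 : tD D = true := if_neg (by omega)
    have e4 : rD D = 0 := if_neg (by omega)
    have e5 : sD D = 1 := by unfold sD; rw [e2, if_neg (by omega)]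
    rw [e1, e2, e3, e4, e5]
    exact ⟨by rw [if_neg (by decide)], by rw [if_neg (by decide)]; exact h2,
      fun h => by simp at h, fun _ => Or.inr (by decide)⟩
  · have e1 : mD D = D / 4 := if_neg (by omega)
    have e2 : nD D = D / 8 := by
      unfold nD
      rw [if_neg (by omega), if_neg (by omega)]
    have e3 : tD D = true := if_neg (by omega)
    have e4 : rD D = 1 := if_pos (by omega)
    by_cases h4 : (D / 8) % 4 = 3
    · have e5 : sD D = 0 := by unfold sD; rw [e2, if_pos h4]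
      rw [e1, e2, e3, e4, e5]
      exact ⟨by rw [if_pos rfl]; omega, by rw [if_pos rfl]; exact h4,
        fun h => by simp at h, fun _ => Or.inl (by decide)⟩
    · have e5 : sD D = 1 := by unfold sD; rw [e2, if_neg h4]
      rw [e1, e2, e3, e4, e5]
      exact ⟨by rw [if_pos rfl]; omega, by rw [if_neg (by decide)]; omega,
        fun h => by simp at h, fun _ => Or.inl (by decide)⟩

lemma fam_par {f : ℕ × ℕ} (hf : f ∈ fams) {n : ℕ} (hn : n % 4 = f.2) :
    tD (f.1 * n) = tD (f.1 * f.2) ∧ rD (f.1 * n) = rD (f.1 * f.2) ∧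
      sD (f.1 * n) = sD (f.1 * f.2) ∧ nD (f.1 * n) = n := by
  have hf' := hf
  unfold fams at hf'
  simp only [mem_insert, mem_singleton] at hf'
  rcases hf' with rfl | rfl | rfl | rfl
  · simp only at hn ⊢
    have e2 : nD (1 * n) = n := by unfold nD; rw [if_pos (by omega)]; omega
    refine ⟨?_, ?_, ?_, e2⟩
    · unfold tD; rw [if_pos (by omega), if_pos (by norm_num)]
    · unfold rD; rw [if_neg (by omega), if_neg (by norm_num)]
    · unfold sD; rw [e2, if_pos hn, if_pos (by decide)]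
  · simp only at hn ⊢
    have e2 : nD (4 * n) = n := by
      unfold nD; rw [if_neg (by omega), if_pos (by omega)]; omega
    refine ⟨?_, ?_, ?_, e2⟩
    · unfold tD; rw [if_neg (by omega), if_neg (by norm_num)]
    · unfold rD; rw [if_neg (by omega), if_neg (by norm_num)]
    · unfold sD; rw [e2, if_neg (by omega), if_neg (by decide)]
  · simp only at hn ⊢
    have e2 : nD (8 * n) = n := by
      unfold nD; rw [if_neg (by omega), if_neg (by omega)]; omega
    refine ⟨?_, ?_, ?_, e2⟩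
    · unfold tD; rw [if_neg (by omega), if_neg (by norm_num)]
    · unfold rD; rw [if_pos (by omega), if_pos (by norm_num)]
    · unfold sD; rw [e2, if_pos hn, if_pos (by decide)]
  · simp only at hn ⊢
    have e2 : nD (8 * n) = n := by
      unfold nD; rw [if_neg (by omega), if_neg (by omega)]; omega
    refine ⟨?_, ?_, ?_, e2⟩
    · unfold tD; rw [if_neg (by omega), if_neg (by norm_num)]
    · unfold rD; rw [if_pos (by omega), if_pos (by norm_num)]
    · unfold sD; rw [e2, if_neg (by omega), if_neg (by decide)]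

/-- the good discriminants of the first class -/
def Qa (D : ℕ) : Prop := Gd (tD D) (rD D) (sD D) (nD D).primeFactors

/-- the good discriminants of the second class -/
def Qb (D : ℕ) : Prop := Gz (tD D) (rD D) (sD D) (nD D).primeFactors

/-! ### The criteria -/

lemma fin15_of {D : ℕ} (hD : Fd D) (h : ∀ (K : Type) [Field K] [NumberField K],
    Module.finrank ℚ K = 2 → ∀ s : K, s ^ 2 = -(mD D : K) → Finite (X015 K).toAffine.Point) :
    Fin15 D := by
  intro K _ _ h2 hs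
  obtain ⟨s, hs⟩ := hs
  by_cases h3 : D % 4 = 3
  · refine h K h2 s ?_
    rw [show mD D = D from if_pos h3]
    exact hs
  · have h4 : D % 4 = 0 := by
      rcases hD with h | h
      · exact absurd h.1 h3
      · exact h.1
    refine h K h2 (s / 2) ?_
    rw [show mD D = D / 4 from if_neg h3]
    have h5 : (D : K) = 4 * ((D / 4 : ℕ) : K) := by
      have : D = 4 * (D / 4) := by omega
      exact_mod_cast this
    rw [div_pow, hs, h5]
    ring

lemma la_mD {D : ℕ} (hD : Fd D) (hL : La D) : La (mD D) := by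
  unfold La at *
  unfold mD
  by_cases h3 : D % 4 = 3
  · rw [if_pos h3]; exact hL
  · rw [if_neg h3]
    have h4 : D % 4 = 0 := by
      rcases hD with h | h
      · exact absurd h.1 h3
      · exact h.1
    omega

lemma lb_mD {D : ℕ} (hD : Fd D) (hL : Lb D) : Lb (mD D) := by
  unfold Lb at *
  unfold mD
  by_cases h3 : D % 4 = 3
  · rw [if_pos h3]; exact hL
  · rw [if_neg h3]
    have h4 : D % 4 = 0 := by
      rcases hD with h | h
      · exact absurd h.1 h3
      · exact h.1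
    omega

theorem fin_a {D : ℕ} (hD : Fd D) (hL : La D) (hG : Qa D) : Fin15 D := by
  have h1 := la_mD hD hL
  refine fin15_of hD fun K _ _ h2 s hs => ?_
  exact criterion (sqf_mD hD) h1.1 h1.2.1 h1.2.2 ((cond_iff_gd (sqf_mD hD) (par_D hD)).1 hG)
    K h2 s hs

theorem fin_b {D : ℕ} (hD : Fd D) (h4 : D ≠ 4) (hL : Lb D) (hG : Qb D) : Fin15 D := by
  have h1 := lb_mD hD hL
  refine fin15_of hD fun K _ _ h2 s hs => ?_
  have hm1 : mD D ≠ 1 := by
    unfold mD
    rcases fd_cases hD with ⟨h1, h2⟩ | ⟨h1, h2, h3⟩ | ⟨h1, h2, h3⟩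
    · rw [if_pos h1]; omega
    · rw [if_neg (by omega)]; omega
    · rw [if_neg (by omega)]; omega
  exact Z.criterionz (sqf_mD hD) hm1 (par_D hD) h1.1 h1.2 hG K h2 s hs

/-! ### The two conditions have the proportion `η` -/

/-- the number of the positive integers up to `X` with a property -/
noncomputable def cnt (P : ℕ → Prop) (X : ℕ) : ℕ := ((Icc 1 X).filter P).card

lemma cnt_all {L : ℕ → Prop} (hL : ∀ D, L D ↔ L (D % 15)) :
    Tendsto (fun X : ℕ => (cnt (fun D => Fd D ∧ L D) X : ℝ) / X) atTop (𝓝 (SL L * c0)) := by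
  refine (all_count hL).congr fun X => ?_
  unfold cnt
  congr

lemma cnt_good {L Q : ℕ → Prop} (hL : ∀ D, L D ↔ L (D % 15)) (G : ℕ × ℕ → Finset ℕ → Prop)
    (hG : ∀ f ∈ fams, Eq (Kr f L) (G f))
    (hQ : ∀ f ∈ fams, ∀ n, Squarefree n → n % 4 = f.2 → L (f.1 * n) →
      (Q (f.1 * n) ↔ G f n.primeFactors)) :
    Tendsto (fun X : ℕ => (cnt (fun D => Fd D ∧ L D ∧ Q D) X : ℝ) / X) atTop
      (𝓝 (eta * (SL L * c0))) := by
  refine (good_count hL G hG hQ).congr fun X => ?_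
  unfold cnt
  congr

lemma mem_kr' {f : ℕ × ℕ} {L : ℕ → Prop} {a : ℕ} (h : a ∈ Kr f L) :
    a < 120 ∧ a % 4 = f.2 ∧ L (f.1 * a) := by
  unfold Kr at h
  rw [mem_filter, mem_range] at h
  exact h

lemma ok_a {f : ℕ × ℕ} (hf : f ∈ fams) (L : ℕ → Prop) :
    Ok (tD (f.1 * f.2)) (rD (f.1 * f.2)) (sD (f.1 * f.2)) (Kr f L) := by
  have hf' := hf
  unfold fams at hf'
  simp only [mem_insert, mem_singleton] at hf'
  rcases hf' with rfl | rfl | rfl | rfl
  all_goals
    refine ⟨by decide, by decide, fun a ha => ?_⟩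
    obtain ⟨h1, h2, -⟩ := mem_kr' ha
    refine ⟨h1, ?_⟩
    simp only at h2 ⊢
    rw [h2]
    decide

lemma ok_b {f : ℕ × ℕ} (hf : f ∈ fams) :
    Okz (tD (f.1 * f.2)) (rD (f.1 * f.2)) (sD (f.1 * f.2)) (Kr f Lb) := by
  have hf' := hf
  unfold fams at hf'
  simp only [mem_insert, mem_singleton] at hf'
  rcases hf' with rfl | rfl | rfl | rfl
  all_goals
    refine ⟨by decide, by decide, fun a ha => ?_⟩
    obtain ⟨h1, h2, h3⟩ := mem_kr' ha
    unfold Lb at h3
    simp only at h2 h3 ⊢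
    refine ⟨h1, ?_, ?_, ?_⟩
    · rw [h2]
      decide
    · first
        | rw [if_pos (by decide)]; omega
        | rw [if_neg (by decide)]; omega
    · first
        | rw [if_pos (by decide)]; omega
        | rw [if_neg (by decide)]; omega

theorem lim_a : Tendsto (fun X : ℕ => (cnt (fun D => Fd D ∧ La D ∧ Qa D) X : ℝ) / X)
    atTop (𝓝 (eta * (14 * c0))) := by
  rw [← sl_la]
  refine cnt_good la_mod (fun f S => Gd (tD (f.1 * f.2)) (rD (f.1 * f.2)) (sD (f.1 * f.2)) S) ?_ ?_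
  · intro f hf
    exact Pool.Agent.N218.GB.t_DQ _ _ _ _ (ok_a hf La)
  · intro f hf n _ hn _
    obtain ⟨e1, e2, e3, e4⟩ := fam_par hf hn
    unfold Qa
    rw [e1, e2, e3, e4]

theorem lim_b (hQ : S_DQz) :
    Tendsto (fun X : ℕ => (cnt (fun D => Fd D ∧ Lb D ∧ Qb D) X : ℝ) / X)
    atTop (𝓝 (eta * (6 * c0))) := by
  rw [← sl_lb]
  refine cnt_good lb_mod (fun f S => Gz (tD (f.1 * f.2)) (rD (f.1 * f.2)) (sD (f.1 * f.2)) S) ?_ ?_
  · intro f hf
    exact hQ _ _ _ _ (ok_b hf)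
  · intro f hf n _ hn _
    obtain ⟨e1, e2, e3, e4⟩ := fam_par hf hn
    unfold Qb
    rw [e1, e2, e3, e4]

lemma all_lim' : Tendsto (fun X : ℕ => (cnt Fd X : ℝ) / X) atTop (𝓝 (192 / 5 * c0)) := by
  rw [← sl_all]
  have h := cnt_all (L := fun _ => True) (fun _ => Iff.rfl)
  simpa only [and_true] using h

lemma la_lim : Tendsto (fun X : ℕ => (cnt (fun D => Fd D ∧ La D) X : ℝ) / X)
    atTop (𝓝 (14 * c0)) := by
  rw [← sl_la]
  exact cnt_all la_mod

lemma lb_lim : Tendsto (fun X : ℕ => (cnt (fun D => Fd D ∧ Lb D) X : ℝ) / X)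
    atTop (𝓝 (6 * c0)) := by
  rw [← sl_lb]
  exact cnt_all lb_mod

lemma c0_pos : 0 < c0 := by
  have h1 := qs_lim (a := 1) (by norm_num) (by norm_num)
  have h2 : (1 / 480 : ℝ) ≤ c0 := by
    refine ge_of_tendsto h1 ?_
    filter_upwards [eventually_ge_atTop 400000] with X hX
    have h3 := Pool.Agent.N916.GB.low (a := 1) (by norm_num) (by norm_num) X hX
    have hX' : (0 : ℝ) < X := by
      have : 0 < X := by omega
      exact_mod_cast this
    rw [le_div_iff₀ hX']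
    exact h3
  linarith

lemma ratio {f g : ℕ → ℝ} {a b : ℝ} (hf : Tendsto (fun X : ℕ => f X / X) atTop (𝓝 a))
    (hg : Tendsto (fun X : ℕ => g X / X) atTop (𝓝 b)) (hb : b ≠ 0) :
    Tendsto (fun X : ℕ => f X / g X) atTop (𝓝 (a / b)) := by
  refine (hf.div hg hb).congr' ?_
  filter_upwards [eventually_gt_atTop 0] with X hX
  have hX' : (X : ℝ) ≠ 0 := by exact_mod_cast hX.ne'
  show f X / X / (g X / X) = f X / g X
  rw [div_div_div_cancel_right₀ hX']

/-! ### The lower densities -/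

lemma cnt_mono {P Q : ℕ → Prop} (h : ∀ D, P D → Q D) (X : ℕ) : cnt P X ≤ cnt Q X := by
  unfold cnt
  exact card_le_card (monotone_filter_right _ fun D _ hD => h D hD)

lemma cnt_succ {P Q : ℕ → Prop} {a : ℕ} (h : ∀ D, D ≠ a → P D → Q D) (X : ℕ) :
    cnt P X ≤ cnt Q X + 1 := by
  unfold cnt
  have h1 : ((Icc 1 X).filter P) ⊆ insert a ((Icc 1 X).filter Q) := by
    intro D hD
    rw [mem_filter] at hD
    rw [mem_insert, mem_filter]
    by_cases ha : D = a
    · exact Or.inl ha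
    · exact Or.inr ⟨hD.1, h D ha hD.2⟩
  exact (card_le_card h1).trans (card_insert_le _ _)

lemma cnt_add {P Q R : ℕ → Prop} (hP : ∀ D, P D → R D) (hQ : ∀ D, Q D → R D)
    (hPQ : ∀ D, P D → ¬ Q D) (X : ℕ) : cnt P X + cnt Q X ≤ cnt R X := by
  unfold cnt
  rw [← card_union_of_disjoint]
  · refine card_le_card fun D hD => ?_
    rw [mem_union, mem_filter, mem_filter] at hD
    rw [mem_filter]
    rcases hD with hD | hD
    · exact ⟨hD.1, hP D hD.2⟩
    · exact ⟨hD.1, hQ D hD.2⟩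
  · rw [disjoint_left]
    intro D h1 h2
    rw [mem_filter] at h1 h2
    exact hPQ D h1.2 h2.2

/-- a lower density from a limit -/
lemma low_of {P Q R : ℕ → Prop} {a b c : ℝ} (hP : Tendsto (fun X : ℕ => (cnt P X : ℝ) / X) atTop (𝓝 a))
    (hQ : Tendsto (fun X : ℕ => (cnt Q X : ℝ) / X) atTop (𝓝 b)) (hlt : c * a < b)
    (hR : ∀ X, (cnt Q X : ℝ) ≤ cnt R X + 1) :
    ∀ᶠ X : ℕ in atTop, c * (cnt P X : ℝ) ≤ cnt R X := by
  have h1 : Tendsto (fun X : ℕ => (cnt Q X : ℝ) / X - c * ((cnt P X : ℝ) / X) - 1 / (X : ℝ)) atTop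
      (𝓝 (b - c * a - 0)) :=
    (hQ.sub (hP.const_mul c)).sub tendsto_one_div_atTop_nhds_zero_nat
  have h2 : (0 : ℝ) < b - c * a - 0 := by linarith
  filter_upwards [h1.eventually (lt_mem_nhds h2), eventually_gt_atTop 0] with X hX hX0
  have hX' : (0 : ℝ) < X := by exact_mod_cast hX0
  have h3 : (cnt Q X : ℝ) / X - c * ((cnt P X : ℝ) / X) - 1 / (X : ℝ) =
      ((cnt Q X : ℝ) - c * (cnt P X : ℝ) - 1) / X := by
    field_simp
  rw [h3, div_pos_iff_of_pos_right hX'] at hX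
  have h4 := hR X
  linarith

/-- the number of the good discriminants of both classes -/
lemma cnt_ab (X : ℕ) : (cnt (fun D => Fd D ∧ La D ∧ Qa D) X + cnt (fun D => Fd D ∧ Lb D ∧ Qb D) X : ℝ) ≤
    cnt (fun D => Fd D ∧ Fin15 D) X + 1 := by
  have h1 : cnt (fun D => Fd D ∧ Lb D ∧ Qb D) X ≤ cnt (fun D => Fd D ∧ Lb D ∧ Fin15 D) X + 1 :=
    cnt_succ (a := 4) (fun D h4 hD => ⟨hD.1, hD.2.1, fin_b hD.1 h4 hD.2.1 hD.2.2⟩) X
  have h2 : cnt (fun D => Fd D ∧ La D ∧ Qa D) X + cnt (fun D => Fd D ∧ Lb D ∧ Fin15 D) X ≤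
      cnt (fun D => Fd D ∧ Fin15 D) X := by
    refine cnt_add (fun D hD => ⟨hD.1, fin_a hD.1 hD.2.1 hD.2.2⟩) (fun D hD => ⟨hD.1, hD.2.2⟩)
      (fun D h1 h2 => ?_) X
    have h3 := h1.2.1.1
    exact h3 h2.2.1.1
  have h3 : cnt (fun D => Fd D ∧ La D ∧ Qa D) X + cnt (fun D => Fd D ∧ Lb D ∧ Qb D) X ≤
      cnt (fun D => Fd D ∧ Fin15 D) X + 1 := by omega
  exact_mod_cast h3

theorem share_a : Tendsto (fun X : ℕ => (cnt (fun D => Fd D ∧ La D) X : ℝ) / cnt Fd X) atTop
    (𝓝 (35 / 96)) := by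
  have hc := c0_pos
  have h := ratio la_lim all_lim' (by positivity)
  rwa [show 14 * c0 / (192 / 5 * c0) = (35 / 96 : ℝ) by field_simp; norm_num] at h

theorem share_b : Tendsto (fun X : ℕ => (cnt (fun D => Fd D ∧ Lb D) X : ℝ) / cnt Fd X) atTop
    (𝓝 (15 / 96)) := by
  have hc := c0_pos
  have h := ratio lb_lim all_lim' (by positivity)
  rwa [show 6 * c0 / (192 / 5 * c0) = (15 / 96 : ℝ) by field_simp; norm_num] at h

theorem low_a {ε : ℝ} (hε : 0 < ε) : ∀ᶠ X : ℕ in atTop,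
    (eta - ε) * (cnt (fun D => Fd D ∧ La D) X : ℝ) ≤ cnt (fun D => Fd D ∧ La D ∧ Fin15 D) X := by
  have hc := c0_pos
  refine low_of la_lim lim_a (by nlinarith) fun X => ?_
  have h : cnt (fun D => Fd D ∧ La D ∧ Qa D) X ≤ cnt (fun D => Fd D ∧ La D ∧ Fin15 D) X :=
    cnt_mono (fun D hD => ⟨hD.1, hD.2.1, fin_a hD.1 hD.2.1 hD.2.2⟩) X
  exact_mod_cast h.trans (Nat.le_succ _)

theorem low_b (hQ : S_DQz) {ε : ℝ} (hε : 0 < ε) : ∀ᶠ X : ℕ in atTop,
    (eta - ε) * (cnt (fun D => Fd D ∧ Lb D) X : ℝ) ≤ cnt (fun D => Fd D ∧ Lb D ∧ Fin15 D) X := by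
  have hc := c0_pos
  refine low_of lb_lim (lim_b hQ) (by nlinarith) fun X => ?_
  have h : cnt (fun D => Fd D ∧ Lb D ∧ Qb D) X ≤ cnt (fun D => Fd D ∧ Lb D ∧ Fin15 D) X + 1 :=
    cnt_succ (a := 4) (fun D h4 hD => ⟨hD.1, hD.2.1, fin_b hD.1 h4 hD.2.1 hD.2.2⟩) X
  exact_mod_cast h

theorem low_ab (hQ : S_DQz) {c : ℝ} (hc' : c < 25 / 48 * eta) : ∀ᶠ X : ℕ in atTop,
    c * (cnt Fd X : ℝ) ≤ cnt (fun D => Fd D ∧ Fin15 D) X := by
  have hc := c0_pos
  have h1 : Tendsto (fun X : ℕ => ((cnt (fun D => Fd D ∧ La D ∧ Qa D) X : ℝ) +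
      cnt (fun D => Fd D ∧ Lb D ∧ Qb D) X) / X) atTop (𝓝 (eta * (14 * c0) + eta * (6 * c0))) := by
    refine (lim_a.add (lim_b hQ)).congr fun X => ?_
    rw [add_div]
  have h2 : Tendsto (fun X : ℕ => ((cnt (fun D => Fd D ∧ La D ∧ Qa D) X : ℝ) +
      cnt (fun D => Fd D ∧ Lb D ∧ Qb D) X) / X - c * ((cnt Fd X : ℝ) / X) - 1 / (X : ℝ)) atTop
      (𝓝 (eta * (14 * c0) + eta * (6 * c0) - c * (192 / 5 * c0) - 0)) :=
    (h1.sub (all_lim'.const_mul c)).sub tendsto_one_div_atTop_nhds_zero_nat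
  have h3 : (0 : ℝ) < eta * (14 * c0) + eta * (6 * c0) - c * (192 / 5 * c0) - 0 := by nlinarith
  filter_upwards [h2.eventually (lt_mem_nhds h3), eventually_gt_atTop 0] with X hX hX0
  have hX' : (0 : ℝ) < X := by exact_mod_cast hX0
  have h4 : ((cnt (fun D => Fd D ∧ La D ∧ Qa D) X : ℝ) +
      cnt (fun D => Fd D ∧ Lb D ∧ Qb D) X) / X - c * ((cnt Fd X : ℝ) / X) - 1 / (X : ℝ) =
      (((cnt (fun D => Fd D ∧ La D ∧ Qa D) X : ℝ) +
      cnt (fun D => Fd D ∧ Lb D ∧ Qb D) X) - c * (cnt Fd X : ℝ) - 1) / X := by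
    field_simp
  rw [h4, div_pos_iff_of_pos_right hX'] at hX
  have h5 := cnt_ab X
  linarith

end Pool.Agent.T2h79.XM
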