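import Pool.Agent.T2h79.XM.Sqf
import Pool.Agent.N916.GB.Tr

/-!
# Counting the discriminants of imaginary quadratic fields
-/

set_option autoImplicit false
set_option linter.unusedVariables false

namespace Pool.Agent.T2h79.XM

open Finset Filter Topology
open Pool.Agent.N916.GB (SS Gd eta card_eq)

open scoped Classical

/-- the classes prime to `120` -/
def Un : Finset ℕ := (range 120).filter fun u => Nat.Coprime u 120

/-- the sets of classes -/
def Kg (K : Finset ℕ) (g : ℕ) : Finset ℕ := Un.filter fun u => g * u % 120 ∈ K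

/-- the weight of a set of odd classes -/
noncomputable def Wt (K : Finset ℕ) : ℝ :=
  ∑ g ∈ ({1, 3, 5, 15} : Finset ℕ), ((Kg K g).card : ℝ) / g

/-- division of the argument -/
lemma lim_div {f : ℕ → ℝ} {L : ℝ} (h : Tendsto (fun X : ℕ => f X / X) atTop (𝓝 L)) {k : ℕ}
    (hk : 0 < k) : Tendsto (fun X : ℕ => f (X / k) / X) atTop (𝓝 (L / k)) := by
  have hk' : (0 : ℝ) < k := by exact_mod_cast hk
  have h1 : Tendsto (fun X : ℕ => X / k) atTop atTop := Nat.tendsto_div_const_atTop hk.ne'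
  have h2 := h.comp h1
  have h3 : Tendsto (fun X : ℕ => (((X / k : ℕ) : ℝ)) / X) atTop (𝓝 (1 / k)) := by
    rw [tendsto_iff_dist_tendsto_zero]
    refine squeeze_zero' (Eventually.of_forall fun X => dist_nonneg)
      (g := fun X : ℕ => 1 / (X : ℝ)) ?_ tendsto_one_div_atTop_nhds_zero_nat
    filter_upwards [eventually_gt_atTop 0] with X hX
    have hX' : (0 : ℝ) < X := by exact_mod_cast hX
    rw [Real.dist_eq, div_sub_div _ _ hX'.ne' hk'.ne', abs_div, abs_of_pos (mul_pos hX' hk'),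
      div_le_div_iff₀ (mul_pos hX' hk') hX']
    have e1 : X / k * k ≤ X := Nat.div_mul_le_self X k
    have e2 : X < (X / k + 1) * k := by
      have := Nat.lt_mul_div_succ X hk
      rwa [mul_comm] at this
    have e1' : ((X / k : ℕ) : ℝ) * k ≤ X := by exact_mod_cast e1
    have e2' : (X : ℝ) < (((X / k : ℕ) : ℝ) + 1) * k := by exact_mod_cast e2
    have e3 : |((X / k : ℕ) : ℝ) * k - X * 1| ≤ k := by
      rw [abs_le]
      constructor <;> linarith
    nlinarith
  have h4 := h2.mul h3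
  rw [mul_one_div] at h4
  refine h4.congr' ?_
  filter_upwards [eventually_ge_atTop k] with X hX
  have hX' : (0 : ℝ) < X := by exact_mod_cast lt_of_lt_of_le hk hX
  have h5 : (0 : ℝ) < ((X / k : ℕ) : ℝ) := by exact_mod_cast Nat.div_pos hX hk
  simp only [Function.comp]
  field_simp

/-- the part with a given greatest common divisor with `15` -/
lemma part_eq {K : Finset ℕ} (hK : ∀ a ∈ K, a % 2 = 1) {g : ℕ} (hg : g ∈ ({1, 3, 5, 15} : Finset ℕ))
    (X : ℕ) : ((Icc 1 X).filter fun n => (Squarefree n ∧ n % 120 ∈ K) ∧ Nat.gcd n 15 = g).card =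
      ∑ u ∈ Kg K g, (QS u (X / g)).card := by
  have hg15 : g ∣ 15 ∧ 0 < g := by
    simp only [mem_insert, mem_singleton] at hg
    rcases hg with rfl | rfl | rfl | rfl <;> norm_num
  have hdisj : ((Kg K g : Finset ℕ) : Set ℕ).PairwiseDisjoint fun u => QS u (X / g) := by
    intro u hu v hv huv
    rw [Function.onFun, Finset.disjoint_left]
    intro n hn hn'
    unfold QS at hn hn'
    rw [mem_filter] at hn hn'
    exact huv (hn.2.2.symm.trans hn'.2.2)
  rw [← card_biUnion hdisj]
  symm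
  refine card_bij (fun n _ => g * n) ?_ ?_ ?_
  · intro n hn
    rw [mem_biUnion] at hn
    obtain ⟨u, hu, hn⟩ := hn
    unfold Kg Un at hu
    rw [mem_filter, mem_filter] at hu
    unfold QS at hn
    rw [mem_filter, mem_Icc] at hn
    obtain ⟨⟨h1, h2⟩, h3, h4⟩ := hn
    have hc : Nat.Coprime n 120 := by
      rw [Nat.Coprime, Nat.gcd_comm, Nat.gcd_rec, h4]
      exact hu.1.2
    have hcg : Nat.Coprime g n := Nat.Coprime.coprime_dvd_left
      (hg15.1.trans (by norm_num : 15 ∣ 120)) hc.symm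
    have hsg : Squarefree g := by
      simp only [mem_insert, mem_singleton] at hg
      rcases hg with rfl | rfl | rfl | rfl <;> decide +kernel
    rw [mem_filter, mem_Icc]
    refine ⟨⟨?_, ?_⟩, ⟨?_, ?_⟩, ?_⟩
    · exact Nat.mul_pos hg15.2 h1
    · calc g * n ≤ g * (X / g) := Nat.mul_le_mul_left _ h2
        _ ≤ X := Nat.mul_div_le X g
    · exact (Nat.squarefree_mul hcg).2 ⟨hsg, h3⟩
    · rw [Nat.mul_mod, h4]
      have e1 : u % 120 = u := Nat.mod_eq_of_lt (by simpa using hu.1.1)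
      nth_rewrite 1 [← e1]
      rw [← Nat.mul_mod]
      exact hu.2
    · have hc15 : Nat.Coprime n 15 := Nat.Coprime.coprime_dvd_right (by norm_num) hc
      rw [Nat.Coprime.gcd_mul_right_cancel g hc15]
      exact Nat.gcd_eq_left hg15.1
  · intro a _ b _ h
    exact Nat.eq_of_mul_eq_mul_left hg15.2 h
  · intro n hn
    rw [mem_filter, mem_Icc] at hn
    obtain ⟨⟨h1, h2⟩, ⟨h3, h4⟩, h5⟩ := hn
    have hgn : g ∣ n := h5 ▸ Nat.gcd_dvd_left n 15
    obtain ⟨k, rfl⟩ := hgn
    have hk : 0 < k := Nat.pos_of_ne_zero (by rintro rfl; simp at h1)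
    have hsk : Squarefree k := h3.squarefree_of_dvd (dvd_mul_left _ _)
    have hcgk : Nat.Coprime g k := Nat.coprime_of_squarefree_mul h3
    have hodd : (g * k) % 2 = 1 := by
      have := hK _ h4
      omega
    have hk2 : k % 2 = 1 := by
      rcases Nat.even_or_odd k with h | h
      · exfalso
        have := (h.mul_left g)
        rw [Nat.even_iff] at this
        omega
      · exact Nat.odd_iff.1 h
    have hc15 : Nat.Coprime k 15 := by
      have e1 : Nat.gcd k 15 ∣ g := by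
        rw [← h5]
        exact Nat.dvd_gcd ((Nat.gcd_dvd_left _ _).mul_left g) (Nat.gcd_dvd_right _ _)
      have e2 : Nat.gcd k 15 ∣ Nat.gcd g k := Nat.dvd_gcd e1 (Nat.gcd_dvd_left _ _)
      rw [hcgk] at e2
      exact Nat.dvd_one.1 e2
    have hc120 : Nat.Coprime k 120 := by
      have : (120 : ℕ) = 15 * 2 ^ 3 := by norm_num
      rw [this]
      exact Nat.Coprime.mul_right hc15
        (Nat.Coprime.pow_right 3 (Nat.coprime_two_right.2 (Nat.odd_iff.2 hk2)))
    refine ⟨k, ?_, rfl⟩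
    rw [mem_biUnion]
    refine ⟨k % 120, ?_, ?_⟩
    · unfold Kg Un
      rw [mem_filter, mem_filter, mem_range]
      refine ⟨⟨Nat.mod_lt _ (by norm_num), ?_⟩, ?_⟩
      · rw [Nat.Coprime, ← Nat.gcd_rec, Nat.gcd_comm]
        exact hc120
      · rwa [Nat.mul_mod, Nat.mod_mod, ← Nat.mul_mod]
    · unfold QS
      rw [mem_filter, mem_Icc]
      refine ⟨⟨hk, ?_⟩, hsk, rfl⟩
      rw [Nat.le_div_iff_mul_le hg15.2, mul_comm]
      exact h2

lemma all_lim {K : Finset ℕ} (hK : ∀ a ∈ K, a % 2 = 1) :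
    Tendsto (fun X : ℕ => (((Icc 1 X).filter fun n => Squarefree n ∧ n % 120 ∈ K).card : ℝ) / X)
      atTop (𝓝 (Wt K * c0)) := by
  have h1 : ∀ X, ((Icc 1 X).filter fun n => Squarefree n ∧ n % 120 ∈ K).card =
      ∑ g ∈ ({1, 3, 5, 15} : Finset ℕ), ∑ u ∈ Kg K g, (QS u (X / g)).card := by
    intro X
    rw [← sum_congr rfl fun g hg => part_eq hK hg X]
    rw [card_eq_sum_card_fiberwise (f := fun n => Nat.gcd n 15) (t := {1, 3, 5, 15})]
    · refine sum_congr rfl fun g _ => ?_
      rw [filter_filter]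
    · intro n _
      have h2 : Nat.gcd n 15 ∣ 15 := Nat.gcd_dvd_right _ _
      have h3 : Nat.gcd n 15 ∈ Nat.divisors 15 := Nat.mem_divisors.2 ⟨h2, by norm_num⟩
      have h4 : Nat.divisors 15 = {1, 3, 5, 15} := by decide +kernel
      rw [h4] at h3
      exact h3
  have h2 : ∀ g ∈ ({1, 3, 5, 15} : Finset ℕ), Tendsto (fun X : ℕ =>
      (∑ u ∈ Kg K g, ((QS u (X / g)).card : ℝ)) / X) atTop (𝓝 ((Kg K g).card * c0 / g)) := by
    intro g hg
    have hg0 : 0 < g := by
      simp only [mem_insert, mem_singleton] at hg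
      rcases hg with rfl | rfl | rfl | rfl <;> norm_num
    refine lim_div (f := fun X => ∑ u ∈ Kg K g, ((QS u X).card : ℝ)) ?_ hg0
    simp only [sum_div]
    have h3 : ((Kg K g).card : ℝ) * c0 = ∑ u ∈ Kg K g, c0 := by rw [sum_const, nsmul_eq_mul]
    rw [h3]
    refine tendsto_finset_sum _ fun u hu => ?_
    unfold Kg Un at hu
    rw [mem_filter, mem_filter, mem_range] at hu
    exact qs_lim hu.1.1 hu.1.2
  have h3 := tendsto_finset_sum _ h2
  have h4 : ∑ g ∈ ({1, 3, 5, 15} : Finset ℕ), ((Kg K g).card : ℝ) * c0 / g = Wt K * c0 := by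
    unfold Wt
    rw [sum_mul]
    refine sum_congr rfl fun g _ => ?_
    ring
  rw [h4] at h3
  refine h3.congr fun X => ?_
  rw [h1 X, ← sum_div]
  push_cast
  rfl

/-- a set of the classes in which the good sets have the proportion `eta` -/
def Eq (K : Finset ℕ) (G : Finset ℕ → Prop) : Prop := ∀ ε : ℝ, 0 < ε → ∃ X₀ : ℕ, ∀ X : ℕ, X₀ ≤ X →
  |(((SS K X).filter G).card : ℝ) - eta * ((SS K X).card : ℝ)| ≤ ε * X

lemma good_lim {K : Finset ℕ} (hK : ∀ a ∈ K, a % 2 = 1) {G : Finset ℕ → Prop} (hG : Eq K G) :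
    Tendsto (fun X : ℕ => (((Icc 1 X).filter fun n => Squarefree n ∧ n % 120 ∈ K ∧
      G n.primeFactors).card : ℝ) / X) atTop (𝓝 (eta * (Wt K * c0))) := by
  have h1 := (all_lim hK).const_mul eta
  have h2 : Tendsto (fun X : ℕ => (((Icc 1 X).filter fun n => Squarefree n ∧ n % 120 ∈ K ∧
      G n.primeFactors).card : ℝ) / X - eta *
      ((((Icc 1 X).filter fun n => Squarefree n ∧ n % 120 ∈ K).card : ℝ) / X)) atTop (𝓝 0) := by
    rw [Metric.tendsto_atTop]
    intro ε hε
    obtain ⟨X₀, hX₀⟩ := hG (ε / 2) (by positivity)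
    refine ⟨max X₀ 1, fun X hX => ?_⟩
    have hX1 := hX₀ X ((le_max_left _ _).trans hX)
    have hX2 : 0 < X := (le_max_right _ _).trans hX
    have hX' : (0 : ℝ) < X := by exact_mod_cast hX2
    have e1 := card_eq hK X G
    have e2 := card_eq hK X (fun _ => True)
    rw [Finset.filter_true] at e2
    simp only [and_true] at e2
    rw [← e1, ← e2] at hX1
    rw [Real.dist_eq, sub_zero, mul_div_assoc', div_sub_div_same, abs_div, Nat.abs_cast,
      div_lt_iff₀ hX']
    have : ε / 2 * X < ε * X := by nlinarith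
    linarith
  have h3 := h2.add h1
  rw [zero_add] at h3
  refine h3.congr fun X => ?_
  ring

end Pool.Agent.T2h79.XM
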