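import Mathlib
import Pool.Agent.H437R2.Man.MWWeak

/-!
# Groups and curves: translation by points of order two
-/

set_option autoImplicit false
set_option linter.unusedVariables false
set_option linter.unusedSectionVars false

namespace Pool.Agent.T2h79.XM

/-- A finitely generated group which is generated by its multiples of two and by the points of
order dividing `n` is finite. -/
theorem finite_of_half {A : Type} [AddCommGroup A] {n : ℕ} (hn : 0 < n)
    (h : ∀ P : A, ∃ T Q : A, n • T = 0 ∧ P = T + (Q + Q)) (hfg : AddGroup.FG A) : Finite A := by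
  let H : AddSubgroup A :=
    { carrier := {T | n • T = 0}
      zero_mem' := smul_zero _
      add_mem' := fun {x y} hx hy => by
        show n • (x + y) = 0
        rw [smul_add, show n • x = 0 from hx, show n • y = 0 from hy, add_zero]
      neg_mem' := fun {x} hx => by
        show n • (-x) = 0
        rw [smul_neg, show n • x = 0 from hx, neg_zero] }
  haveI : AddGroup.FG (A ⧸ H) := QuotientAddGroup.fg H
  haveI : Module.Finite ℤ (A ⧸ H) := Module.Finite.iff_addGroup_fg.2 inferInstance
  obtain ⟨r, hr, hr'⟩ := Submodule.exists_sub_one_mem_and_smul_eq_zero_of_fg_of_le_smul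
    (Ideal.span {(2 : ℤ)}) (⊤ : Submodule ℤ (A ⧸ H)) Module.Finite.fg_top (by
      intro x _
      obtain ⟨P, rfl⟩ := QuotientAddGroup.mk_surjective x
      obtain ⟨P1, Q, h1, e⟩ := h P
      have e2 : ((P : A) : A ⧸ H) = (2 : ℤ) • ((Q : A) : A ⧸ H) := by
        rw [e, QuotientAddGroup.mk_add, (QuotientAddGroup.eq_zero_iff P1).2 h1, zero_add,
          QuotientAddGroup.mk_add, two_smul]
      rw [e2]
      exact Submodule.smul_mem_smul (Ideal.mem_span_singleton_self _) trivial)
  have hr0 : r ≠ 0 := by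
    rintro rfl
    obtain ⟨c, hc⟩ := Ideal.mem_span_singleton'.1 hr
    omega
  have htor : IsAddTorsion A := by
    intro P
    have h1 := hr' ((P : A) : A ⧸ H) trivial
    have h3 : (((r • P : A)) : A ⧸ H) = 0 := by
      rw [← h1]
      rfl
    have h4 : n • (r • P) = 0 := (QuotientAddGroup.eq_zero_iff _).1 h3
    have h5 : ((n : ℤ) * r) • P = 0 := by
      rw [mul_smul, natCast_zsmul]
      exact h4
    exact isOfFinAddOrder_iff_zsmul_eq_zero.2 ⟨n * r, mul_ne_zero (by exact_mod_cast hn.ne') hr0, h5⟩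
  have : AddGroup.FG A := hfg
  exact AddCommGroup.finite_of_fg_isAddTorsion A htor

/-- A finitely generated torsion group is finite; torsion can be tested on the doubles. -/
theorem finite_of_double {A : Type} [AddCommGroup A] (h : ∀ P : A, IsOfFinAddOrder (P + P))
    (hfg : AddGroup.FG A) : Finite A := by
  have htor : IsAddTorsion A := by
    intro P
    obtain ⟨n, hn, h1⟩ := isOfFinAddOrder_iff_nsmul_eq_zero.1 (h P)
    refine isOfFinAddOrder_iff_nsmul_eq_zero.2 ⟨n * 2, by omega, ?_⟩
    rw [mul_smul, two_nsmul]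
    exact h1
  have : AddGroup.FG A := hfg
  exact AddCommGroup.finite_of_fg_isAddTorsion A htor

open WeierstrassCurve Pool.Agent.H437R2.Man.MW

section curve

variable {K : Type} [Field K] [CharZero K] [DecidableEq K] {e1 e2 e3 : K}

/-- points of order two -/
lemma two_tors {x : K} (h : (crv e1 e2 e3).toAffine.Nonsingular x 0) :
    Affine.Point.some x 0 h + Affine.Point.some x 0 h = 0 := by
  apply Affine.Point.add_of_Y_eq rfl
  simp [Affine.negY, crv]

/-- the general translation -/
lemma add_two (h12 : e1 ≠ e2) (h13 : e1 ≠ e3) (h23 : e2 ≠ e3) {x y e : K}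
    (h : (crv e1 e2 e3).toAffine.Nonsingular x y) (h' : (crv e1 e2 e3).toAffine.Nonsingular (-e) 0)
    (hx : x ≠ -e) : ∃ (x' y' : K) (h'' : (crv e1 e2 e3).toAffine.Nonsingular x' y'),
      Affine.Point.some x y h + Affine.Point.some (-e) 0 h' = Affine.Point.some x' y' h'' ∧
      x' = numr e1 e2 e3 x (-e) 0 / (x + e) ^ 2 := by
  have h1 := xRep_add h h' hx
  rw [Affine.Point.add_of_X_ne hx] at h1 ⊢
  refine ⟨_, _, _, rfl, ?_⟩
  rw [Affine.Point.xRep_some] at h1
  have h2 := congrFun h1 0
  have e1 : y * 0 = 0 := mul_zero y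
  rw [e1, sub_neg_eq_add] at h2
  exact h2

/-- translation by the first point -/
lemma add_T1 (h12 : e1 ≠ e2) (h13 : e1 ≠ e3) (h23 : e2 ≠ e3) {x y : K}
    (h : (crv e1 e2 e3).toAffine.Nonsingular x y) (h' : (crv e1 e2 e3).toAffine.Nonsingular (-e1) 0)
    (hx : x + e1 ≠ 0) : ∃ (x' y' : K) (h'' : (crv e1 e2 e3).toAffine.Nonsingular x' y'),
      Affine.Point.some x y h + Affine.Point.some (-e1) 0 h' = Affine.Point.some x' y' h'' ∧
      x' + e1 = (e2 - e1) * (e3 - e1) / (x + e1) ∧ x' + e2 = (e2 - e1) * (x + e3) / (x + e1) ∧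
      x' + e3 = (e3 - e1) * (x + e2) / (x + e1) := by
  obtain ⟨x', y', h'', e, e'⟩ := add_two h12 h13 h23 h h' (fun h => hx (by rw [h]; ring))
  refine ⟨x', y', h'', e, ?_, ?_, ?_⟩
  · rw [e', numr]
    field_simp
    ring
  · rw [e', numr]
    field_simp
    ring
  · rw [e', numr]
    field_simp
    ring

/-- translation by the second point -/
lemma add_T2 (h12 : e1 ≠ e2) (h13 : e1 ≠ e3) (h23 : e2 ≠ e3) {x y : K}
    (h : (crv e1 e2 e3).toAffine.Nonsingular x y) (h' : (crv e1 e2 e3).toAffine.Nonsingular (-e2) 0)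
    (hx : x + e2 ≠ 0) : ∃ (x' y' : K) (h'' : (crv e1 e2 e3).toAffine.Nonsingular x' y'),
      Affine.Point.some x y h + Affine.Point.some (-e2) 0 h' = Affine.Point.some x' y' h'' ∧
      x' + e2 = (e1 - e2) * (e3 - e2) / (x + e2) ∧ x' + e1 = (e1 - e2) * (x + e3) / (x + e2) ∧
      x' + e3 = (e3 - e2) * (x + e1) / (x + e2) := by
  obtain ⟨x', y', h'', e, e'⟩ := add_two h12 h13 h23 h h' (fun h => hx (by rw [h]; ring))
  refine ⟨x', y', h'', e, ?_, ?_, ?_⟩
  · rw [e', numr]
    field_simp
    ring
  · rw [e', numr]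
    field_simp
    ring
  · rw [e', numr]
    field_simp
    ring

end curve

end Pool.Agent.T2h79.XM
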