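import Pool.Agent.T2h79.XM.Crit
import Pool.Agent.T2h79.XM.Grp

/-!
# The descent
-/

set_option autoImplicit false
set_option linter.unusedVariables false
set_option linter.unusedSectionVars false

namespace Pool.Agent.T2h79.XM

open Pool.Agent.N848.Q hiding star
open Pool.Agent.N916.GB (Gd Po)
open WeierstrassCurve Pool.Agent.H437R2.Man.MW

/-- a rational number whose square is an integer is an integer -/
lemma int_of_sq {r : ℚ} {n : ℤ} (h : r ^ 2 = n) : ∃ k : ℤ, r = k := by
  have h1 : IsIntegral ℤ r := by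
    refine ⟨Polynomial.X ^ 2 - Polynomial.C n, Polynomial.monic_X_pow_sub_C n two_ne_zero, ?_⟩
    rw [Polynomial.eval₂_sub, Polynomial.eval₂_pow, Polynomial.eval₂_X, Polynomial.eval₂_C, h]
    simp
  obtain ⟨k, hk⟩ := IsIntegrallyClosed.isIntegral_iff.1 h1
  exact ⟨k, by rw [← hk]; rfl⟩

/-- if `e r²` is an integer and `e` is squarefree, then `r` is an integer -/
lemma int_of_sqf {e : ℤ} (he : Squarefree e) {r : ℚ} {n : ℤ} (h : (e : ℚ) * r ^ 2 = n) :
    ∃ k : ℤ, r = k := by
  have he0 : e ≠ 0 := he.ne_zero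
  obtain ⟨t, ht⟩ := int_of_sq (r := (e : ℚ) * r) (n := e * n) (by push_cast; rw [← h]; ring)
  have h1 : (e : ℤ) * n = t ^ 2 := by
    have : ((e * n : ℤ) : ℚ) = ((t ^ 2 : ℤ) : ℚ) := by
      push_cast
      rw [← h, ← ht]
      ring
    exact_mod_cast this
  have h2 : e ∣ t := by
    have : e ∣ t ^ 2 := ⟨n, h1.symm⟩
    exact (he.dvd_pow_iff_dvd two_ne_zero).1 this
  obtain ⟨k, rfl⟩ := h2
  refine ⟨k, ?_⟩
  have he' : (e : ℚ) ≠ 0 := by exact_mod_cast he0
  have : (e : ℚ) * r = e * k := by rw [ht]; push_cast; ring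
  exact mul_left_cancel₀ he' this

/-- squarefree decomposition of integers -/
lemma sqf_dec {a : ℤ} (ha : a ≠ 0) : ∃ d k : ℤ, a = d * k ^ 2 ∧ Squarefree d ∧ k ≠ 0 := by
  obtain ⟨a', b', ha', hb', h1, h2⟩ := Nat.sq_mul_squarefree_of_pos (Int.natAbs_pos.2 ha)
  rcases Int.natAbs_eq a with h | h
  · refine ⟨a', b', ?_, Int.squarefree_natCast.2 h2, by exact_mod_cast hb'.ne'⟩
    rw [h, ← h1]
    push_cast
    ring
  · refine ⟨-a', b', ?_, ?_, by exact_mod_cast hb'.ne'⟩
    · rw [h, ← h1]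
      push_cast
      ring
    · rw [← Int.squarefree_natAbs, Int.natAbs_neg, Int.natAbs_natCast]
      exact h2

/-- the integer equation of a point -/
lemma int_data {m : ℤ} {x y : ℚ} (hy : y ≠ 0) (h : y ^ 2 = (x + 0) * (x + 9 * m) * (x + 25 * m)) :
    ∃ a b c : ℤ, b ≠ 0 ∧ c ≠ 0 ∧ IsCoprime a b ∧ x = a / b ^ 2 ∧
      a * (a + 9 * m * b ^ 2) * (a + 25 * m * b ^ 2) = c ^ 2 := by
  set q : ℤ := (x.den : ℤ) with hq
  set a : ℤ := x.num with ha
  have hq0 : 0 < q := by rw [hq]; exact_mod_cast x.den_pos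
  have hqQ : (q : ℚ) ≠ 0 := by exact_mod_cast hq0.ne'
  have hx : x = a / q := by
    rw [ha, hq]
    exact_mod_cast (Rat.num_div_den x).symm
  have hco : IsCoprime a q := by
    rw [Int.isCoprime_iff_gcd_eq_one, ha, hq]
    exact x.reduced
  set N := a * (a + 9 * m * q) * (a + 25 * m * q) with hN
  have h1 : (y * q ^ 2) ^ 2 = ((q * N : ℤ) : ℚ) := by
    rw [mul_pow, h, hx, hN]
    push_cast
    field_simp
    ring
  obtain ⟨c0, hc0⟩ := int_of_sq h1
  have h2 : q * N = c0 ^ 2 := by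
    have : ((q * N : ℤ) : ℚ) = ((c0 ^ 2 : ℤ) : ℚ) := by
      rw [← h1, hc0]
      push_cast
      ring
    exact_mod_cast this
  have hcoN : IsCoprime q N := by
    rw [hN]
    have h3 : IsCoprime q a := hco.symm
    have h4 : IsCoprime q (a + 9 * m * q) := by
      have := h3.add_mul_left_right (9 * m)
      rwa [mul_comm q (9 * m)] at this
    have h5 : IsCoprime q (a + 25 * m * q) := by
      have := h3.add_mul_left_right (25 * m)
      rwa [mul_comm q (25 * m)] at this
    exact (h3.mul_right h4).mul_right h5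
  have hc00 : c0 ≠ 0 := by
    rintro rfl
    apply hy
    have : y * (q : ℚ) ^ 2 = 0 := by rw [hc0]; norm_num
    rcases mul_eq_zero.1 this with h | h
    · exact h
    · exact absurd h (pow_ne_zero 2 hqQ)
  obtain ⟨b, hb⟩ : ∃ b, q = b ^ 2 := by
    obtain ⟨b, hb | hb⟩ := Int.sq_of_gcd_eq_one (Int.isCoprime_iff_gcd_eq_one.1 hcoN) h2
    · exact ⟨b, hb⟩
    · exfalso
      have := sq_nonneg b
      omega
  have hb0 : b ≠ 0 := by
    rintro rfl
    rw [hb] at hq0
    norm_num at hq0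
  have hdvd : b ∣ c0 := by
    rw [← Int.pow_dvd_pow_iff two_ne_zero]
    exact ⟨N, by rw [← hb, h2]⟩
  obtain ⟨c, rfl⟩ := hdvd
  refine ⟨a, b, c, hb0, fun h => hc00 (by rw [h, mul_zero]), ?_, ?_, ?_⟩
  · rw [hb] at hco
    exact (IsCoprime.pow_right_iff two_pos).1 hco
  · rw [hx, hb]
    push_cast
    ring
  · have : b ^ 2 * (a * (a + 9 * m * b ^ 2) * (a + 25 * m * b ^ 2)) = b ^ 2 * c ^ 2 := by
      rw [hN, hb] at h2
      linear_combination h2
    exact mul_left_cancel₀ (pow_ne_zero 2 hb0) this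

/-- the first step: the class of `x` -/
theorem step1 {m : ℕ} (hm : Squarefree m) (h3 : m % 3 ≠ 1) (h5 : m % 5 ≠ 1) (h5' : m % 5 ≠ 4)
    (hC : Cond m) {x y : ℚ} (hy : y ≠ 0) (h : y ^ 2 = (x + 0) * (x + 9 * m) * (x + 25 * m)) :
    ∃ s : ℚ, s ≠ 0 ∧ (x = s ^ 2 ∨ x = -m * s ^ 2) := by
  obtain ⟨a, b, c, hb, hc, hco, hx, heq⟩ := int_data (m := m) hy (by exact_mod_cast h)
  have hsq : Squarefree (m : ℤ) := Int.squarefree_natCast.2 hm
  have ha0 := a_ne hc heq
  obtain ⟨d, k, had, hd, hk⟩ := sqf_dec ha0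
  have h3z : (m : ℤ) % 3 ≠ 1 := by omega
  have h5z : (m : ℤ) % 5 ≠ 1 := by omega
  have h5z' : (m : ℤ) % 5 ≠ 4 := by omega
  obtain ⟨t1, t2, t3, t4⟩ := s1_two hsq hco hc had hd heq
  have hbQ : (b : ℚ) ≠ 0 := by exact_mod_cast hb
  have hkQ : (k : ℚ) ≠ 0 := by exact_mod_cast hk
  refine ⟨k / b, div_ne_zero hkQ hbQ, ?_⟩
  rcases r1 hm hC (s1_dvd hsq hco hc had hd heq h3z h5z h5z') t2 t3 t4 t1
    (fun p hp hp2 m' hm' => s1_ram hsq hco hc had hd heq hp hp2 hm') with hd1 | hd1
  · left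
    rw [hx, had, hd1]
    push_cast
    field_simp
  · right
    rw [hx, had, hd1]
    push_cast
    field_simp

/-- the second step: the class of `x + 9 m` -/
theorem step2 {m : ℕ} (hm : Squarefree m) (hm1 : m ≠ 1) (hC : Cond m) {x y s : ℚ} (hy : y ≠ 0)
    (hs : x = s ^ 2) (h : y ^ 2 = (x + 0) * (x + 9 * m) * (x + 25 * m)) :
    ∃ u v : ℚ, (x + 9 * m = u ^ 2 ∧ x + 25 * m = v ^ 2) ∨
      (x + 9 * m = m * u ^ 2 ∧ x + 25 * m = m * v ^ 2) := by
  have hm0 : 0 < m := Nat.pos_of_ne_zero hm.ne_zero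
  have hsqz : Squarefree (m : ℤ) := Int.squarefree_natCast.2 hm
  set z : ℤ := (s.den : ℤ) with hz
  set S : ℤ := s.num with hS
  have hz0 : 0 < z := by rw [hz]; exact_mod_cast s.den_pos
  have hzQ : (z : ℚ) ≠ 0 := by exact_mod_cast hz0.ne'
  have hs' : s = S / z := by
    rw [hS, hz]
    exact_mod_cast (Rat.num_div_den s).symm
  have hco : IsCoprime S z := by
    rw [Int.isCoprime_iff_gcd_eq_one, hS, hz]
    exact s.reduced
  have hs0 : s ≠ 0 := by
    rintro rfl
    apply hy
    rw [hs] at h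
    have : y ^ 2 = 0 := by rw [h]; ring
    exact pow_eq_zero_iff (two_ne_zero) |>.1 this
  set A : ℤ := S ^ 2 + 9 * m * z ^ 2 with hA
  set B : ℤ := S ^ 2 + 25 * m * z ^ 2 with hB
  have hz2 : 0 < z ^ 2 := by positivity
  have hmz : (0 : ℤ) < m := by exact_mod_cast hm0
  have hA0 : 0 < A := by
    have := sq_nonneg S
    positivity
  have hB0 : 0 < B := by
    have := sq_nonneg S
    positivity
  have hxA : x + 9 * m = A / z ^ 2 := by
    rw [hs, hs', hA]
    push_cast
    field_simp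
  have hxB : x + 25 * m = B / z ^ 2 := by
    rw [hs, hs', hB]
    push_cast
    field_simp
  have hAB : (y / s * z ^ 2) ^ 2 = ((A * B : ℤ) : ℚ) := by
    have h1 : y ^ 2 = s ^ 2 * (A / z ^ 2) * (B / z ^ 2) := by
      rw [h, hxA, hxB, hs, add_zero]
    rw [mul_pow, div_pow, h1]
    push_cast
    field_simp
  obtain ⟨W, hW⟩ := int_of_sq hAB
  have hW2 : A * B = W ^ 2 := by
    have : ((A * B : ℤ) : ℚ) = ((W ^ 2 : ℤ) : ℚ) := by
      rw [← hAB, hW]
      push_cast
      ring
    exact_mod_cast this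
  obtain ⟨e, k, hek, he, hk⟩ := sqf_dec hA0.ne'
  have he0 : 0 < e := by
    by_contra hle
    have h1 : e * k ^ 2 ≤ 0 := mul_nonpos_of_nonpos_of_nonneg (not_lt.1 hle) (sq_nonneg k)
    omega
  have heQ : (e : ℚ) ≠ 0 := by exact_mod_cast he0.ne'
  have hkQ : (k : ℚ) ≠ 0 := by exact_mod_cast hk
  obtain ⟨l, hl⟩ := int_of_sqf he (r := W / (e * k)) (n := B) (by
    have h1 : (e : ℚ) * k ^ 2 * B = W ^ 2 := by
      have : ((A * B : ℤ) : ℚ) = ((W ^ 2 : ℤ) : ℚ) := by rw [hW2]
      rw [hek] at this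
      push_cast at this
      exact this
    rw [div_pow, ← h1]
    field_simp)
  have hBl : B = e * l ^ 2 := by
    have h1 : (e : ℚ) * k ^ 2 * B = W ^ 2 := by
      have : ((A * B : ℤ) : ℚ) = ((W ^ 2 : ℤ) : ℚ) := by rw [hW2]
      rw [hek] at this
      push_cast at this
      exact this
    have h2 : (W : ℚ) = l * (e * k) := by
      rw [← hl]
      field_simp
    have h3 : (B : ℚ) = e * l ^ 2 := by
      rw [h2] at h1
      have h4 : (e : ℚ) * k ^ 2 ≠ 0 := mul_ne_zero heQ (pow_ne_zero 2 hkQ)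
      apply mul_left_cancel₀ h4
      rw [h1]
      ring
    exact_mod_cast h3
  have hA' : S ^ 2 + 9 * (m : ℤ) * z ^ 2 = e * k ^ 2 := hek
  have hB' : S ^ 2 + 25 * (m : ℤ) * z ^ 2 = e * l ^ 2 := hBl
  -- the parameters
  obtain ⟨n, t, r, s', hp⟩ := par_exists hm
  have hp' := hp
  obtain ⟨p1, p2, p3, p4⟩ := hp
  have hG := (cond_iff_gd hm hp').2 hC
  have hn : Squarefree n := by
    rw [p1] at hm
    split_ifs at hm
    · exact hm.squarefree_of_dvd (dvd_mul_left _ _)
    · exact hm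
  have hkey : e = 1 ∨ e = m := by
    have h1 := r2 (n := n) (t := t) (r := r) (s := s') hn p2 p3 hG ?_ he he0 ?_ ?_ ?_
    · rw [← p1] at h1
      exact h1
    · by_cases hr : r = 1
      · right
        refine ⟨?_, hr⟩
        by_contra ht
        have := (p3 (by simpa using ht)).1
        rw [this] at hr
        exact absurd hr (by decide)
      · left
        rw [if_neg hr] at p1
        rw [← p1]
        exact hm1
    · have h2 := s2_dvd hsqz hco he hA' hB'
      by_cases hr : r = 1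
      · rw [if_pos hr] at p1
        rw [p1] at h2
        push_cast at h2
        -- `e ∣ 4 n`, squarefree
        refine dvd_of_primes he fun p hp hpe => ?_
        have hpp : Prime (p : ℤ) := Nat.prime_iff_prime_int.1 hp
        rcases hpp.dvd_or_dvd (hpe.trans h2) with h3 | h3
        · exact h3.mul_right _
        · exact h3
      · rw [if_neg hr] at p1
        rw [← p1]
        exact h2
    · intro ht
      obtain ⟨hr, hs⟩ := p3 ht
      rw [hr, if_neg (by decide)] at p1
      rw [hs, if_pos rfl] at p2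
      exact s2_odd hsqz hco he hA' hB' (by omega)
    · intro p hp m' hm'
      have hpo := po_of (n := n) (by
        have h1 := p2
        split_ifs at h1 <;> omega) p hp
      exact s2_loc hsqz hco he hA' hB' hpo.1 hpo.2 (by rw [← hm', ← p1])
  have hk1 : x + 9 * m = e * (k / z) ^ 2 := by
    rw [hxA, hek]
    push_cast
    field_simp
  have hk2 : x + 25 * m = e * (l / z) ^ 2 := by
    rw [hxB, hBl]
    push_cast
    field_simp
  refine ⟨k / z, l / z, ?_⟩
  rcases hkey with h1 | h1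
  · left
    rw [hk1, hk2, h1]
    push_cast
    constructor <;> ring
  · right
    rw [hk1, hk2, h1]
    push_cast
    constructor <;> ring

/-- **The descent.** -/
theorem descent {m : ℕ} (hm : Squarefree m) (h3 : m % 3 ≠ 1) (h5 : m % 5 ≠ 1) (h5' : m % 5 ≠ 4)
    (hC : Cond m) (P : Pt (0 : ℚ) (9 * m) (25 * m)) :
    ∃ T Q : Pt (0 : ℚ) (9 * m) (25 * m), 2 • T = 0 ∧ P = T + (Q + Q) := by
  have hm1 : m ≠ 1 := by rintro rfl; exact h3 (by norm_num)
  have hm0 : (m : ℚ) ≠ 0 := by exact_mod_cast hm.ne_zero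
  have q12 : (0 : ℚ) ≠ 9 * m := by
    intro h; apply hm0; linarith
  have q13 : (0 : ℚ) ≠ 25 * m := by
    intro h; apply hm0; linarith
  have q23 : (9 * m : ℚ) ≠ 25 * m := by
    intro h; apply hm0; linarith
  have hT1 : (crv (0 : ℚ) (9 * m) (25 * m)).toAffine.Nonsingular (-0) 0 :=
    crv_nonsing q12 q13 q23 (by ring)
  have hT2 : (crv (0 : ℚ) (9 * m) (25 * m)).toAffine.Nonsingular (-(9 * m)) 0 :=
    crv_nonsing q12 q13 q23 (by ring)
  set T1 := Affine.Point.some _ _ hT1 with hT1d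
  set T2 := Affine.Point.some _ _ hT2 with hT2d
  have t1 : T1 + T1 = 0 := two_tors hT1
  have t2 : T2 + T2 = 0 := two_tors hT2
  -- second step
  have second : ∀ (x y s : ℚ) (h : (crv (0 : ℚ) (9 * m) (25 * m)).toAffine.Nonsingular x y),
      y ≠ 0 → x = s ^ 2 → ∃ T Q : Pt (0 : ℚ) (9 * m) (25 * m), 2 • T = 0 ∧
        Affine.Point.some x y h = T + (Q + Q) := by
    intro x y s h hy hs
    have heq := crv_eqn.1 h.1
    obtain ⟨u, v, ⟨h1, h2⟩ | ⟨h1, h2⟩⟩ := step2 hm hm1 hC hy hs heq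
    · obtain ⟨Q, hQ⟩ := halve q12 q13 q23 (r1 := s) (r2 := u) (r3 := v)
        (by rw [hs]; ring) h1 h2 h
      exact ⟨0, Q, by simp, by rw [zero_add, hQ]⟩
    · have hx0 : x + 0 ≠ 0 := by
        intro h0
        apply hy
        rw [h0, zero_mul, zero_mul] at heq
        exact pow_eq_zero_iff (two_ne_zero) |>.1 heq
      obtain ⟨x', y', h', e, a1, a2, a3⟩ := add_T1 q12 q13 q23 h hT1 hx0
      have hs0 : s ≠ 0 := by
        rintro rfl
        apply hx0
        rw [hs]
        ring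
      obtain ⟨Q, hQ⟩ := halve q12 q13 q23 (x := x') (y := y') (r1 := 15 * m / s)
        (r2 := 3 * m * v / s) (r3 := 5 * m * u / s)
        (by rw [a1, hs]; field_simp; ring) (by rw [a2, h2, hs]; field_simp; ring)
        (by rw [a3, h1, hs]; field_simp; ring) h'
      refine ⟨T1, Q, by rw [two_nsmul]; exact t1, ?_⟩
      rw [hQ, ← e]
      rw [add_comm, add_assoc]
      have : Affine.Point.some (-0) 0 hT1 + T1 = 0 := t1
      rw [this, add_zero]
  match P with
  | 0 => exact ⟨0, 0, by simp, by simp⟩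
  | .some x y h =>
    by_cases hy : y = 0
    · subst hy
      refine ⟨Affine.Point.some x 0 h, 0, ?_, by simp⟩
      rw [two_nsmul]
      exact two_tors h
    · have heq := crv_eqn.1 h.1
      obtain ⟨s, hs0, hs | hs⟩ := step1 hm h3 h5 h5' hC hy heq
      · exact second x y s h hy hs
      · have hx9 : x + 9 * m ≠ 0 := by
          intro h0
          apply hy
          rw [h0, mul_zero, zero_mul] at heq
          exact pow_eq_zero_iff (two_ne_zero) |>.1 heq
        have hx0 : x ≠ 0 := by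
          rw [hs]
          exact mul_ne_zero (neg_ne_zero.2 hm0) (pow_ne_zero 2 hs0)
        have hx25 : x + 25 * m ≠ 0 := by
          intro h0
          apply hy
          rw [h0, mul_zero] at heq
          exact pow_eq_zero_iff (two_ne_zero) |>.1 heq
        obtain ⟨x', y', h', e, a1, a2, a3⟩ := add_T2 q12 q13 q23 h hT2 hx9
        -- `x'` is a square
        have hx' : x' = (3 * y / (s * (x + 9 * m))) ^ 2 := by
          have h1 : x' = (0 - 9 * m) * (x + 25 * m) / (x + 9 * m) := by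
            rw [← a2]; ring
          have h2 : y ^ 2 = (-m * s ^ 2) * (x + 9 * m) * (x + 25 * m) := by
            rw [heq, add_zero]
            conv_lhs => rw [show x * (x + 9 * m) * (x + 25 * m) = x * ((x + 9 * m) * (x + 25 * m)) by
              ring]
            rw [mul_assoc]
            congr 1
          rw [h1, div_pow, mul_pow, mul_pow, h2]
          field_simp
          ring
        have hy' : y' ≠ 0 := by
          intro h0
          have h1 := crv_eqn.1 h'.1
          rw [h0, a1, a2, a3] at h1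
          have h2 : (0 - 9 * (m : ℚ)) ≠ 0 := by
            intro h3; apply hm0; linarith
          have h3 : (25 * (m : ℚ) - 9 * m) ≠ 0 := by
            intro h3; apply hm0; linarith
          have h4 : (x + 0) ≠ 0 := by rw [add_zero]; exact hx0
          have h5 : (0 - 9 * (m : ℚ)) * (x + 25 * m) / (x + 9 * m) *
              ((0 - 9 * m) * (25 * m - 9 * m) / (x + 9 * m)) *
              ((25 * m - 9 * m) * (x + 0) / (x + 9 * m)) ≠ 0 := by
            refine mul_ne_zero (mul_ne_zero (div_ne_zero (mul_ne_zero h2 hx25) hx9)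
              (div_ne_zero (mul_ne_zero h2 h3) hx9)) (div_ne_zero (mul_ne_zero h3 h4) hx9)
          apply h5
          rw [← h1]
          norm_num
        obtain ⟨T, Q, hT, hQ⟩ := second x' y' _ h' hy' hx'
        refine ⟨T + T2, Q, ?_, ?_⟩
        · rw [smul_add, hT, two_nsmul, t2, add_zero]
        · have e1 : Affine.Point.some x y h = Affine.Point.some x' y' h' + T2 := by
            rw [← e, add_assoc]
            have : Affine.Point.some (-(9 * (m : ℚ))) 0 hT2 + T2 = 0 := t2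
            rw [this, add_zero]
          rw [e1, hQ]
          abel

/-- the twist has finitely many rational points -/
theorem tw_finite {m : ℕ} (hm : Squarefree m) (h3 : m % 3 ≠ 1) (h5 : m % 5 ≠ 1) (h5' : m % 5 ≠ 4)
    (hC : Cond m) : Finite (Pt (0 : ℚ) (9 * m) (25 * m)) := by
  have hm0 : (m : ℚ) ≠ 0 := by exact_mod_cast hm.ne_zero
  refine finite_of_half two_pos (descent hm h3 h5 h5' hC) (pt_fg ?_ ?_ ?_)
  · intro h; apply hm0; linarith
  · intro h; apply hm0; linarith
  · intro h; apply hm0; linarith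

end Pool.Agent.T2h79.XM
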