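import Pool.Agent.T2h79.XM.Desc

/-!
# The rational points of `y² = x (x - 9) (x - 25)`
-/

set_option autoImplicit false
set_option linter.unusedVariables false
set_option linter.unusedSectionVars false

namespace Pool.Agent.T2h79.XM

open WeierstrassCurve Pool.Agent.H437R2.Man.MW

abbrev E0 : WeierstrassCurve ℚ := crv (0 : ℚ) (-9) (-25)

lemma q12 : (0 : ℚ) ≠ -9 := by norm_num
lemma q13 : (0 : ℚ) ≠ -25 := by norm_num
lemma q23 : (-9 : ℚ) ≠ -25 := by norm_num

lemma ns1 : E0.toAffine.Nonsingular 5 20 := crv_nonsing q12 q13 q23 (by norm_num)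
lemma ns2 : E0.toAffine.Nonsingular 45 180 := crv_nonsing q12 q13 q23 (by norm_num)
lemma ns3 : E0.toAffine.Nonsingular 25 0 := crv_nonsing q12 q13 q23 (by norm_num)

lemma dbl1 : Affine.Point.some 5 20 ns1 + Affine.Point.some 5 20 ns1 =
    Affine.Point.some 25 0 ns3 := by
  have hy : (20 : ℚ) ≠ E0.toAffine.negY 5 20 := by
    simp only [Affine.negY, crv]; norm_num
  rw [Affine.Point.add_self_of_Y_ne hy]
  have hs : E0.toAffine.slope 5 5 20 20 = -1 * (1 : ℚ) := by
    rw [Affine.slope_of_Y_ne rfl hy]
    simp only [Affine.negY, crv]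
    norm_num
  simp only [Affine.Point.some.injEq]
  rw [hs]
  constructor
  · simp only [Affine.addX, crv]; norm_num
  · simp only [Affine.addY, Affine.negAddY, Affine.negY, Affine.addX, crv]; norm_num

lemma dbl2 : Affine.Point.some 45 180 ns2 + Affine.Point.some 45 180 ns2 =
    Affine.Point.some 25 0 ns3 := by
  have hy : (180 : ℚ) ≠ E0.toAffine.negY 45 180 := by
    simp only [Affine.negY, crv]; norm_num
  rw [Affine.Point.add_self_of_Y_ne hy]
  have hs : E0.toAffine.slope 45 45 180 180 = (9 : ℚ) := by
    rw [Affine.slope_of_Y_ne rfl hy]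
    simp only [Affine.negY, crv]
    norm_num
  simp only [Affine.Point.some.injEq]
  rw [hs]
  constructor
  · simp only [Affine.addX, crv]; norm_num
  · simp only [Affine.addY, Affine.negAddY, Affine.negY, Affine.addX, crv]; norm_num

lemma unit_of_primes {d : ℤ} (hd : Squarefree d) (h : ∀ p : ℕ, p.Prime → ¬ (p : ℤ) ∣ d) :
    d = 1 ∨ d = -1 := by
  have h1 : d ∣ 1 := dvd_of_primes hd fun p hp hpd => absurd hpd (h p hp)
  exact Int.isUnit_iff.1 (isUnit_of_dvd_one h1)

/-- the class of `x` -/
lemma q_step1 {x y : ℚ} (hy : y ≠ 0) (h : y ^ 2 = (x + 0) * (x + -9) * (x + -25)) :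
    ∃ a b k : ℤ, b ≠ 0 ∧ k ≠ 0 ∧ IsCoprime a b ∧ x = a / b ^ 2 ∧ (a = k ^ 2 ∨ a = 5 * k ^ 2) := by
  have h' : y ^ 2 = (x + 0) * (x + 9 * ((-1 : ℤ) : ℚ)) * (x + 25 * ((-1 : ℤ) : ℚ)) := by
    rw [h]; push_cast; ring
  obtain ⟨a, b, c, hb, hc, hco, hx, heq⟩ := int_data (m := -1) hy h'
  have hsq : Squarefree (-1 : ℤ) := by
    rw [← Int.squarefree_natAbs]; simp
  have ha0 := a_ne hc heq
  obtain ⟨d, k, had, hd, hk⟩ := sqf_dec ha0
  refine ⟨a, b, k, hb, hk, hco, hx, ?_⟩
  have hbQ : (0 : ℚ) < (b : ℚ) ^ 2 := by
    have : (b : ℚ) ≠ 0 := by exact_mod_cast hb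
    positivity
  -- `x` is positive
  have hxpos : 0 < x := by
    by_contra hx0
    have hx0' : x ≤ 0 := not_lt.1 hx0
    have h1 : (x + 0) * (x + -9) * (x + -25) ≤ 0 := by
      have h2 : 0 < (x + -9) * (x + -25) := mul_pos_of_neg_of_neg (by linarith) (by linarith)
      rw [add_zero, mul_assoc]
      exact mul_nonpos_of_nonpos_of_nonneg hx0' h2.le
    rw [← h] at h1
    exact absurd h1 (not_le.2 (by positivity))
  have hapos : 0 < a := by
    rw [hx] at hxpos
    by_contra ha
    have : (a : ℚ) ≤ 0 := by exact_mod_cast not_lt.1 ha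
    exact absurd hxpos (not_lt.2 (div_nonpos_of_nonpos_of_nonneg this hbQ.le))
  have hdpos : 0 < d := by
    by_contra hle
    have h1 : d * k ^ 2 ≤ 0 := mul_nonpos_of_nonpos_of_nonneg (not_lt.1 hle) (sq_nonneg k)
    omega
  have hd5 : d ∣ 5 := by
    refine dvd_of_primes hd fun p hp hpd => ?_
    by_cases hp5 : p = 5
    · rw [hp5]; norm_num
    · exfalso
      have hp1 : ¬ (p : ℤ) ∣ -1 := by
        rw [dvd_neg]
        intro h2
        exact hp.one_lt.ne' (Nat.dvd_one.1 (by exact_mod_cast h2))
      by_cases hp2 : p = 2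
      · subst hp2
        have h1 := (s1_two hsq hco hc had hd heq).1 (by norm_num)
        have h2 : (2 : ℤ) ∣ d := hpd
        omega
      · exact s1_unr hsq hco hc had hd heq hp hp2 hp1 (fun _ => by norm_num)
          (fun h => absurd h hp5) hpd
  have hd' : d = 1 ∨ d = 5 := by
    have h1 : d ≤ 5 := Int.le_of_dvd (by norm_num) hd5
    obtain ⟨f, hf⟩ := hd5
    interval_cases d <;> omega
  rcases hd' with h1 | h1
  · left; rw [had, h1]; ring
  · right; rw [had, h1]

/-- the rational points -/
theorem q_desc (P : Pt (0 : ℚ) (-9) (-25)) : ∃ T Q : Pt (0 : ℚ) (-9) (-25), 4 • T = 0 ∧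
    P = T + (Q + Q) := by
  have hT1 : E0.toAffine.Nonsingular (-0) 0 := crv_nonsing q12 q13 q23 (by ring)
  set T1 : Pt (0 : ℚ) (-9) (-25) := Affine.Point.some _ _ hT1 with hT1d
  have t1 : T1 + T1 = 0 := two_tors hT1
  have four : ∀ T : Pt (0 : ℚ) (-9) (-25), T + T = 0 → 4 • T = 0 := by
    intro T hT
    rw [show 4 = 2 * 2 from rfl, mul_smul, two_nsmul T, hT, smul_zero]
  have four' : ∀ T : Pt (0 : ℚ) (-9) (-25), T + T = Affine.Point.some 25 0 ns3 → 4 • (-T) = 0 := by
    intro T hT
    rw [smul_neg, show 4 = 2 * 2 from rfl, mul_smul, two_nsmul T, hT, two_nsmul,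
      two_tors ns3, neg_zero]
  match P with
  | 0 => exact ⟨0, 0, by simp, by simp⟩
  | .some x y h =>
    by_cases hy : y = 0
    · subst hy
      exact ⟨Affine.Point.some x 0 h, 0, four _ (two_tors h), by simp⟩
    · have heq := crv_eqn.1 h.1
      obtain ⟨a, b, k, hb, hk, hco, hx, hcl⟩ := q_step1 hy heq
      have hbQ : (b : ℚ) ≠ 0 := by exact_mod_cast hb
      have hkQ : (k : ℚ) ≠ 0 := by exact_mod_cast hk
      set A : ℤ := a - 9 * b ^ 2 with hA
      set B : ℤ := a - 25 * b ^ 2 with hB
      have hxA : x + -9 = A / b ^ 2 := by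
        rw [hx, hA]; push_cast; field_simp; ring
      have hxB : x + -25 = B / b ^ 2 := by
        rw [hx, hB]; push_cast; field_simp; ring
      have hy2 : y ^ 2 ≠ 0 := pow_ne_zero 2 hy
      have hA0 : A ≠ 0 := by
        intro h0
        apply hy2
        rw [heq, hxA, h0]
        push_cast
        ring
      have hB0 : B ≠ 0 := by
        intro h0
        apply hy2
        rw [heq, hxB, h0]
        push_cast
        ring
      obtain ⟨e, k1, hek, he, hk1⟩ := sqf_dec hA0
      have heQ : (e : ℚ) ≠ 0 := by exact_mod_cast he.ne_zero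
      have hk1Q : (k1 : ℚ) ≠ 0 := by exact_mod_cast hk1
      have hsqm : Squarefree (-1 : ℤ) := by
        rw [← Int.squarefree_natAbs]; simp
      rcases hcl with hak | hak
      · -- `x` is a square
        obtain ⟨W, hW⟩ := int_of_sq (r := y * b ^ 3 / k) (n := A * B) (by
          have h1 : y ^ 2 = (a / b ^ 2) * (A / b ^ 2) * (B / b ^ 2) := by
            rw [heq, hxA, hxB, hx, add_zero]
          rw [div_pow, mul_pow, h1, hak]
          push_cast
          field_simp)
        have hW2 : (e : ℚ) * k1 ^ 2 * B = W ^ 2 := by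
          have h1 : y ^ 2 = (a / b ^ 2) * (A / b ^ 2) * (B / b ^ 2) := by
            rw [heq, hxA, hxB, hx, add_zero]
          rw [← hW, div_pow, mul_pow, h1, hak, hek]
          push_cast
          field_simp
        obtain ⟨l, hl⟩ := int_of_sqf he (r := W / (e * k1)) (n := B) (by
          rw [div_pow, ← hW2]
          field_simp)
        have hBl : B = e * l ^ 2 := by
          have h2 : (W : ℚ) = l * (e * k1) := by
            rw [← hl]
            field_simp
          have h3 : (B : ℚ) = e * l ^ 2 := by
            rw [h2] at hW2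
            have h4 : (e : ℚ) * k1 ^ 2 ≠ 0 := mul_ne_zero heQ (pow_ne_zero 2 hk1Q)
            apply mul_left_cancel₀ h4
            rw [hW2]
            ring
          exact_mod_cast h3
        have hcok : IsCoprime k b := by
          rw [hak] at hco
          exact (IsCoprime.pow_left_iff two_pos).1 hco
        have hA' : k ^ 2 + 9 * (-1) * b ^ 2 = e * k1 ^ 2 := by rw [← hek, hA, hak]; ring
        have hB' : k ^ 2 + 25 * (-1) * b ^ 2 = e * l ^ 2 := by rw [← hBl, hB, hak]; ring
        have he1 : e = 1 ∨ e = -1 := by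
          refine unit_of_primes he fun p hp hpe => ?_
          by_cases hp2 : p = 2
          · subst hp2
            have h1 := s2_odd hsqm hcok he hA' hB' (by norm_num)
            have h2 : (2 : ℤ) ∣ e := hpe
            omega
          · have h1 := s2_prime hsqm hcok he hA' hB' hp hp2 hpe
            rw [dvd_neg] at h1
            exact hp.one_lt.ne' (Nat.dvd_one.1 (by exact_mod_cast h1))
        have hxk : x = (k / b) ^ 2 := by
          rw [hx, hak]; push_cast; field_simp
        rcases he1 with h1 | h1
        · obtain ⟨Q, hQ⟩ := halve q12 q13 q23 (r1 := (k : ℚ) / b) (r2 := (k1 : ℚ) / b)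
            (r3 := (l : ℚ) / b) (by rw [hxk]; ring)
            (by rw [hxA, hek, h1]; push_cast; field_simp)
            (by rw [hxB, hBl, h1]; push_cast; field_simp) h
          exact ⟨0, Q, by simp, by rw [zero_add, hQ]⟩
        · have hx0 : x + 0 ≠ 0 := by
            rw [add_zero, hxk]
            exact pow_ne_zero 2 (div_ne_zero hkQ hbQ)
          obtain ⟨x', y', h', e', a1, a2, a3⟩ := add_T1 q12 q13 q23 h hT1 hx0
          obtain ⟨Q, hQ⟩ := halve q12 q13 q23 (x := x') (y := y') (r1 := 15 * b / k)
            (r2 := 3 * l / k) (r3 := 5 * k1 / k)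
            (by rw [a1, hxk]; field_simp; ring)
            (by rw [a2, hxB, hBl, h1, hxk]; push_cast; field_simp; ring)
            (by rw [a3, hxA, hek, h1, hxk]; push_cast; field_simp; ring) h'
          refine ⟨T1, Q, four _ t1, ?_⟩
          rw [hQ, ← e', add_comm, add_assoc]
          have : Affine.Point.some (-0) 0 hT1 + T1 = 0 := t1
          rw [this, add_zero]
      · -- `x` is five times a square
        obtain ⟨W, hW⟩ := int_of_sqf (e := 5) (by
            rw [← Int.squarefree_natAbs]
            exact (Nat.prime_five.prime.squarefree)) (r := y * b ^ 3 / (5 * k)) (n := A * B) (by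
          have h1 : y ^ 2 = (a / b ^ 2) * (A / b ^ 2) * (B / b ^ 2) := by
            rw [heq, hxA, hxB, hx, add_zero]
          rw [div_pow, mul_pow, h1, hak]
          push_cast
          field_simp)
        have hW2 : (e : ℚ) * k1 ^ 2 * B = 5 * W ^ 2 := by
          have h1 : y ^ 2 = (a / b ^ 2) * (A / b ^ 2) * (B / b ^ 2) := by
            rw [heq, hxA, hxB, hx, add_zero]
          rw [← hW, div_pow, mul_pow, h1, hak, hek]
          push_cast
          field_simp
        have hW3 : e * k1 ^ 2 * B = 5 * W ^ 2 := by exact_mod_cast hW2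
        -- the primes of `e`
        have hnb : ∀ p : ℕ, p.Prime → (p : ℤ) ∣ e → ¬ (p : ℤ) ∣ b := by
          intro p hp hpe h1
          have hpp : Prime (p : ℤ) := Nat.prime_iff_prime_int.1 hp
          have hpA : (p : ℤ) ∣ A := by rw [hek]; exact hpe.mul_right _
          have h2 : (p : ℤ) ∣ a := by
            have : a = A + b * (9 * b) := by rw [hA]; ring
            rw [this]
            exact dvd_add hpA (h1.mul_right _)
          exact hpp.not_isUnit (hco.isUnit_of_dvd' h2 h1)
        have h5e : ¬ (5 : ℤ) ∣ e := by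
          intro hpe
          have hpA : (5 : ℤ) ∣ A := by rw [hek]; exact hpe.mul_right _
          have h1 : (5 : ℤ) ∣ 9 * b ^ 2 := by
            have : 9 * b ^ 2 = 5 * k ^ 2 - A := by rw [hA, hak]; ring
            rw [this]
            exact dvd_sub (dvd_mul_right _ _) hpA
          have h55 : Prime (5 : ℤ) := Nat.prime_iff_prime_int.1 Nat.prime_five
          rcases h55.dvd_or_dvd h1 with h2 | h2
          · norm_num at h2
          · exact hnb 5 Nat.prime_five hpe (h55.dvd_of_dvd_pow h2)
        have h2e : ¬ (2 : ℤ) ∣ e := by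
          intro hpe
          have hb' : ¬ (2 : ℤ) ∣ b := hnb 2 Nat.prime_two hpe
          obtain ⟨f, hf⟩ := hpe
          have h8 : A = 2 * (f * k1 ^ 2) := by rw [hek, hf]; push_cast; ring
          have hb2 : b % 2 = 1 := by omega
          obtain ⟨t, ht⟩ : ∃ t, b ^ 2 = 8 * t + 1 :=
            ⟨b ^ 2 / 8, by have := odd_sq hb2; omega⟩
          have hk2 : k % 2 = 1 := by
            by_contra hk2
            obtain ⟨k', hk'⟩ : ∃ k', k = 2 * k' := ⟨k / 2, by omega⟩
            have : A = 2 * (10 * k' ^ 2) - 9 - 8 * (9 * t) := by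
              rw [hA, hak, ht, hk']; ring
            omega
          obtain ⟨t', ht'⟩ : ∃ t', k ^ 2 = 8 * t' + 1 :=
            ⟨k ^ 2 / 8, by have := odd_sq hk2; omega⟩
          have hA4 : A % 8 = 4 := by
            have : A = 8 * (5 * t') + 5 - 9 - 8 * (9 * t) := by
              rw [hA, hak, ht, ht']; ring
            omega
          have hfodd : f % 2 = 1 := by
            by_contra hf2
            have h1 := he 2 (by
              have : (4 : ℤ) ∣ e := by
                rw [hf]; omega
              exact this)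
            rw [Int.isUnit_iff] at h1
            omega
          have h9 : (f * k1 ^ 2) % 4 = 2 := by omega
          rcases (by omega : k1 % 4 = 0 ∨ k1 % 4 = 1 ∨ k1 % 4 = 2 ∨ k1 % 4 = 3) with
            h5 | h5 | h5 | h5 <;>
          rcases (by omega : f % 4 = 1 ∨ f % 4 = 3) with h6 | h6 <;>
            simp [pow_two, Int.mul_emod, h5, h6] at h9
        have he5 : Squarefree (5 * e) := by
          have h5p : Squarefree (5 : ℤ) := by
            rw [← Int.squarefree_natAbs]
            exact (Nat.prime_five.prime.squarefree)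
          have h55 : Prime (5 : ℤ) := Nat.prime_iff_prime_int.1 Nat.prime_five
          exact (squarefree_mul_iff).2 ⟨((Prime.coprime_iff_not_dvd h55).2 h5e).isRelPrime, h5p, he⟩
        obtain ⟨l, hl⟩ := int_of_sqf he5 (r := W / (e * k1)) (n := B) (by
          rw [div_pow]
          push_cast
          have h6 : (5 : ℚ) * e * (W ^ 2 / (e * k1) ^ 2) = e * (5 * W ^ 2) / (e * k1) ^ 2 := by ring
          rw [h6, ← hW2]
          field_simp)
        have hBl : B = 5 * e * l ^ 2 := by
          have h2 : (W : ℚ) = l * (e * k1) := by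
            rw [← hl]
            field_simp
          have h3 : (B : ℚ) = 5 * e * l ^ 2 := by
            rw [h2] at hW2
            have h4 : (e : ℚ) * k1 ^ 2 ≠ 0 := mul_ne_zero heQ (pow_ne_zero 2 hk1Q)
            apply mul_left_cancel₀ h4
            rw [hW2]
            ring
          exact_mod_cast h3
        have he1 : e = 1 ∨ e = -1 := by
          refine unit_of_primes he fun p hp hpe => ?_
          have hpp : Prime (p : ℤ) := Nat.prime_iff_prime_int.1 hp
          have hp2 : p ≠ 2 := by rintro rfl; exact h2e hpe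
          have h3 : (p : ℤ) ∣ 16 * b ^ 2 := by
            have : 16 * b ^ 2 = e * (k1 ^ 2 - 5 * l ^ 2) := by
              have : 16 * b ^ 2 = A - B := by rw [hA, hB]; ring
              rw [this, hBl, hek]; ring
            rw [this]
            exact hpe.mul_right _
          rcases hpp.dvd_or_dvd h3 with h | h
          · have h5 : p ∣ 2 ^ 4 := Int.natCast_dvd_natCast.1 (by exact_mod_cast h)
            exact hp2 ((Nat.prime_dvd_prime_iff_eq hp Nat.prime_two).1 (hp.dvd_of_dvd_pow h5))
          · exact hnb p hp hpe (hpp.dvd_of_dvd_pow h)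
        have hlQ : (l : ℚ) ≠ 0 := by
          intro h0
          apply hB0
          have : l = 0 := by exact_mod_cast h0
          rw [hBl, this]
          ring
        rcases he1 with h1 | h1
        · obtain ⟨Q, hQ⟩ := add_double q12 q13 q23 h ns2 (r1 := 15 * (k : ℚ) / b)
            (r2 := 6 * (k1 : ℚ) / b) (r3 := 10 * (l : ℚ) / b)
            (div_ne_zero (mul_ne_zero (by norm_num) hkQ) hbQ)
            (div_ne_zero (mul_ne_zero (by norm_num) hk1Q) hbQ)
            (div_ne_zero (mul_ne_zero (by norm_num) hlQ) hbQ)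
            (by rw [hx, hak]; push_cast; field_simp; ring)
            (by rw [hxA, hek, h1]; push_cast; field_simp; ring)
            (by rw [hxB, hBl, h1]; push_cast; field_simp; ring)
          refine ⟨-Affine.Point.some 45 180 ns2, Q, four' _ dbl2, ?_⟩
          rw [hQ]
          abel
        · obtain ⟨Q, hQ⟩ := add_double q12 q13 q23 h ns1 (r1 := 5 * (k : ℚ) / b)
            (r2 := 2 * (k1 : ℚ) / b) (r3 := 10 * (l : ℚ) / b)
            (div_ne_zero (mul_ne_zero (by norm_num) hkQ) hbQ)
            (div_ne_zero (mul_ne_zero (by norm_num) hk1Q) hbQ)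
            (div_ne_zero (mul_ne_zero (by norm_num) hlQ) hbQ)
            (by rw [hx, hak]; push_cast; field_simp; ring)
            (by rw [hxA, hek, h1]; push_cast; field_simp; ring)
            (by rw [hxB, hBl, h1]; push_cast; field_simp; ring)
          refine ⟨-Affine.Point.some 5 20 ns1, Q, four' _ dbl1, ?_⟩
          rw [hQ]
          abel

theorem q_finite : Finite (Pt (0 : ℚ) (-9) (-25)) :=
  finite_of_half (by norm_num) q_desc (pt_fg q12 q13 q23)

end Pool.Agent.T2h79.XM
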