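import Pool.Agent.T2h79.XM.Dens

/-!
# The four families of fundamental discriminants
-/

set_option autoImplicit false
set_option linter.unusedVariables false

namespace Pool.Agent.T2h79.XM

open Finset Filter Topology
open Pool.Agent.N916.GB (SS Gd eta card_eq)

open scoped Classical

/-- `-D` is a fundamental discriminant, that is, the discriminant of an imaginary quadratic
field -/
def Fd (D : ℕ) : Prop :=
  (D % 4 = 3 ∧ Squarefree D) ∨ (D % 4 = 0 ∧ (D / 4) % 4 ≠ 3 ∧ Squarefree (D / 4))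

/-- the four families: `D = k n` with `n` congruent to `c` modulo `4` -/
def fams : Finset (ℕ × ℕ) := {(1, 3), (4, 1), (8, 3), (8, 1)}

/-- membership in a family -/
def Fm (f : ℕ × ℕ) (D : ℕ) : Prop := f.1 ∣ D ∧ (D / f.1) % 4 = f.2 ∧ Squarefree (D / f.1)

lemma sqf_two {n : ℕ} (h : n % 2 = 1) : Squarefree (2 * n) ↔ Squarefree n := by
  have hc : Nat.Coprime 2 n := Nat.coprime_two_left.2 (Nat.odd_iff.2 h)
  rw [Nat.squarefree_mul hc]
  exact ⟨fun h => h.2, fun h => ⟨Nat.prime_two.squarefree, h⟩⟩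

lemma fd_sum (D : ℕ) : (if Fd D then 1 else 0 : ℕ) = ∑ f ∈ fams, if Fm f D then 1 else 0 := by
  unfold fams
  rw [sum_insert (by decide), sum_insert (by decide), sum_insert (by decide), sum_singleton]
  by_cases h3 : D % 4 = 3
  · have e2 : ¬ Fm (4, 1) D := by rintro ⟨h, -⟩; simp only at h; omega
    have e3 : ¬ Fm (8, 3) D := by rintro ⟨h, -⟩; simp only at h; omega
    have e4 : ¬ Fm (8, 1) D := by rintro ⟨h, -⟩; simp only at h; omega
    rw [if_neg e2, if_neg e3, if_neg e4, add_zero, add_zero, add_zero]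
    refine if_congr ?_ rfl rfl
    unfold Fd Fm
    simp only [one_dvd, Nat.div_one, true_and]
    constructor
    · rintro (h | h)
      · exact h
      · omega
    · exact Or.inl
  · have e1 : ¬ Fm (1, 3) D := by
      rintro ⟨-, h, -⟩
      simp only [Nat.div_one] at h
      omega
    rw [if_neg e1, zero_add]
    by_cases h0 : D % 4 = 0
    · rcases (by omega : (D / 4) % 4 = 1 ∨ (D / 4) % 4 = 2 ∨ (D / 4) % 4 = 3 ∨ (D / 4) % 4 = 0)
        with h | h | h | h
      · have e3 : ¬ Fm (8, 3) D := by rintro ⟨h, -⟩; simp only at h; omega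
        have e4 : ¬ Fm (8, 1) D := by rintro ⟨h, -⟩; simp only at h; omega
        rw [if_neg e3, if_neg e4, add_zero, add_zero]
        refine if_congr ?_ rfl rfl
        unfold Fd Fm
        simp only
        constructor
        · rintro (h' | h')
          · omega
          · exact ⟨by omega, h, h'.2.2⟩
        · rintro ⟨-, -, h'⟩
          exact Or.inr ⟨h0, by omega, h'⟩
      · have e2 : ¬ Fm (4, 1) D := by rintro ⟨-, h, -⟩; simp only at h; omega
        rw [if_neg e2, zero_add]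
        have h8 : D / 4 = 2 * (D / 8) := by omega
        have hodd : (D / 8) % 2 = 1 := by omega
        have hfd : Fd D ↔ Squarefree (D / 8) := by
          unfold Fd
          rw [h8, sqf_two hodd]
          constructor
          · rintro (h' | h')
            · omega
            · exact h'.2.2
          · intro h'
            exact Or.inr ⟨h0, by omega, h'⟩
        rcases (by omega : (D / 8) % 4 = 1 ∨ (D / 8) % 4 = 3) with h' | h'
        · have e3 : ¬ Fm (8, 3) D := by rintro ⟨-, h, -⟩; simp only at h; omega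
          rw [if_neg e3, zero_add]
          refine if_congr ?_ rfl rfl
          rw [hfd]
          exact ⟨fun h => ⟨by simp only; omega, h', h⟩, fun h => h.2.2⟩
        · have e4 : ¬ Fm (8, 1) D := by rintro ⟨-, h, -⟩; simp only at h; omega
          rw [if_neg e4, add_zero]
          refine if_congr ?_ rfl rfl
          rw [hfd]
          exact ⟨fun h => ⟨by simp only; omega, h', h⟩, fun h => h.2.2⟩
      · have e0 : ¬ Fd D := by
          rintro (h' | h') <;> omega
        have e2 : ¬ Fm (4, 1) D := by rintro ⟨-, h, -⟩; simp only at h; omega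
        have e3 : ¬ Fm (8, 3) D := by rintro ⟨h, -⟩; simp only at h; omega
        have e4 : ¬ Fm (8, 1) D := by rintro ⟨h, -⟩; simp only at h; omega
        rw [if_neg e0, if_neg e2, if_neg e3, if_neg e4, add_zero]
      · have e0 : ¬ Fd D := by
          rintro (h' | h')
          · omega
          · have := h'.2.2 2 (by omega)
            rw [Nat.isUnit_iff] at this
            omega
        have e2 : ¬ Fm (4, 1) D := by rintro ⟨-, h, -⟩; simp only at h; omega
        have e3 : ¬ Fm (8, 3) D := by rintro ⟨-, h, -⟩; simp only at h; omega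
        have e4 : ¬ Fm (8, 1) D := by rintro ⟨-, h, -⟩; simp only at h; omega
        rw [if_neg e0, if_neg e2, if_neg e3, if_neg e4, add_zero]
    · have e0 : ¬ Fd D := by
        rintro (h' | h') <;> omega
      have e2 : ¬ Fm (4, 1) D := by rintro ⟨h, -⟩; simp only at h; omega
      have e3 : ¬ Fm (8, 3) D := by rintro ⟨h, -⟩; simp only at h; omega
      have e4 : ¬ Fm (8, 1) D := by rintro ⟨h, -⟩; simp only at h; omega
      rw [if_neg e0, if_neg e2, if_neg e3, if_neg e4, add_zero]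

/-- the count through the families -/
lemma fd_card (Q : ℕ → Prop) (X : ℕ) : ((Icc 1 X).filter fun D => Fd D ∧ Q D).card =
    ∑ f ∈ fams, ((Icc 1 (X / f.1)).filter fun n => Squarefree n ∧ n % 4 = f.2 ∧
      Q (f.1 * n)).card := by
  have h1 : ((Icc 1 X).filter fun D => Fd D ∧ Q D).card =
      ∑ f ∈ fams, ((Icc 1 X).filter fun D => Fm f D ∧ Q D).card := by
    simp only [card_filter]
    rw [sum_comm]
    refine sum_congr rfl fun D _ => ?_
    by_cases hQ : Q D
    · simp only [hQ, and_true]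
      convert fd_sum D
    · simp [hQ]
  rw [h1]
  refine sum_congr rfl fun f hf => ?_
  have hf0 : 0 < f.1 := by
    unfold fams at hf
    simp only [mem_insert, mem_singleton] at hf
    rcases hf with rfl | rfl | rfl | rfl <;> norm_num
  symm
  refine card_bij (fun n _ => f.1 * n) ?_ ?_ ?_
  · intro n hn
    rw [mem_filter, mem_Icc] at hn ⊢
    obtain ⟨⟨h1, h2⟩, h3, h4, h5⟩ := hn
    refine ⟨⟨Nat.mul_pos hf0 h1, ?_⟩, ⟨dvd_mul_right _ _, ?_, ?_⟩, h5⟩
    · calc f.1 * n ≤ f.1 * (X / f.1) := Nat.mul_le_mul_left _ h2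
        _ ≤ X := Nat.mul_div_le X f.1
    · rwa [Nat.mul_div_cancel_left n hf0]
    · rwa [Nat.mul_div_cancel_left n hf0]
  · intro a _ b _ h
    exact Nat.eq_of_mul_eq_mul_left hf0 h
  · intro D hD
    rw [mem_filter, mem_Icc] at hD
    obtain ⟨⟨h1, h2⟩, ⟨⟨n, rfl⟩, h4, h5⟩, h6⟩ := hD
    rw [Nat.mul_div_cancel_left n hf0] at h4 h5
    refine ⟨n, ?_, rfl⟩
    rw [mem_filter, mem_Icc]
    refine ⟨⟨Nat.pos_of_ne_zero (by rintro rfl; simp at h1), ?_⟩, h5, h4, h6⟩
    rw [Nat.le_div_iff_mul_le hf0, mul_comm]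
    exact h2

/-- the classes of a family in a local condition modulo `15` -/
noncomputable def Kr (f : ℕ × ℕ) (L : ℕ → Prop) : Finset ℕ :=
  (range 120).filter fun a => a % 4 = f.2 ∧ L (f.1 * a)

lemma mem_kr {f : ℕ × ℕ} {L : ℕ → Prop} (hL : ∀ D, L D ↔ L (D % 15)) (n : ℕ) :
    n % 120 ∈ Kr f L ↔ n % 4 = f.2 ∧ L (f.1 * n) := by
  unfold Kr
  rw [mem_filter, mem_range]
  have h1 : n % 120 % 4 = n % 4 := Nat.mod_mod_of_dvd n (by norm_num)
  have h2 : L (f.1 * (n % 120)) ↔ L (f.1 * n) := by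
    rw [hL, hL (f.1 * n), Nat.mul_mod, Nat.mod_mod_of_dvd n (by norm_num), ← Nat.mul_mod]
  rw [h1, h2]
  exact ⟨fun h => h.2, fun h => ⟨Nat.mod_lt _ (by norm_num), h⟩⟩

/-- the total weight -/
noncomputable def SL (L : ℕ → Prop) : ℝ := ∑ f ∈ fams, Wt (Kr f L) / f.1

lemma fams_prop {f : ℕ × ℕ} (hf : f ∈ fams) : 0 < f.1 ∧ f.2 % 2 = 1 := by
  unfold fams at hf
  simp only [mem_insert, mem_singleton] at hf
  rcases hf with rfl | rfl | rfl | rfl <;> norm_num

lemma kr_odd {f : ℕ × ℕ} (hf : f ∈ fams) (L : ℕ → Prop) : ∀ a ∈ Kr f L, a % 2 = 1 := by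
  intro a ha
  unfold Kr at ha
  rw [mem_filter] at ha
  have := (fams_prop hf).2
  omega

theorem all_count {L : ℕ → Prop} (hL : ∀ D, L D ↔ L (D % 15)) :
    Tendsto (fun X : ℕ => (((Icc 1 X).filter fun D => Fd D ∧ L D).card : ℝ) / X) atTop
      (𝓝 (SL L * c0)) := by
  have h1 : ∀ f ∈ fams, Tendsto (fun X : ℕ => (((Icc 1 (X / f.1)).filter fun n => Squarefree n ∧
      n % 4 = f.2 ∧ L (f.1 * n)).card : ℝ) / X) atTop (𝓝 (Wt (Kr f L) * c0 / f.1)) := by
    intro f hf
    refine lim_div (f := fun X => (((Icc 1 X).filter fun n => Squarefree n ∧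
      n % 4 = f.2 ∧ L (f.1 * n)).card : ℝ)) ?_ (fams_prop hf).1
    refine (all_lim (kr_odd hf L)).congr fun X => ?_
    congr 3
    refine filter_congr fun n _ => ?_
    rw [mem_kr hL]
  have h2 := tendsto_finset_sum _ h1
  have h3 : ∑ f ∈ fams, Wt (Kr f L) * c0 / f.1 = SL L * c0 := by
    unfold SL
    rw [sum_mul]
    refine sum_congr rfl fun f _ => ?_
    ring
  rw [h3] at h2
  refine h2.congr fun X => ?_
  rw [fd_card, ← sum_div]
  push_cast
  rfl

theorem good_count {L Q : ℕ → Prop} (hL : ∀ D, L D ↔ L (D % 15)) (G : ℕ × ℕ → Finset ℕ → Prop)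
    (hG : ∀ f ∈ fams, Eq (Kr f L) (G f))
    (hQ : ∀ f ∈ fams, ∀ n, Squarefree n → n % 4 = f.2 → L (f.1 * n) →
      (Q (f.1 * n) ↔ G f n.primeFactors)) :
    Tendsto (fun X : ℕ => (((Icc 1 X).filter fun D => Fd D ∧ L D ∧ Q D).card : ℝ) / X) atTop
      (𝓝 (eta * (SL L * c0))) := by
  have h1 : ∀ f ∈ fams, Tendsto (fun X : ℕ => (((Icc 1 (X / f.1)).filter fun n => Squarefree n ∧
      n % 4 = f.2 ∧ L (f.1 * n) ∧ Q (f.1 * n)).card : ℝ) / X) atTop
      (𝓝 (eta * (Wt (Kr f L) * c0) / f.1)) := by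
    intro f hf
    refine lim_div (f := fun X => (((Icc 1 X).filter fun n => Squarefree n ∧
      n % 4 = f.2 ∧ L (f.1 * n) ∧ Q (f.1 * n)).card : ℝ)) ?_ (fams_prop hf).1
    refine (good_lim (kr_odd hf L) (hG f hf)).congr fun X => ?_
    congr 3
    refine filter_congr fun n _ => ?_
    rw [mem_kr hL]
    constructor
    · rintro ⟨e1, ⟨e2, e3⟩, e4⟩
      exact ⟨e1, e2, e3, (hQ f hf n e1 e2 e3).2 e4⟩
    · rintro ⟨e1, e2, e3, e4⟩
      exact ⟨e1, ⟨e2, e3⟩, (hQ f hf n e1 e2 e3).1 e4⟩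
  have h2 := tendsto_finset_sum _ h1
  have h3 : ∑ f ∈ fams, eta * (Wt (Kr f L) * c0) / f.1 = eta * (SL L * c0) := by
    unfold SL
    rw [sum_mul, mul_sum]
    refine sum_congr rfl fun f _ => ?_
    ring
  rw [h3] at h2
  refine h2.congr fun X => ?_
  have h5 : ((Icc 1 X).filter fun D => Fd D ∧ L D ∧ Q D).card =
      ∑ f ∈ fams, ((Icc 1 (X / f.1)).filter fun n => Squarefree n ∧ n % 4 = f.2 ∧
        L (f.1 * n) ∧ Q (f.1 * n)).card := by
    convert fd_card (fun D => L D ∧ Q D) X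
  rw [h5, ← sum_div]
  push_cast
  rfl

end Pool.Agent.T2h79.XM
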