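import Pool.Agent.T2h79.XM.CG
import Pool.Agent.T2h79.XM.Z.Iso

/-!
# The second class of fields (`3` inert, `5` split) and the class group
-/

set_option autoImplicit false
set_option linter.unusedVariables false
set_option linter.unusedSectionVars false

namespace Pool.Agent.T2h79.XM.IS

open Finset NumberField
open Pool.Agent.T2h79.XM
open Pool.Agent.T2h79.XM.Z
open Pool.Agent.Y703.CQ (nr)
open Pool.Agent.N973.ND (uu)
open Pool.Agent.N916.GB (Po sy Vt Gd z2 z2_add_self z2_sq nr_recip z2_eq_of_add)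
open Pool.Agent.N848.Q hiding star

open Pool.Agent.N848.Q renaming star → st

open scoped Classical

variable {t : Bool} {r s : ZMod 2} {S : Finset ℕ}

/-- the rows of the changed system -/
lemma row_z (hB : ∑ p ∈ Vt t S, be r p = 0) (x : ℕ → ZMod 2) (q : ℕ) :
    ∑ p ∈ Vt t S, (x p + x q) * sz r s q p =
      ∑ p ∈ Vt t S, (x p + x q) * sy r s q p + al q * ∑ p ∈ Vt t S, x p * be r p := by
  have h1 : ∑ p ∈ Vt t S, (x p + x q) * sz r s q p =
      ∑ p ∈ Vt t S, (x p + x q) * sy r s q p + al q * ∑ p ∈ Vt t S, x p * be r p +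
        al q * x q * ∑ p ∈ Vt t S, be r p := by
    rw [mul_sum, mul_sum, ← sum_add_distrib, ← sum_add_distrib]
    refine sum_congr rfl fun p _ => ?_
    unfold sz
    ring
  rw [h1, hB, mul_zero, add_zero]

/-- **The linear algebra.** -/
theorem gz_of_gd (hG : Gd t r s S) (hB : ∑ p ∈ Vt t S, be r p = 0) (y : ℕ → ZMod 2)
    (hy : ∀ q ∈ Vt t S, ∑ p ∈ Vt t S, (y p + y q) * sy r s q p = al q)
    (hyb : ∑ p ∈ Vt t S, y p * be r p = 0) : Gz t r s S := by
  intro x hx
  rcases z2 (∑ p ∈ Vt t S, x p * be r p) with hb | hb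
  · refine hG x fun q hq => ?_
    have h1 := hx q hq
    rwa [row_z hB, hb, mul_zero, add_zero] at h1
  · exfalso
    have h1 : ∀ q ∈ Vt t S, ∑ p ∈ Vt t S, ((x p + y p) + (x q + y q)) * sy r s q p = 0 := by
      intro q hq
      have h2 := hx q hq
      rw [row_z hB, hb, mul_one] at h2
      have h3 : ∑ p ∈ Vt t S, ((x p + y p) + (x q + y q)) * sy r s q p =
          ∑ p ∈ Vt t S, (x p + x q) * sy r s q p + ∑ p ∈ Vt t S, (y p + y q) * sy r s q p := by
        rw [← sum_add_distrib]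
        exact sum_congr rfl fun p _ => by ring
      rw [h3, hy q hq]
      exact h2
    have h2 := hG (fun p => x p + y p) h1
    by_cases hne : (Vt t S).Nonempty
    · obtain ⟨p₀, hp₀⟩ := hne
      have h3 : ∑ p ∈ Vt t S, x p * be r p + ∑ p ∈ Vt t S, y p * be r p =
          (x p₀ + y p₀) * ∑ p ∈ Vt t S, be r p := by
        rw [← sum_add_distrib, mul_sum]
        refine sum_congr rfl fun p hp => ?_
        rw [← add_mul, h2 p hp p₀ hp₀]
      rw [hb, hyb, hB, mul_zero, add_zero] at h3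
      exact one_ne_zero h3
    · rw [not_nonempty_iff_eq_empty] at hne
      rw [hne, sum_empty] at hb
      exact zero_ne_one hb

/-- a set `T` of odd ramified primes -/
theorem gz_of_set (hS : ∀ p ∈ S, Po p) (hok : t = false → r = 0 ∧ s = 0) (hG : Gd t r s S)
    (hB : ∑ p ∈ Vt t S, be r p = 0) {T : Finset ℕ} (hTS : T ⊆ S)
    (hT : ∀ q ∈ S, (if q ∈ T then ns q (Dl r s * ∏ p ∈ S \ T, st p) else ns q (∏ p ∈ T, st p)) =
      al q)
    (h2 : t = true → ∑ p ∈ T, nr p 2 = 1) (hTb : ∑ p ∈ T, be r p = 0) : Gz t r s S := by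
  have h2T : (2 : ℕ) ∉ T := fun h => (hS 2 (hTS h)).2 rfl
  refine gz_of_gd hG hB (fun p => if p ∈ T then 1 else 0) (fun q hq => ?_) ?_
  · rcases mem_Vt.1 hq with ⟨ht, rfl⟩ | hq
    · rw [row_two hS hTS, h2 ht, al2v]
    · rw [row_eq hS hok hTS hq, hT q hq]
  · rw [sum_Vt hS, if_neg h2T, zero_mul]
    have e : (if t = true then (0 : ZMod 2) else 0) = 0 := by split_ifs <;> rfl
    rw [e, zero_add]
    refine Eq.trans ?_ hTb
    rw [← sum_sdiff hTS, sum_eq_zero (s := S \ T) fun p hp => by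
      rw [if_neg (mem_sdiff.1 hp).2, zero_mul], zero_add]
    exact sum_congr rfl fun p hp => by rw [if_pos hp, one_mul]

lemma not_dvd_three {q : ℕ} (hq : Po q) (h3 : q ≠ 3) : ¬ (q : ℤ) ∣ -3 := by
  intro h
  rw [dvd_neg] at h
  exact h3 ((Nat.prime_dvd_prime_iff_eq hq.1 Nat.prime_three).1 (by exact_mod_cast h))

/-- the symbol of `x` if `-3 x` is a square -/
lemma ns_of_sq {q : ℕ} (hq : Po q) (h3 : q ≠ 3) {x : ℤ} (hx : ¬ (q : ℤ) ∣ x)
    (h : IsSquare ((-3 * x : ℤ) : ZMod q)) : ns q x = al q := by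
  have h1 := ns_zero.2 h
  rw [ns_mul hq.1 (not_dvd_three hq h3) hx, al_ns hq h3] at h1
  exact (z2_eq_of_add h1).symm

/-- the criterion for `m` -/
theorem gz_of_fac {m n : ℕ} (hm : Squarefree m) (hp : Par m n t r s) (h3 : m % 3 = 1)
    (h5 : m % 5 = 1 ∨ m % 5 = 4) (hG : Gd t r s n.primeFactors) {a b : ℤ}
    (hab : a * b = -(m : ℤ)) (ha : a % 4 = 1) (ha8 : t = true → a % 8 = 5)
    (h1 : ∀ q : ℕ, q.Prime → q ≠ 2 → (q : ℤ) ∣ b → IsSquare ((-3 * a : ℤ) : ZMod q))
    (h2 : ∀ q : ℕ, q.Prime → (q : ℤ) ∣ a → IsSquare ((-3 * b : ℤ) : ZMod q))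
    (ha5 : a % 5 = 1 ∨ a % 5 = 4) : Gz t r s n.primeFactors := by
  obtain ⟨hn, ho, hS, hM, hok, -⟩ := CG.par_facts hm hp
  have hz := hz_of hm hp h3 h5
  set S := n.primeFactors with hSdef
  have hS3 : ∀ q ∈ S, q ≠ 3 := by
    rintro q hq rfl
    have := Nat.dvd_of_mem_primeFactors hq
    have := hz.n3
    omega
  have hsqm : Squarefree (m : ℤ) := Int.squarefree_natCast.2 hm
  have hsa : Squarefree a.natAbs := by
    rw [Int.squarefree_natAbs]
    refine hsqm.squarefree_of_dvd ⟨-b, ?_⟩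
    linarith
  have e1 := eq_prod_star ha hsa
  set T := a.natAbs.primeFactors with hT
  have hodd : a % 2 = 1 := by omega
  have hTS : T ⊆ S := by
    intro p hp'
    have hpp := Nat.prime_of_mem_primeFactors hp'
    have hpa : (p : ℤ) ∣ a := Int.natCast_dvd.2 (Nat.dvd_of_mem_primeFactors hp')
    have hp2 : Po p := by
      refine ⟨hpp, ?_⟩
      rintro rfl
      omega
    by_contra hpS
    have h1 : (p : ℤ) ∣ Dl r s * ∏ p ∈ S, st p := by
      rw [hM, ← hab]
      exact hpa.mul_right _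
    rcases (Nat.prime_iff_prime_int.1 hpp).dvd_or_dvd h1 with h2 | h2
    · exact not_dvd_Dl hp2 h2
    · exact not_dvd_prod_star hp2 S hS hpS h2
  have ha0 : a ≠ 0 := by rintro rfl; norm_num at ha
  have e2 : b = Dl r s * ∏ p ∈ S \ T, st p := by
    have : a * b = a * (Dl r s * ∏ p ∈ S \ T, st p) := by
      rw [hab, ← hM, ← prod_sdiff hTS, ← e1]
      ring
    exact mul_left_cancel₀ ha0 this
  refine gz_of_set hS hok hG (sum_be hS hok hz.be) hTS ?_ ?_ ?_
  · intro q hq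
    have hq' := hS q hq
    split_ifs with hqT
    · rw [← e2]
      refine ns_of_sq hq' (hS3 q hq) ?_ (h2 q hq'.1 ?_)
      · rw [e2]
        intro h
        rcases (Nat.prime_iff_prime_int.1 hq'.1).dvd_or_dvd h with h | h
        · exact not_dvd_Dl hq' h
        · exact not_dvd_prod_star hq' _ (fun p hp => hS p (mem_sdiff.1 hp).1)
            (fun h => (mem_sdiff.1 h).2 hqT) h
      · rw [e1]
        exact star_dvd_prod hqT
    · rw [← e1]
      refine ns_of_sq hq' (hS3 q hq) ?_ (h1 q hq'.1 hq'.2 ?_)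
      · rw [e1]
        exact not_dvd_prod_star hq' _ (fun p hp => hS p (hTS hp)) hqT
      · rw [e2]
        exact (star_dvd_prod (mem_sdiff.2 ⟨hq, hqT⟩)).mul_left _
  · intro ht
    have h4 := prod_star_mod T fun p hp => hS p (hTS hp)
    rw [← e1, ha8 ht] at h4
    refine (z2 _).resolve_left fun h => ?_
    rw [if_pos h] at h4
    norm_num at h4
  · have h6 : ∀ p ∈ T, p % 5 ≠ 0 ∧ p ≠ 2 := by
      intro p hp'
      refine ⟨fun h => ?_, (hS p (hTS hp')).2⟩
      have h7 := Nat.dvd_of_mem_primeFactors (hTS hp')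
      have h8 : 5 ∣ n := (Nat.dvd_of_mod_eq_zero h).trans h7
      have := hz.n5
      omega
    have h7 := prod_five (r := r) T h6
    rw [hT, Nat.prod_primeFactors_of_squarefree hsa, ← hT] at h7
    rcases h7 with ⟨h, -⟩ | ⟨-, h⟩
    · exact h
    · exfalso
      omega

/-- the criterion in terms of the class group -/
theorem class_criterion {m : ℕ} (hm : Squarefree m) (h3 : m % 3 = 1) (h5 : m % 5 = 1 ∨ m % 5 = 4)
    (hm1 : m ≠ 1) (K : Type) [Field K] [NumberField K] (h2 : Module.finrank ℚ K = 2)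
    (hs : ∃ s : K, s ^ 2 = -(m : K))
    (hcl : ∀ x : ClassGroup (𝓞 K), x ^ 4 = 1 → x ^ 2 = 1) {a b : ℤ}
    (hab : a * b = -(m : ℤ)) (ha : a % 4 = 1) (ha8 : m % 4 ≠ 3 → a % 8 = 5)
    (h1 : ∀ q : ℕ, q.Prime → q ≠ 2 → (q : ℤ) ∣ b → IsSquare ((-3 * a : ℤ) : ZMod q))
    (h2' : ∀ q : ℕ, q.Prime → (q : ℤ) ∣ a → IsSquare ((-3 * b : ℤ) : ZMod q))
    (ha5 : a % 5 = 1 ∨ a % 5 = 4) : Finite (X015 K).toAffine.Point := by
  obtain ⟨n, t, r, s, hp⟩ := par_exists hm
  obtain ⟨s', hs'⟩ := hs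
  refine criterionz hm hm1 hp h3 h5 (gz_of_fac hm hp h3 h5
    (CG.gd_of_class h2 hm hp ⟨s', hs'⟩ hcl) hab ha (fun ht => ha8 ?_) h1 h2' ha5) K h2 s' hs'
  obtain ⟨p1, p2, p3, p4⟩ := hp
  intro h4
  rcases p4 ht with h | h
  · rcases z2 r with hr | hr
    · exact h hr
    · rw [if_pos hr] at p1
      omega
  · rw [if_neg h] at p2
    split_ifs at p1 <;> omega

/-- the criterion in terms of the discriminant and the class group -/
theorem disc_criterion (K : Type) [Field K] [NumberField K] (h2 : Module.finrank ℚ K = 2)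
    (h0 : NumberField.discr K < 0) (h3 : NumberField.discr K % 3 = 2)
    (h5 : NumberField.discr K % 5 = 1 ∨ NumberField.discr K % 5 = 4)
    (hcl : ∀ x : ClassGroup (𝓞 K), x ^ 4 = 1 → x ^ 2 = 1) (a b : ℤ)
    (hab : a * b = NumberField.discr K) (ha : a % 4 = 1)
    (ha8 : NumberField.discr K % 2 = 0 → a % 8 = 5)
    (h1 : ∀ q : ℕ, q.Prime → q ≠ 2 → (q : ℤ) ∣ b → IsSquare ((-3 * a : ℤ) : ZMod q))
    (h2' : ∀ q : ℕ, q.Prime → (q : ℤ) ∣ a → IsSquare ((-3 * b : ℤ) : ZMod q))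
    (ha5 : a % 5 = 1 ∨ a % 5 = 4) : Finite (X015 K).toAffine.Point := by
  obtain ⟨m, hm, hs⟩ := Pool.Agent.Y797.FK.t_DISC.2.1 K h2 h0
  have hd := Pool.Agent.Y797.FK.t_DISC.1 K h2 m hm hs
  have e3 : m % 3 = 1 := by
    split_ifs at hd <;> rw [hd] at h3 <;> omega
  have e5 : m % 5 = 1 ∨ m % 5 = 4 := by
    split_ifs at hd <;> rw [hd] at h5 <;> omega
  have hm1 : m ≠ 1 := by
    -- for `m = 1` the factorization does not exist
    rintro rfl
    rw [if_neg (by norm_num)] at hd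
    have h8 := ha8 (by rw [hd]; norm_num)
    have hdv : a ∣ -4 := by
      rw [hd] at hab
      exact ⟨b, by push_cast at hab; linarith⟩
    have h4 : a.natAbs ∣ 4 := by
      have := Int.natAbs_dvd_natAbs.2 hdv
      simpa using this
    have h5 : a.natAbs ≤ 4 := Nat.le_of_dvd (by norm_num) h4
    omega
  by_cases h4 : m % 4 = 3
  · rw [if_pos h4] at hd
    exact class_criterion hm e3 e5 hm1 K h2 hs hcl (hab.trans hd) ha (fun h => absurd h4 h) h1 h2'
      ha5
  · rw [if_neg h4] at hd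
    have hod : a % 2 = 1 := by omega
    have h4b : (4 : ℤ) ∣ b := by
      have h6 : (4 : ℤ) ∣ a * b := by
        rw [hab, hd]
        exact ⟨-m, by ring⟩
      have h7 : IsCoprime (4 : ℤ) a := by
        rw [Int.isCoprime_iff_gcd_eq_one]
        have h8 : Int.gcd 4 a = Nat.gcd 4 a.natAbs := rfl
        rw [h8]
        have h9 : a.natAbs % 2 = 1 := by omega
        have h10 : Nat.Coprime 2 a.natAbs := (Nat.coprime_two_left).2 (Nat.odd_iff.2 h9)
        have : Nat.Coprime (2 ^ 2) a.natAbs := Nat.Coprime.pow_left 2 h10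
        simpa using this
      exact h7.dvd_of_dvd_mul_left h6
    obtain ⟨b', rfl⟩ := h4b
    have hab' : a * b' = -(m : ℤ) := by
      rw [hd] at hab
      have : 4 * (a * b') = 4 * (-(m : ℤ)) := by linear_combination hab
      exact mul_left_cancel₀ (by norm_num) this
    refine class_criterion hm e3 e5 hm1 K h2 hs hcl hab' ha
      (fun _ => ha8 (by rw [hd]; omega)) (fun q hq hq2 hqb => h1 q hq hq2 (hqb.mul_left _))
      (fun q hq hqa => ?_) ha5
    have h9 := h2' q hq hqa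
    have hq2 : q ≠ 2 := by
      rintro rfl
      omega
    have : Fact q.Prime := ⟨hq⟩
    have h40 : ((2 : ℤ) : ZMod q) ≠ 0 := by
      intro h
      rw [ZMod.intCast_zmod_eq_zero_iff_dvd] at h
      exact hq2 ((Nat.prime_dvd_prime_iff_eq hq Nat.prime_two).1 (by exact_mod_cast h))
    obtain ⟨w, hw⟩ := h9
    refine ⟨w / ((2 : ℤ) : ZMod q), ?_⟩
    rw [div_mul_div_comm, ← hw, eq_div_iff (mul_ne_zero h40 h40)]
    push_cast
    ring

end Pool.Agent.T2h79.XM.IS
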