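import Pool.Agent.T2h79.XM.IS

/-!
# The second class of fields: the factorization exists
-/

set_option autoImplicit false
set_option linter.unusedVariables false
set_option linter.unusedSectionVars false

namespace Pool.Agent.T2h79.XM.IS

open Finset NumberField
open Pool.Agent.T2h79.XM
open Pool.Agent.T2h79.XM.Z
open Pool.Agent.T2h79.XM.CG
open Pool.Agent.Y703.CQ (nr)
open Pool.Agent.N973.ND (uu)
open Pool.Agent.N916.GB (Po sy Vt Gd Gv Ev Lm Lm_mulVec Ev_const Gv_iff_rank z2 z2_add_self z2_sq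
  nr_recip z2_eq_of_add)
open Pool.Agent.N848.Q hiding star

open Pool.Agent.N848.Q renaming star → st

open scoped Classical

/-- the right sides which are orthogonal to the left kernel -/
theorem solve {V : Type} [Fintype V] [Nonempty V] (N : V → V → ZMod 2) (hG : Gv N)
    (u : V → ZMod 2) (hu : ∀ p, Col N u p = 0) (hu1 : ∃ q, u q = 1) (α : V → ZMod 2)
    (hα : ∑ q, u q * α q = 0) : ∃ y : V → ZMod 2, ∀ q, ∑ p, (y p + y q) * N q p = α q := by
  set φ : (V → ZMod 2) →ₗ[ZMod 2] ZMod 2 := ∑ q, u q • LinearMap.proj q with hφ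
  have hφa : ∀ z, φ z = ∑ q, u q * z q := by
    intro z
    rw [hφ, LinearMap.sum_apply]
    exact sum_congr rfl fun q _ => by simp
  have h1 : LinearMap.range (Lm N).mulVecLin ≤ LinearMap.ker φ := by
    rintro z ⟨x, rfl⟩
    rw [LinearMap.mem_ker, hφa, Matrix.mulVecLin_apply]
    have h2 : ∑ q, u q * (Lm N).mulVec x q = dotProduct ((Lm N).transpose.mulVec u) x := by
      rw [Matrix.mulVec_transpose, ← Matrix.dotProduct_mulVec]
      rfl
    rw [h2]
    have h3 : (Lm N).transpose.mulVec u = 0 := by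
      funext p
      rw [col_mul]
      exact hu p
    rw [h3, zero_dotProduct]
  have h2 := (Gv_iff_rank N).1 hG
  have h3 : (Lm N).rank = Module.finrank (ZMod 2) (LinearMap.range (Lm N).mulVecLin) := rfl
  have h4 := LinearMap.finrank_range_add_finrank_ker φ
  rw [Module.finrank_fintype_fun_eq_card] at h4
  have h5 : LinearMap.range φ = ⊤ := by
    obtain ⟨q, hq⟩ := hu1
    rw [LinearMap.range_eq_top]
    intro c
    refine ⟨Pi.single q c, ?_⟩
    rw [hφa, sum_eq_single q (fun p _ hp => by rw [Pi.single_eq_of_ne hp, mul_zero])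
      (fun h => absurd (mem_univ q) h), Pi.single_eq_same, hq, one_mul]
  rw [h5, finrank_top, Module.finrank_self] at h4
  have h6 : LinearMap.range (Lm N).mulVecLin = LinearMap.ker φ := by
    refine Submodule.eq_of_le_of_finrank_eq h1 ?_
    omega
  have h7 : α ∈ LinearMap.ker φ := by
    rw [LinearMap.mem_ker, hφa]
    exact hα
  rw [← h6] at h7
  obtain ⟨y, hy⟩ := h7
  refine ⟨y, fun q => ?_⟩
  have h8 := congrFun hy q
  rw [Matrix.mulVecLin_apply, Lm_mulVec] at h8
  exact h8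

/-- **The factorization exists.** -/
theorem exists_fac {m n : ℕ} {t : Bool} {r s : ZMod 2} (hm : Squarefree m) (hp : Par m n t r s)
    (h3 : m % 3 = 1) (h5 : m % 5 = 1 ∨ m % 5 = 4) (hn1 : n ≠ 1) (hG : Gd t r s n.primeFactors) :
    ∃ a b : ℤ, a * b = -(m : ℤ) ∧ a % 4 = 1 ∧ (t = true → a % 8 = 5) ∧
      (∀ q : ℕ, q.Prime → q ≠ 2 → (q : ℤ) ∣ b → IsSquare ((-3 * a : ℤ) : ZMod q)) ∧
      ∀ q : ℕ, q.Prime → (q : ℤ) ∣ a → IsSquare ((-3 * b : ℤ) : ZMod q) := by
  obtain ⟨hn, ho, hS, hM, hok, -⟩ := CG.par_facts hm hp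
  have hz := hz_of hm hp h3 h5
  have hU := uu_of hn hp.2.1
  set S := n.primeFactors with hSdef
  have hS3 : ∀ q ∈ S, q ≠ 3 := by
    rintro q hq rfl
    have := Nat.dvd_of_mem_primeFactors hq
    have := hz.n3
    omega
  obtain ⟨q₀, hq₀⟩ : S.Nonempty := by
    rw [hSdef, Nat.nonempty_primeFactors]
    have := hn.ne_zero
    omega
  have hq₀V : q₀ ∈ Vt t S := mem_Vt.2 (Or.inr hq₀)
  haveI : Nonempty (Vt t S) := ⟨⟨q₀, hq₀V⟩⟩
  obtain ⟨y, hy⟩ := solve (fun q p : Vt t S => sy r s (q : ℕ) (p : ℕ)) ((Gd_iffv t r s S).1 hG)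
    (fun q => if (q : ℕ) = 2 then r else 1) (fun p => by
      have h := gen_left (t := t) hS hok hU p p.2
      unfold Lk at h
      rw [← sum_coe_sort (Vt t S)] at h
      unfold Col
      refine Eq.trans (sum_congr rfl fun q _ => ?_) h
      by_cases hqp : q = p
      · rw [if_pos hqp, if_pos (congrArg Subtype.val hqp)]
      · rw [if_neg hqp, if_neg fun h => hqp (Subtype.ext h)])
    ⟨⟨q₀, hq₀V⟩, if_neg (hS q₀ hq₀).2⟩ (fun q => al q) (by
      rw [sum_coe_sort (Vt t S) (fun q => (if q = 2 then r else 1) * al q), sum_Vt hS, if_pos rfl,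
        al2v, mul_one]
      have h1 : ∑ q ∈ S, (if q = 2 then r else 1) * al q = r := by
        rw [← hz.al]
        exact sum_congr rfl fun q hq => by rw [if_neg (hS q hq).2, one_mul]
      rw [h1]
      by_cases h : t = true
      · rw [if_pos h, z2_add_self]
      · rw [if_neg h, (hok (by simpa using h)).1, add_zero])
  -- extension and normalization
  set x : ℕ → ZMod 2 := fun p => if hp : p ∈ Vt t S then y ⟨p, hp⟩ else 0 with hx
  have hxr : ∀ q ∈ Vt t S, ∑ p ∈ Vt t S, (x p + x q) * sy r s q p = al q := by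
    intro q hq
    rw [← hy ⟨q, hq⟩, ← sum_coe_sort (Vt t S)]
    refine sum_congr rfl fun p _ => ?_
    rw [hx]
    simp only [dif_pos p.2, dif_pos hq]
  set c : ZMod 2 := if t = true then x 2 else 0 with hc
  set T := S.filter fun p => x p + c = 1 with hT
  have hTS : T ⊆ S := filter_subset _ _
  have h2T : (2 : ℕ) ∉ T := fun h => (hS 2 (hTS h)).2 rfl
  have hind : ∀ p ∈ Vt t S, (if p ∈ T then (1 : ZMod 2) else 0) = x p + c := by
    intro p hp
    rcases mem_Vt.1 hp with ⟨ht, rfl⟩ | hp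
    · rw [if_neg h2T, hc, if_pos ht, z2_add_self]
    · by_cases h : x p + c = 1
      · rw [if_pos (mem_filter.2 ⟨hp, h⟩), h]
      · have h5 : p ∉ T := fun h' => h (mem_filter.1 h').2
        rw [if_neg h5, (z2 _).resolve_right h]
  have hrow : ∀ q ∈ Vt t S, ∑ p ∈ Vt t S,
      ((if p ∈ T then (1 : ZMod 2) else 0) + (if q ∈ T then 1 else 0)) * sy r s q p = al q := by
    intro q hq
    refine Eq.trans (sum_congr rfl fun p hp => ?_) (hxr q hq)
    rw [hind p hp, hind q hq]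
    congr 1
    linear_combination c * two0
  have hab : (∏ p ∈ T, st p) * (Dl r s * ∏ p ∈ S \ T, st p) = -(m : ℤ) := by
    rw [← hM, ← prod_sdiff hTS]
    ring
  have h8 := prod_star_mod T fun p hp => hS p (hTS hp)
  have hsqn : ∀ {q : ℕ}, Po q → q ≠ 3 → ∀ {z : ℤ}, ¬ (q : ℤ) ∣ z → ns q z = al q →
      IsSquare ((-3 * z : ℤ) : ZMod q) := by
    intro q hq h3 z hz h
    rw [← ns_zero, ns_mul hq.1 (not_dvd_three hq h3) hz, al_ns hq h3, h, z2_add_self]
  refine ⟨_, _, hab, ?_, ?_, ?_, ?_⟩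
  · split_ifs at h8 <;> omega
  · intro ht
    have h9 := hrow 2 (mem_Vt.2 (Or.inl ⟨ht, rfl⟩))
    rw [row_two hS hTS, al2v] at h9
    rw [h9, if_neg (by decide)] at h8
    exact h8
  · intro q hq hq2 hqb
    have hq' : Po q := ⟨hq, hq2⟩
    have hqS : q ∈ S \ T := by
      rcases (Nat.prime_iff_prime_int.1 hq).dvd_or_dvd hqb with h | h
      · exact absurd h (not_dvd_Dl hq')
      · by_contra hcon
        exact not_dvd_prod_star hq' _ (fun p hp => hS p (mem_sdiff.1 hp).1) hcon h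
    have hqS' := (mem_sdiff.1 hqS).1
    have h9 := hrow q (mem_Vt.2 (Or.inr hqS'))
    rw [row_eq hS hok hTS hqS', if_neg (mem_sdiff.1 hqS).2] at h9
    exact hsqn hq' (hS3 q hqS') (not_dvd_prod_star hq' _ (fun p hp => hS p (hTS hp))
      (mem_sdiff.1 hqS).2) h9
  · intro q hq hqa
    have hqT : q ∈ T := by
      by_contra hcon
      by_cases hq2 : q = 2
      · subst hq2
        have : (∏ p ∈ T, st p) % 2 = 1 := by split_ifs at h8 <;> omega
        omega
      · exact not_dvd_prod_star ⟨hq, hq2⟩ _ (fun p hp => hS p (hTS hp)) hcon hqa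
    have hqS' := hTS hqT
    have hq' := hS q hqS'
    have h9 := hrow q (mem_Vt.2 (Or.inr hqS'))
    rw [row_eq hS hok hTS hqS', if_pos hqT] at h9
    refine hsqn hq' (hS3 q hqS') (fun h => ?_) h9
    rcases (Nat.prime_iff_prime_int.1 hq'.1).dvd_or_dvd h with h | h
    · exact not_dvd_Dl hq' h
    · exact not_dvd_prod_star hq' _ (fun p hp => hS p (mem_sdiff.1 hp).1)
        (fun h => (mem_sdiff.1 h).2 hqT) h

/-- the vector of a factorization -/
theorem vec_of_fac {m n : ℕ} {t : Bool} {r s : ZMod 2} (hm : Squarefree m) (hp : Par m n t r s)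
    (h3 : m % 3 = 1) (h5 : m % 5 = 1 ∨ m % 5 = 4) {a b : ℤ}
    (hab : a * b = -(m : ℤ)) (ha : a % 4 = 1) (ha8 : t = true → a % 8 = 5)
    (h1 : ∀ q : ℕ, q.Prime → q ≠ 2 → (q : ℤ) ∣ b → IsSquare ((-3 * a : ℤ) : ZMod q))
    (h2 : ∀ q : ℕ, q.Prime → (q : ℤ) ∣ a → IsSquare ((-3 * b : ℤ) : ZMod q)) :
    ∃ T ⊆ n.primeFactors, a = ∏ p ∈ T, st p ∧ b = Dl r s * ∏ p ∈ n.primeFactors \ T, st p ∧
      ∀ q ∈ Vt t n.primeFactors, ∑ p ∈ Vt t n.primeFactors,
        ((if p ∈ T then (1 : ZMod 2) else 0) + (if q ∈ T then 1 else 0)) * sy r s q p = al q := by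
  obtain ⟨hn, ho, hS, hM, hok, -⟩ := CG.par_facts hm hp
  have hz := hz_of hm hp h3 h5
  set S := n.primeFactors with hSdef
  have hS3 : ∀ q ∈ S, q ≠ 3 := by
    rintro q hq rfl
    have := Nat.dvd_of_mem_primeFactors hq
    have := hz.n3
    omega
  have hsqm : Squarefree (m : ℤ) := Int.squarefree_natCast.2 hm
  have hsa : Squarefree a.natAbs := by
    rw [Int.squarefree_natAbs]
    refine hsqm.squarefree_of_dvd ⟨-b, ?_⟩
    linarith
  have e1 := eq_prod_star ha hsa
  set T := a.natAbs.primeFactors with hT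
  have hTS : T ⊆ S := by
    intro p hp'
    have hpp := Nat.prime_of_mem_primeFactors hp'
    have hpa : (p : ℤ) ∣ a := Int.natCast_dvd.2 (Nat.dvd_of_mem_primeFactors hp')
    have hp2 : Po p := by
      refine ⟨hpp, ?_⟩
      rintro rfl
      omega
    by_contra hpS
    have h1 : (p : ℤ) ∣ Dl r s * ∏ p ∈ S, st p := by
      rw [hM, ← hab]
      exact hpa.mul_right _
    rcases (Nat.prime_iff_prime_int.1 hpp).dvd_or_dvd h1 with h2 | h2
    · exact not_dvd_Dl hp2 h2
    · exact not_dvd_prod_star hp2 S hS hpS h2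
  have ha0 : a ≠ 0 := by rintro rfl; norm_num at ha
  have e2 : b = Dl r s * ∏ p ∈ S \ T, st p := by
    have : a * b = a * (Dl r s * ∏ p ∈ S \ T, st p) := by
      rw [hab, ← hM, ← prod_sdiff hTS, ← e1]
      ring
    exact mul_left_cancel₀ ha0 this
  refine ⟨T, hTS, e1, e2, fun q hq => ?_⟩
  rcases mem_Vt.1 hq with ⟨ht, rfl⟩ | hq
  · rw [row_two hS hTS, al2v]
    have h4 := prod_star_mod T fun p hp => hS p (hTS hp)
    rw [← e1, ha8 ht] at h4
    refine (z2 _).resolve_left fun h => ?_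
    rw [if_pos h] at h4
    norm_num at h4
  · rw [row_eq hS hok hTS hq]
    have hq' := hS q hq
    split_ifs with hqT
    · rw [← e2]
      refine ns_of_sq hq' (hS3 q hq) ?_ (h2 q hq'.1 ?_)
      · rw [e2]
        intro h
        rcases (Nat.prime_iff_prime_int.1 hq'.1).dvd_or_dvd h with h | h
        · exact not_dvd_Dl hq' h
        · exact not_dvd_prod_star hq' _ (fun p hp => hS p (mem_sdiff.1 hp).1)
            (fun h => (mem_sdiff.1 h).2 hqT) h
      · rw [e1]
        exact star_dvd_prod hqT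
    · rw [← e1]
      refine ns_of_sq hq' (hS3 q hq) ?_ (h1 q hq'.1 hq'.2 ?_)
      · rw [e1]
        exact not_dvd_prod_star hq' _ (fun p hp => hS p (hTS hp)) hqT
      · rw [e2]
        exact (star_dvd_prod (mem_sdiff.2 ⟨hq, hqT⟩)).mul_left _

/-- **The factorization is unique up to the order.** -/
theorem uniq_fac {m n : ℕ} {t : Bool} {r s : ZMod 2} (hm : Squarefree m) (hp : Par m n t r s)
    (h3 : m % 3 = 1) (h5 : m % 5 = 1 ∨ m % 5 = 4) (hG : Gd t r s n.primeFactors) {a b a' b' : ℤ}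
    (hab : a * b = -(m : ℤ)) (ha : a % 4 = 1) (ha8 : t = true → a % 8 = 5)
    (h1 : ∀ q : ℕ, q.Prime → q ≠ 2 → (q : ℤ) ∣ b → IsSquare ((-3 * a : ℤ) : ZMod q))
    (h2 : ∀ q : ℕ, q.Prime → (q : ℤ) ∣ a → IsSquare ((-3 * b : ℤ) : ZMod q))
    (hab' : a' * b' = -(m : ℤ)) (ha' : a' % 4 = 1) (ha8' : t = true → a' % 8 = 5)
    (h1' : ∀ q : ℕ, q.Prime → q ≠ 2 → (q : ℤ) ∣ b' → IsSquare ((-3 * a' : ℤ) : ZMod q))
    (h2' : ∀ q : ℕ, q.Prime → (q : ℤ) ∣ a' → IsSquare ((-3 * b' : ℤ) : ZMod q)) :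
    a' = a ∨ (t = false ∧ a' = b) := by
  obtain ⟨hn, ho, hS, hM, hok, -⟩ := CG.par_facts hm hp
  obtain ⟨T, hT, e1, e2, hr⟩ := vec_of_fac hm hp h3 h5 hab ha ha8 h1 h2
  obtain ⟨T', hT', e1', e2', hr'⟩ := vec_of_fac hm hp h3 h5 hab' ha' ha8' h1' h2'
  set S := n.primeFactors with hSdef
  have h2T : (2 : ℕ) ∉ T := fun h => (hS 2 (hT h)).2 rfl
  have h2T' : (2 : ℕ) ∉ T' := fun h => (hS 2 (hT' h)).2 rfl
  have hc := hG (fun p => (if p ∈ T then (1 : ZMod 2) else 0) + if p ∈ T' then 1 else 0) (by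
    intro q hq
    have h6 := hr q hq
    have h7 := hr' q hq
    have h8 : ∑ p ∈ Vt t S, (((if p ∈ T then (1 : ZMod 2) else 0) + if p ∈ T' then 1 else 0) +
        ((if q ∈ T then (1 : ZMod 2) else 0) + if q ∈ T' then 1 else 0)) * sy r s q p =
        ∑ p ∈ Vt t S, ((if p ∈ T then (1 : ZMod 2) else 0) + (if q ∈ T then 1 else 0)) *
          sy r s q p +
        ∑ p ∈ Vt t S, ((if p ∈ T' then (1 : ZMod 2) else 0) + (if q ∈ T' then 1 else 0)) *
          sy r s q p := by
      rw [← sum_add_distrib]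
      exact sum_congr rfl fun p _ => by ring
    rw [h8, h6, h7, z2_add_self])
  by_cases hTT : T' = T
  · left
    rw [e1', e1, hTT]
  · right
    -- some element of one but not the other
    obtain ⟨p₀, hp₀S, hp₀⟩ : ∃ p₀ ∈ S, ((if p₀ ∈ T then (1 : ZMod 2) else 0) +
        if p₀ ∈ T' then 1 else 0) = 1 := by
      by_contra hcon
      push Not at hcon
      refine hTT (Finset.ext fun p => ?_)
      by_cases hpS : p ∈ S
      · have h9 := hcon p hpS
        by_cases hpT : p ∈ T <;> by_cases hpT' : p ∈ T'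
        · exact ⟨fun _ => hpT, fun _ => hpT'⟩
        · rw [if_pos hpT, if_neg hpT'] at h9
          exact absurd (add_zero _) h9
        · rw [if_neg hpT, if_pos hpT'] at h9
          exact absurd (zero_add _) h9
        · exact ⟨fun h => absurd h hpT', fun h => absurd h hpT⟩
      · exact ⟨fun h => absurd (hT' h) hpS, fun h => absurd (hT h) hpS⟩
    have hp₀V : p₀ ∈ Vt t S := mem_Vt.2 (Or.inr hp₀S)
    have ht : t = false := by
      by_contra ht
      have h9 := hc p₀ hp₀V 2 (mem_Vt.2 (Or.inl ⟨by simpa using ht, rfl⟩))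
      rw [hp₀, if_neg h2T, if_neg h2T', add_zero] at h9
      exact one_ne_zero h9
    obtain ⟨hr0, hs0⟩ := hok ht
    refine ⟨ht, ?_⟩
    have hD : Dl r s = 1 := by
      rw [hr0, hs0]
      unfold Dl
      norm_num
    rw [e1', e2, hD, one_mul]
    refine prod_congr (Finset.ext fun p => ?_) fun _ _ => rfl
    rw [mem_sdiff]
    constructor
    · intro h
      have hpS := hT' h
      have h9 := hc p (mem_Vt.2 (Or.inr hpS)) p₀ hp₀V
      rw [hp₀, if_pos h] at h9
      refine ⟨hpS, fun hpT => ?_⟩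
      rw [if_pos hpT] at h9
      exact absurd h9 (by decide)
    · rintro ⟨hpS, hpT⟩
      have h9 := hc p (mem_Vt.2 (Or.inr hpS)) p₀ hp₀V
      rw [hp₀, if_neg hpT] at h9
      by_contra hpT'
      rw [if_neg hpT'] at h9
      exact absurd h9 (by decide)

end Pool.Agent.T2h79.XM.IS
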