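import Pool.Agent.T2h79.XM.IS2

/-!
# The second class of fields: statements in terms of the discriminant
-/

set_option autoImplicit false
set_option linter.unusedVariables false
set_option linter.unusedSectionVars false

namespace Pool.Agent.T2h79.XM.IS

open Finset NumberField
open Pool.Agent.T2h79.XM
open Pool.Agent.T2h79.XM.Z

open scoped Classical

/-- The factorizations `D = a b`, `a ≡ 1 mod 4`, for which `-3 a` is a square modulo the odd primes
`q ∣ b`, `-3 b` is a square modulo the primes `q ∣ a`, and `a ≡ 5 mod 8` if `D` is even. -/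
def Fac (D a b : ℤ) : Prop :=
  a * b = D ∧ a % 4 = 1 ∧ (D % 2 = 0 → a % 8 = 5) ∧
    (∀ q : ℕ, q.Prime → q ≠ 2 → (q : ℤ) ∣ b → IsSquare ((-3 * a : ℤ) : ZMod q)) ∧
    ∀ q : ℕ, q.Prime → (q : ℤ) ∣ a → IsSquare ((-3 * b : ℤ) : ZMod q)

/-- the factor at two -/
def fo (m : ℕ) : ℤ := if m % 4 = 3 then 1 else 4

/-- the same for `-m` -/
def Fm (m : ℕ) (a b : ℤ) : Prop :=
  a * b = -(m : ℤ) ∧ a % 4 = 1 ∧ (m % 4 ≠ 3 → a % 8 = 5) ∧
    (∀ q : ℕ, q.Prime → q ≠ 2 → (q : ℤ) ∣ b → IsSquare ((-3 * a : ℤ) : ZMod q)) ∧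
    ∀ q : ℕ, q.Prime → (q : ℤ) ∣ a → IsSquare ((-3 * b : ℤ) : ZMod q)

lemma fo_cases (m : ℕ) : (m % 4 = 3 ∧ fo m = 1) ∨ (m % 4 ≠ 3 ∧ fo m = 4) := by
  unfold fo
  by_cases h : m % 4 = 3
  · exact Or.inl ⟨h, if_pos h⟩
  · exact Or.inr ⟨h, if_neg h⟩

lemma of_m {m : ℕ} {a b : ℤ} (h : Fm m a b) : Fac (-(fo m * m)) a (fo m * b) := by
  obtain ⟨h1, h2, h3, h4, h5⟩ := h
  rcases fo_cases m with ⟨h6, h7⟩ | ⟨h6, h7⟩
  · rw [h7]
    refine ⟨?_, h2, fun h => ?_, ?_, ?_⟩
    · rw [one_mul, one_mul, h1]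
    · omega
    · rwa [one_mul]
    · intro q hq hqa
      rw [one_mul]
      exact h5 q hq hqa
  · rw [h7]
    refine ⟨?_, h2, fun _ => h3 h6, fun q hq hq2 hqb => h4 q hq hq2 ?_, fun q hq hqa => ?_⟩
    · linear_combination 4 * h1
    · rcases (Nat.prime_iff_prime_int.1 hq).dvd_or_dvd hqb with h | h
      · exfalso
        have h8 : q ∣ 4 := by exact_mod_cast h
        have h9 : q ∣ 2 ^ 2 := by simpa using h8
        exact hq2 ((Nat.prime_dvd_prime_iff_eq hq Nat.prime_two).1 (hq.dvd_of_dvd_pow h9))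
      · exact h
    · obtain ⟨w, hw⟩ := h5 q hq hqa
      refine ⟨2 * w, ?_⟩
      push_cast at hw ⊢
      linear_combination 4 * hw

lemma to_m {m : ℕ} {a b : ℤ} (h : Fac (-(fo m * m)) a b) : ∃ b', b = fo m * b' ∧ Fm m a b' := by
  obtain ⟨h1, h2, h3, h4, h5⟩ := h
  rcases fo_cases m with ⟨h6, h7⟩ | ⟨h6, h7⟩
  · rw [h7] at h1 h3 ⊢
    exact ⟨b, (one_mul b).symm, by rw [h1, one_mul], h2, fun h => absurd h6 h, h4, h5⟩
  · rw [h7] at h1 h3 ⊢
    have hod : a % 2 = 1 := by omega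
    have h4b : (4 : ℤ) ∣ b := by
      have h6 : (4 : ℤ) ∣ a * b := by
        rw [h1]
        exact ⟨-m, by ring⟩
      have h7 : IsCoprime (4 : ℤ) a := by
        rw [Int.isCoprime_iff_gcd_eq_one]
        have h8 : Int.gcd 4 a = Nat.gcd 4 a.natAbs := rfl
        rw [h8]
        have h9 : a.natAbs % 2 = 1 := by omega
        have h10 : Nat.Coprime 2 a.natAbs := (Nat.coprime_two_left).2 (Nat.odd_iff.2 h9)
        have : Nat.Coprime (2 ^ 2) a.natAbs := Nat.Coprime.pow_left 2 h10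
        simpa using this
      exact h7.dvd_of_dvd_mul_left h6
    obtain ⟨b', rfl⟩ := h4b
    refine ⟨b', rfl, ?_, h2, fun _ => h3 (by omega), fun q hq hq2 hqb => h4 q hq hq2
      (hqb.mul_left _), fun q hq hqa => ?_⟩
    · have : 4 * (a * b') = 4 * (-(m : ℤ)) := by linear_combination h1
      exact mul_left_cancel₀ (by norm_num) this
    · have h9 := h5 q hq hqa
      have hq2 : q ≠ 2 := by
        rintro rfl
        omega
      have : Fact q.Prime := ⟨hq⟩
      have h40 : ((2 : ℤ) : ZMod q) ≠ 0 := by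
        intro h
        rw [ZMod.intCast_zmod_eq_zero_iff_dvd] at h
        exact hq2 ((Nat.prime_dvd_prime_iff_eq hq Nat.prime_two).1 (by exact_mod_cast h))
      obtain ⟨w, hw⟩ := h9
      refine ⟨w / ((2 : ℤ) : ZMod q), ?_⟩
      rw [div_mul_div_comm, ← hw, eq_div_iff (mul_ne_zero h40 h40)]
      push_cast
      ring

lemma par_t {m n : ℕ} {t : Bool} {r s : ZMod 2} (hp : Par m n t r s) :
    (t = true → m % 4 ≠ 3) ∧ (t = false → m % 4 = 3) := by
  obtain ⟨p1, p2, p3, p4⟩ := hp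
  constructor
  · intro ht h4
    rcases p4 ht with h | h
    · rcases Pool.Agent.N916.GB.z2 r with hr | hr
      · exact h hr
      · rw [if_pos hr] at p1
        omega
    · rw [if_neg h] at p2
      split_ifs at p1 <;> omega
  · intro ht
    obtain ⟨hr, hs⟩ := p3 ht
    rw [hr, if_neg (by decide)] at p1
    rw [hs, if_pos rfl] at p2
    omega

/-- the three parts for the discriminant -/
theorem main (K : Type) [Field K] [NumberField K] (h2 : Module.finrank ℚ K = 2)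
    (h0 : NumberField.discr K < 0) (h3 : NumberField.discr K % 3 = 2)
    (h5 : NumberField.discr K % 5 = 1 ∨ NumberField.discr K % 5 = 4)
    (hcl : ∀ x : ClassGroup (𝓞 K), x ^ 4 = 1 → x ^ 2 = 1) :
    (NumberField.discr K ≠ -4 → ∃ a b : ℤ, Fac (NumberField.discr K) a b) ∧
    (∀ a b a' b' : ℤ, Fac (NumberField.discr K) a b → Fac (NumberField.discr K) a' b' →
      (a' = a ∧ b' = b) ∨ (a' = b ∧ b' = a)) ∧
    ∀ a b : ℤ, Fac (NumberField.discr K) a b → (a % 5 = 1 ∨ a % 5 = 4) →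
      Finite (X015 K).toAffine.Point := by
  refine ⟨fun hne => ?_, fun a b a' b' hF hF' => ?_, fun a b hF ha5 => ?_⟩
  · obtain ⟨m, hm, hs⟩ := Pool.Agent.Y797.FK.t_DISC.2.1 K h2 h0
    have hd := Pool.Agent.Y797.FK.t_DISC.1 K h2 m hm hs
    have hd' : NumberField.discr K = -(fo m * m) := by
      rw [hd]
      unfold fo
      split_ifs <;> ring
    have e3 : m % 3 = 1 := by split_ifs at hd <;> rw [hd] at h3 <;> omega
    have e5 : m % 5 = 1 ∨ m % 5 = 4 := by split_ifs at hd <;> rw [hd] at h5 <;> omega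
    obtain ⟨n, t, r, s, hp⟩ := par_exists hm
    have hn1 : n ≠ 1 := by
      rintro rfl
      have hp1 := hp.1
      by_cases hr : r = 1
      · rw [if_pos hr] at hp1
        omega
      · rw [if_neg hr] at hp1
        subst hp1
        rw [if_neg (by norm_num)] at hd
        exact hne (by rw [hd]; norm_num)
    obtain ⟨a, b, k1, k2, k3, k4, k5⟩ := exists_fac hm hp e3 e5 hn1 (CG.gd_of_class h2 hm hp hs hcl)
    refine ⟨a, fo m * b, ?_⟩
    rw [hd']
    refine of_m ⟨k1, k2, fun h => k3 ?_, k4, k5⟩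
    by_contra ht
    exact h ((par_t hp).2 (by simpa using ht))
  · obtain ⟨m, hm, hs⟩ := Pool.Agent.Y797.FK.t_DISC.2.1 K h2 h0
    have hd := Pool.Agent.Y797.FK.t_DISC.1 K h2 m hm hs
    have hd' : NumberField.discr K = -(fo m * m) := by
      rw [hd]
      unfold fo
      split_ifs <;> ring
    have e3 : m % 3 = 1 := by split_ifs at hd <;> rw [hd] at h3 <;> omega
    have e5 : m % 5 = 1 ∨ m % 5 = 4 := by split_ifs at hd <;> rw [hd] at h5 <;> omega
    obtain ⟨n, t, r, s, hp⟩ := par_exists hm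
    rw [hd'] at hF hF'
    obtain ⟨c, rfl, j1, j2, j3, j4, j5⟩ := to_m hF
    obtain ⟨c', rfl, k1, k2, k3, k4, k5⟩ := to_m hF'
    have ha0 : a ≠ 0 := by rintro rfl; norm_num at j2
    have ha0' : a' ≠ 0 := by rintro rfl; norm_num at k2
    rcases uniq_fac hm hp e3 e5 (CG.gd_of_class h2 hm hp hs hcl) j1 j2
      (fun ht => j3 ((par_t hp).1 ht)) j4 j5 k1 k2 (fun ht => k3 ((par_t hp).1 ht)) k4 k5 with h | h
    · left
      subst h
      refine ⟨rfl, ?_⟩
      have : a' * c' = a' * c := k1.trans j1.symm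
      rw [mul_left_cancel₀ ha0 this]
    · right
      obtain ⟨ht, h⟩ := h
      have h4 := (par_t hp).2 ht
      have hf : fo m = 1 := if_pos h4
      rw [hf, one_mul, one_mul]
      refine ⟨h, ?_⟩
      subst h
      have : a' * c' = a' * a := by rw [k1, mul_comm a' a, j1]
      exact mul_left_cancel₀ ha0' this
  · obtain ⟨k1, k2, k3, k4, k5⟩ := hF
    exact disc_criterion K h2 h0 h3 h5 hcl a b k1 k2 k3 k4 k5 ha5

end Pool.Agent.T2h79.XM.IS
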