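import Pool.Agent.T2h79.XM.IS3

/-!
# The second class of fields: the criterion without hypothesis on the class group
-/

set_option autoImplicit false
set_option linter.unusedVariables false
set_option linter.unusedSectionVars false

namespace Pool.Agent.T2h79.XM.IS

open Finset NumberField
open Pool.Agent.T2h79.XM
open Pool.Agent.T2h79.XM.Z
open Pool.Agent.T2h79.XM.CG
open Pool.Agent.Y703.CQ (nr)
open Pool.Agent.N973.ND (uu)
open Pool.Agent.N916.GB (Po sy Vt Gd z2 z2_add_self z2_sq nr_recip z2_eq_of_add)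
open Pool.Agent.N848.Q hiding star

open Pool.Agent.N848.Q renaming star → st

open scoped Classical

/-- The factorizations `D = a b` of the second kind: `a ≡ 1 mod 4`, `a` is a square modulo the odd
primes `q ∣ b`, `b` is a square modulo the primes `q ∣ a`, and `a ≡ 1 mod 8` if `D` is even. -/
def Sec (D a b : ℤ) : Prop :=
  a * b = D ∧ a % 4 = 1 ∧ (D % 2 = 0 → a % 8 = 1) ∧
    (∀ q : ℕ, q.Prime → q ≠ 2 → (q : ℤ) ∣ b → IsSquare ((a : ℤ) : ZMod q)) ∧
    ∀ q : ℕ, q.Prime → (q : ℤ) ∣ a → IsSquare ((b : ℤ) : ZMod q)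

/-- the system for `m` -/
theorem gz_of_second {m n : ℕ} {t : Bool} {r s : ZMod 2} (hm : Squarefree m) (hp : Par m n t r s)
    (h3 : m % 3 = 1) (h5 : m % 5 = 1 ∨ m % 5 = 4)
    (hA : ∀ a b : ℤ, a * b = -(m : ℤ) → a % 4 = 1 → (t = true → a % 8 = 1) →
      (∀ q : ℕ, q.Prime → q ≠ 2 → (q : ℤ) ∣ b → IsSquare ((a : ℤ) : ZMod q)) →
      (∀ q : ℕ, q.Prime → (q : ℤ) ∣ a → IsSquare ((b : ℤ) : ZMod q)) →
      (a % 5 = 1 ∨ a % 5 = 4) → a = 1 ∨ (t = false ∧ b = 1))
    (hB : ∀ a b : ℤ, a * b = -(m : ℤ) → a % 4 = 1 → (t = true → a % 8 = 5) →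
      (∀ q : ℕ, q.Prime → q ≠ 2 → (q : ℤ) ∣ b → IsSquare ((-3 * a : ℤ) : ZMod q)) →
      (∀ q : ℕ, q.Prime → (q : ℤ) ∣ a → IsSquare ((-3 * b : ℤ) : ZMod q)) →
      (a % 5 = 1 ∨ a % 5 = 4)) : Gz t r s n.primeFactors := by
  obtain ⟨hn, ho, hS, hM, hok, -⟩ := CG.par_facts hm hp
  have hz := hz_of hm hp h3 h5
  set S := n.primeFactors with hSdef
  have hBe : ∑ p ∈ Vt t S, be r p = 0 := sum_be hS hok hz.be
  have hS3 : ∀ q ∈ S, q ≠ 3 := by
    rintro q hq rfl
    have := Nat.dvd_of_mem_primeFactors hq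
    have := hz.n3
    omega
  intro x hx
  set c : ZMod 2 := if t = true then x 2 else 0 with hc
  set T := S.filter fun p => x p + c = 1 with hT
  have hTS : T ⊆ S := filter_subset _ _
  have h2T : (2 : ℕ) ∉ T := fun h => (hS 2 (hTS h)).2 rfl
  have hind : ∀ p ∈ Vt t S, (if p ∈ T then (1 : ZMod 2) else 0) = x p + c := by
    intro p hp
    rcases mem_Vt.1 hp with ⟨ht, rfl⟩ | hp
    · rw [if_neg h2T, hc, if_pos ht, z2_add_self]
    · by_cases h : x p + c = 1
      · rw [if_pos (mem_filter.2 ⟨hp, h⟩), h]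
      · have h5 : p ∉ T := fun h' => h (mem_filter.1 h').2
        rw [if_neg h5, (z2 _).resolve_right h]
  have hbx : ∑ p ∈ Vt t S, x p * be r p = ∑ p ∈ T, be r p := by
    have h1 : ∑ p ∈ Vt t S, (if p ∈ T then (1 : ZMod 2) else 0) * be r p =
        ∑ p ∈ Vt t S, x p * be r p + c * ∑ p ∈ Vt t S, be r p := by
      rw [mul_sum, ← sum_add_distrib]
      refine sum_congr rfl fun p hp => ?_
      rw [hind p hp]
      ring
    rw [hBe, mul_zero, add_zero] at h1
    rw [← h1, sum_Vt hS, if_neg h2T, zero_mul]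
    have e : (if t = true then (0 : ZMod 2) else 0) = 0 := by split_ifs <;> rfl
    rw [e, zero_add, ← sum_sdiff hTS, sum_eq_zero (s := S \ T) fun p hp => by
      rw [if_neg (mem_sdiff.1 hp).2, zero_mul], zero_add]
    exact sum_congr rfl fun p hp => by rw [if_pos hp, one_mul]
  have hrow : ∀ q ∈ Vt t S, ∑ p ∈ Vt t S,
      ((if p ∈ T then (1 : ZMod 2) else 0) + (if q ∈ T then 1 else 0)) * sy r s q p =
      al q * ∑ p ∈ T, be r p := by
    intro q hq
    have h1 := hx q hq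
    rw [row_z hBe, hbx] at h1
    rw [← z2_eq_of_add h1]
    refine sum_congr rfl fun p hp => ?_
    rw [hind p hp, hind q hq]
    congr 1
    linear_combination c * two0
  have hab : (∏ p ∈ T, st p) * (Dl r s * ∏ p ∈ S \ T, st p) = -(m : ℤ) := by
    rw [← hM, ← prod_sdiff hTS]
    ring
  have h8 := prod_star_mod T fun p hp => hS p (hTS hp)
  have ha4 : (∏ p ∈ T, st p) % 4 = 1 := by split_ifs at h8 <;> omega
  have hqb : ∀ q : ℕ, q.Prime → q ≠ 2 → (q : ℤ) ∣ Dl r s * ∏ p ∈ S \ T, st p → q ∈ S \ T := by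
    intro q hq hq2 hqb
    rcases (Nat.prime_iff_prime_int.1 hq).dvd_or_dvd hqb with h | h
    · exact absurd h (not_dvd_Dl ⟨hq, hq2⟩)
    · by_contra hcon
      exact not_dvd_prod_star ⟨hq, hq2⟩ _ (fun p hp => hS p (mem_sdiff.1 hp).1) hcon h
  have hqa : ∀ q : ℕ, q.Prime → (q : ℤ) ∣ ∏ p ∈ T, st p → q ∈ T := by
    intro q hq hqa
    by_contra hcon
    by_cases hq2 : q = 2
    · subst hq2
      omega
    · exact not_dvd_prod_star ⟨hq, hq2⟩ _ (fun p hp => hS p (hTS hp)) hcon hqa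
  have hna : ∀ q ∈ S \ T, ¬ (q : ℤ) ∣ ∏ p ∈ T, st p := fun q hq =>
    not_dvd_prod_star (hS q (mem_sdiff.1 hq).1) _ (fun p hp => hS p (hTS hp)) (mem_sdiff.1 hq).2
  have hnb : ∀ q ∈ T, ¬ (q : ℤ) ∣ Dl r s * ∏ p ∈ S \ T, st p := by
    intro q hq h
    have hq' := hS q (hTS hq)
    rcases (Nat.prime_iff_prime_int.1 hq'.1).dvd_or_dvd h with h | h
    · exact not_dvd_Dl hq' h
    · exact not_dvd_prod_star hq' _ (fun p hp => hS p (mem_sdiff.1 hp).1)
        (fun h => (mem_sdiff.1 h).2 hq) h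
  have hrow1 : ∀ q ∈ S \ T, ns q (∏ p ∈ T, st p) = al q * ∑ p ∈ T, be r p := by
    intro q hq
    have hqS := (mem_sdiff.1 hq).1
    have h9 := hrow q (mem_Vt.2 (Or.inr hqS))
    rwa [row_eq hS hok hTS hqS, if_neg (mem_sdiff.1 hq).2] at h9
  have hrow2 : ∀ q ∈ T, ns q (Dl r s * ∏ p ∈ S \ T, st p) = al q * ∑ p ∈ T, be r p := by
    intro q hq
    have hqS := hTS hq
    have h9 := hrow q (mem_Vt.2 (Or.inr hqS))
    rwa [row_eq hS hok hTS hqS, if_pos hq] at h9
  have hrow3 : t = true → ∑ p ∈ T, nr p 2 = ∑ p ∈ T, be r p := by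
    intro ht
    have h9 := hrow 2 (mem_Vt.2 (Or.inl ⟨ht, rfl⟩))
    rwa [row_two hS hTS, al2v, one_mul] at h9
  -- the class modulo five
  have hT5 : ∀ p ∈ T, p % 5 ≠ 0 ∧ p ≠ 2 := by
    intro p hp'
    refine ⟨fun h => ?_, (hS p (hTS hp')).2⟩
    have h7 := Nat.dvd_of_mem_primeFactors (hTS hp')
    have h8 : 5 ∣ n := (Nat.dvd_of_mod_eq_zero h).trans h7
    have := hz.n5
    omega
  have h7 := prod_five (r := r) T hT5
  have hnat : (∏ p ∈ T, st p).natAbs = ∏ p ∈ T, p := prod_star_natAbs T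
  rcases z2 (∑ p ∈ T, be r p) with hb | hb
  · -- second kind
    have ha5 : (∏ p ∈ T, st p) % 5 = 1 ∨ (∏ p ∈ T, st p) % 5 = 4 := by
      rcases h7 with ⟨-, h⟩ | ⟨h, -⟩
      · omega
      · rw [hb] at h
        exact absurd h zero_ne_one
    rcases hA _ _ hab ha4 (fun ht => by
        rw [hrow3 ht, hb, if_pos rfl] at h8
        exact h8) (fun q hq hq2 h => by
        have h1 := hrow1 q (hqb q hq hq2 h)
        rw [hb, mul_zero, ns_zero] at h1
        exact h1) (fun q hq h => by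
        have h1 := hrow2 q (hqa q hq h)
        rw [hb, mul_zero, ns_zero] at h1
        exact h1) ha5 with h | ⟨ht, h⟩
    · have hTe : T = ∅ := by
        by_contra hne
        obtain ⟨p₀, hp₀⟩ := Finset.nonempty_iff_ne_empty.2 hne
        have h4 : (p₀ : ℤ) ∣ 1 := by
          rw [← h]
          exact star_dvd_prod hp₀
        have h5 := (hS p₀ (hTS hp₀)).1.one_lt
        rw [Int.natCast_dvd] at h4
        exact h5.ne' (Nat.dvd_one.1 h4)
      intro p hp q hq
      have h1 := hind p hp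
      have h2 := hind q hq
      rw [hTe, if_neg (notMem_empty _)] at h1 h2
      exact add_right_cancel (h1.symm.trans h2)
    · have hTe : S \ T = ∅ := by
        by_contra hne
        obtain ⟨p₀, hp₀⟩ := Finset.nonempty_iff_ne_empty.2 hne
        have h4 : (p₀ : ℤ) ∣ 1 := by
          rw [← h]
          exact (star_dvd_prod hp₀).mul_left _
        have h5 := (hS p₀ (mem_sdiff.1 hp₀).1).1.one_lt
        rw [Int.natCast_dvd] at h4
        exact h5.ne' (Nat.dvd_one.1 h4)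
      intro p hp q hq
      have hT' : ∀ p ∈ Vt t S, p ∈ T := by
        intro p hp
        rcases mem_Vt.1 hp with ⟨h, _⟩ | hp
        · rw [ht] at h
          exact absurd h (by decide)
        · by_contra hcon
          have : p ∈ S \ T := mem_sdiff.2 ⟨hp, hcon⟩
          rw [hTe] at this
          exact absurd this (notMem_empty _)
      have h1 := hind p hp
      have h2 := hind q hq
      rw [if_pos (hT' p hp)] at h1
      rw [if_pos (hT' q hq)] at h2
      exact add_right_cancel (h1.symm.trans h2)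
  · exfalso
    have hsqn : ∀ {q : ℕ}, Po q → q ≠ 3 → ∀ {z : ℤ}, ¬ (q : ℤ) ∣ z → ns q z = al q →
        IsSquare ((-3 * z : ℤ) : ZMod q) := by
      intro q hq h3 z hz h
      rw [← ns_zero, ns_mul hq.1 (not_dvd_three hq h3) hz, al_ns hq h3, h, z2_add_self]
    have h6 := hB _ _ hab ha4 (fun ht => by
        rw [hrow3 ht, hb, if_neg (by decide)] at h8
        exact h8) (fun q hq hq2 h => by
        have h0 := hqb q hq hq2 h
        have h1 := hrow1 q h0
        rw [hb, mul_one] at h1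
        exact hsqn ⟨hq, hq2⟩ (hS3 q (mem_sdiff.1 h0).1) (hna q h0) h1) (fun q hq h => by
        have h0 := hqa q hq h
        have h1 := hrow2 q h0
        rw [hb, mul_one] at h1
        exact hsqn (hS q (hTS h0)) (hS3 q (hTS h0)) (hnb q h0) h1)
    rcases h7 with ⟨h, -⟩ | ⟨-, h⟩
    · rw [hb] at h
      exact one_ne_zero h
    · omega

end Pool.Agent.T2h79.XM.IS
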