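import Pool.Agent.N916.GB.Qc
import Pool.Agent.N848.Q.J

/-!
# The left kernel of a Rédei matrix
-/

set_option autoImplicit false
set_option linter.unusedVariables false
set_option linter.unusedSectionVars false

namespace Pool.Agent.T2h79.XM.CG

open Finset
open Pool.Agent.Y703.CQ (nr)
open Pool.Agent.N973.ND (uu)
open Pool.Agent.N916.GB (Po sy Vt Gd Gv Ev Lm Lm_mulVec Ev_const Gv_iff_rank z2 z2_add_self z2_sq
  nr_recip z2_eq_of_add)
open Pool.Agent.N848.Q hiding star

open Pool.Agent.N848.Q renaming star → st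

open scoped Classical

section

variable {V : Type} [Fintype V]

/-- the column equation -/
noncomputable def Col (N : V → V → ZMod 2) (y : V → ZMod 2) (p : V) : ZMod 2 :=
  ∑ q, (if q = p then 0 else y q * N q p + y p * N p q)

lemma col_mul (N : V → V → ZMod 2) (y : V → ZMod 2) (p : V) :
    (Lm N).transpose.mulVec y p = Col N y p := by
  unfold Matrix.mulVec dotProduct Col
  have h1 : ∀ q, (Lm N).transpose p q * y q = (if q = p then 0 else y q * N q p) +
      (if q = p then (∑ p', (if p' = p then 0 else N p p')) * y p else 0) := by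
    intro q
    rw [Matrix.transpose_apply]
    unfold Lm
    by_cases h : q = p
    · rw [if_pos h, if_pos h.symm, if_pos h, zero_add, h]
    · rw [if_neg h, if_neg (fun h' => h h'.symm), if_neg h, add_zero, mul_comm]
  rw [sum_congr rfl fun q _ => h1 q, sum_add_distrib, sum_ite_eq' univ p, if_pos (mem_univ _),
    sum_mul, ← sum_add_distrib]
  refine sum_congr rfl fun q _ => ?_
  by_cases h : q = p
  · rw [if_pos h, if_pos h, if_pos h]
    ring
  · rw [if_neg h, if_neg h, if_neg h]
    ring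

theorem gv_of_left [Nonempty V] (N : V → V → ZMod 2)
    (h : (univ.filter fun y : V → ZMod 2 => ∀ p, Col N y p = 0).card ≤ 2) : Gv N := by
  rw [Gv_iff_rank]
  -- the left kernel
  have h2 := LinearMap.finrank_range_add_finrank_ker (Lm N).transpose.mulVecLin
  rw [Module.finrank_fintype_fun_eq_card] at h2
  have h3 : (Lm N).transpose.rank =
      Module.finrank (ZMod 2) (LinearMap.range (Lm N).transpose.mulVecLin) := rfl
  rw [← h3, Matrix.rank_transpose] at h2
  have hk : ∀ y, y ∈ LinearMap.ker (Lm N).transpose.mulVecLin ↔ ∀ p, Col N y p = 0 := by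
    intro y
    rw [LinearMap.mem_ker, Matrix.mulVecLin_apply]
    constructor
    · intro h p
      rw [← col_mul, h]
      rfl
    · intro h
      funext p
      rw [col_mul]
      exact h p
  have h4 : Module.finrank (ZMod 2) (LinearMap.ker (Lm N).transpose.mulVecLin) ≤ 1 := by
    have h5 : Fintype.card (LinearMap.ker (Lm N).transpose.mulVecLin) =
        (univ.filter fun y : V → ZMod 2 => ∀ p, Col N y p = 0).card := by
      rw [Fintype.card_of_subtype]
      intro y
      rw [mem_filter, hk]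
      exact ⟨fun h => h.2, fun h => ⟨mem_univ _, h⟩⟩
    have h6 := Module.card_eq_pow_finrank (K := ZMod 2)
      (V := LinearMap.ker (Lm N).transpose.mulVecLin)
    rw [h5, ZMod.card] at h6
    rw [h6] at h
    by_contra hc
    have h7 : 2 ^ 2 ≤ 2 ^ Module.finrank (ZMod 2) (LinearMap.ker (Lm N).transpose.mulVecLin) :=
      Nat.pow_le_pow_right (by norm_num) (by omega)
    omega
  -- the right kernel contains the constants
  have h5 := LinearMap.finrank_range_add_finrank_ker (Lm N).mulVecLin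
  rw [Module.finrank_fintype_fun_eq_card] at h5
  have h6 : (Lm N).rank = Module.finrank (ZMod 2) (LinearMap.range (Lm N).mulVecLin) := rfl
  rw [← h6] at h5
  have h7 : (fun _ => (1 : ZMod 2)) ∈ LinearMap.ker (Lm N).mulVecLin := by
    rw [LinearMap.mem_ker, Matrix.mulVecLin_apply]
    funext q
    rw [Lm_mulVec]
    exact Ev_const N 1 q
  have hne : (⟨_, h7⟩ : LinearMap.ker (Lm N).mulVecLin) ≠ 0 := by
    intro h
    have h4 := congrArg Subtype.val h
    have h5 := congrFun h4 (Classical.arbitrary V)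
    exact one_ne_zero h5
  have h8 : 1 ≤ Module.finrank (ZMod 2) (LinearMap.ker (Lm N).mulVecLin) := by
    have : 0 < Module.finrank (ZMod 2) (LinearMap.ker (Lm N).mulVecLin) := by
      rw [Module.finrank_pos_iff]
      exact ⟨⟨_, _, hne⟩⟩
    omega
  omega

end

theorem Gd_iffv (t : Bool) (r s : ZMod 2) (S : Finset ℕ) :
    Gd t r s S ↔ Gv (fun q p : Vt t S => sy r s (q : ℕ) (p : ℕ)) := by
  unfold Gd Gv
  constructor
  · intro h x hx p q
    have h1 := h (fun p => if hp : p ∈ Vt t S then x ⟨p, hp⟩ else 0) (by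
      intro q hq
      have h2 := hx ⟨q, hq⟩
      rw [← sum_coe_sort (Vt t S)]
      refine Eq.trans (sum_congr rfl fun p _ => ?_) h2
      rw [dif_pos p.2, dif_pos hq]) p p.2 q q.2
    rw [dif_pos p.2, dif_pos q.2] at h1
    exact h1
  · intro h x hx p hp q hq
    exact h (fun p => x p) (by
      intro q
      have h2 := hx q q.2
      rw [← sum_coe_sort (Vt t S)] at h2
      exact h2) ⟨p, hp⟩ ⟨q, hq⟩

/-! ### Products of primes -/

lemma not_dvd_prod {q : ℕ} (hq : q.Prime) (T : Finset ℕ) (hT : ∀ p ∈ T, p.Prime) (h : q ∉ T) :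
    ¬ (q : ℤ) ∣ ∏ p ∈ T, (p : ℤ) := by
  have hqp : Prime (q : ℤ) := Nat.prime_iff_prime_int.1 hq
  intro h1
  obtain ⟨p, hp, h2⟩ := (hqp.dvd_finsetProd_iff _).1 h1
  rw [Int.natCast_dvd_natCast] at h2
  exact h ((Nat.prime_dvd_prime_iff_eq hq (hT p hp)).1 h2 ▸ hp)

lemma ns_prod {q : ℕ} (hq : q.Prime) (T : Finset ℕ) (hT : ∀ p ∈ T, p.Prime) (h : q ∉ T) :
    ns q (∏ p ∈ T, (p : ℤ)) = ∑ p ∈ T, nr q p := by
  induction T using Finset.induction_on with
  | empty => rw [prod_empty, sum_empty, ns_one]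
  | insert a S ha ih =>
    rw [prod_insert ha, sum_insert ha]
    have h1 : q ≠ a := fun e => h (e ▸ mem_insert_self a S)
    have h2 : q ∉ S := fun e => h (mem_insert_of_mem e)
    have h3 : ∀ p ∈ S, p.Prime := fun p hp => hT p (mem_insert_of_mem hp)
    have h4 := hT a (mem_insert_self a S)
    have h5 : ¬ (q : ℤ) ∣ (a : ℤ) := by
      rw [Int.natCast_dvd_natCast]
      exact fun h6 => h1 ((Nat.prime_dvd_prime_iff_eq hq h4).1 h6)
    rw [ns_mul hq h5 (not_dvd_prod hq S h3 h2), ns_nat, ih h3 h2]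

section

variable {t : Bool} {r s : ZMod 2} {S : Finset ℕ}

/-- the primes in the support -/
noncomputable def Su (t : Bool) (S : Finset ℕ) (y : Vt t S → ZMod 2) : Finset ℕ :=
  (Vt t S).filter fun q => ∃ h : q ∈ Vt t S, y ⟨q, h⟩ = 1

lemma mem_su {y : Vt t S → ZMod 2} {q : ℕ} (hq : q ∈ Vt t S) : q ∈ Su t S y ↔ y ⟨q, hq⟩ = 1 := by
  unfold Su
  rw [mem_filter]
  exact ⟨fun h => h.2.2, fun h => ⟨hq, hq, h⟩⟩

lemma su_sub (y : Vt t S → ZMod 2) : Su t S y ⊆ Vt t S := filter_subset _ _

lemma vt_prime (hS : ∀ p ∈ S, Po p) : ∀ p ∈ Vt t S, p.Prime := by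
  intro p hp
  unfold Vt at hp
  split_ifs at hp
  · rcases mem_insert.1 hp with rfl | h
    · exact Nat.prime_two
    · exact (hS p h).1
  · exact (hS p hp).1

lemma sub_vt : S ⊆ Vt t S := by
  unfold Vt
  split_ifs
  · exact subset_insert _ _
  · exact Subset.refl _

/-- the sum of a row without the diagonal -/
lemma row_all (hS : ∀ p ∈ S, Po p) (hok : t = false → r = 0 ∧ s = 0) {p : ℕ} (hp : p ∈ S) :
    ∑ q ∈ (Vt t S).erase p, sy r s p q = ns p (Dl r s * ∏ q ∈ S.erase p, st q) := by
  have hp' := hS p hp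
  have h1 := row_eq (t := t) (r := r) (s := s) hS hok (T := {p}) (singleton_subset_iff.2 hp) hp
  rw [if_pos (mem_singleton_self p), if_pos (mem_singleton_self p), ← erase_eq] at h1
  rw [← h1, ← add_sum_erase (Vt t S) _ (sub_vt hp), if_pos (mem_singleton_self p), z2_add_self,
    zero_mul, zero_add]
  refine sum_congr rfl fun q hq => ?_
  rw [if_neg (fun h => (mem_erase.1 hq).1 (mem_singleton.1 h)), zero_add, one_mul]

/-- the column equation at an odd prime -/
lemma col_eq (hS : ∀ p ∈ S, Po p) (hok : t = false → r = 0 ∧ s = 0) {y : Vt t S → ZMod 2} {p : ℕ}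
    (hp : p ∈ S) (h : Col (fun q p : Vt t S => sy r s (q : ℕ) (p : ℕ)) y ⟨p, sub_vt hp⟩ = 0) :
    ns p (∏ q ∈ (Su t S y).erase p, (q : ℤ)) +
      (if p ∈ Su t S y then ns p (Dl r s * ∏ q ∈ S.erase p, st q) else 0) = 0 := by
  have hp' := hS p hp
  have hpV : p ∈ Vt t S := sub_vt hp
  have h1 : Col (fun q p : Vt t S => sy r s (q : ℕ) (p : ℕ)) y ⟨p, hpV⟩ =
      ∑ q ∈ (Vt t S).erase p, ((if q ∈ Su t S y then nr p q else 0) +
        (if p ∈ Su t S y then sy r s p q else 0)) := by
    unfold Col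
    have h2 : ∀ q : Vt t S, (@ite (ZMod 2) (q = ⟨p, hpV⟩) (Classical.propDecidable _) 0
        (y q * sy r s (q : ℕ) p + y ⟨p, hpV⟩ * sy r s p (q : ℕ))) = if (q : ℕ) = p then 0 else
        ((if (q : ℕ) ∈ Su t S y then nr p q else 0) +
        (if p ∈ Su t S y then sy r s p q else 0)) := by
      intro q
      by_cases hqp : q = ⟨p, hpV⟩
      · rw [if_pos hqp, if_pos (congrArg Subtype.val hqp)]
      · rw [if_neg hqp, if_neg fun h => hqp (Subtype.ext h)]
        congr 1
        · have h3 : sy r s (q : ℕ) p = nr p q := if_neg hp'.2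
          rw [h3]
          by_cases hq : y q = 1
          · rw [if_pos ((mem_su q.2).2 hq), hq, one_mul]
          · rw [if_neg fun h => hq ((mem_su q.2).1 h), (z2 (y q)).resolve_right hq, zero_mul]
        · by_cases hq : y ⟨p, hpV⟩ = 1
          · rw [if_pos ((mem_su hpV).2 hq), hq, one_mul]
          · rw [if_neg fun h => hq ((mem_su hpV).1 h), (z2 (y ⟨p, hpV⟩)).resolve_right hq,
              zero_mul]
    refine (sum_congr rfl fun q _ => h2 q).trans ?_
    rw [sum_coe_sort (Vt t S) fun q => if q = p then (0 : ZMod 2) else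
        ((if q ∈ Su t S y then nr p q else 0) + (if p ∈ Su t S y then sy r s p q else 0)),
      ← add_sum_erase (Vt t S) _ hpV, if_pos rfl, zero_add]
    exact sum_congr rfl fun q hq => if_neg (mem_erase.1 hq).1
  rw [h1, sum_add_distrib] at h
  have h2 : ∑ q ∈ (Vt t S).erase p, (if q ∈ Su t S y then nr p q else 0) =
      ns p (∏ q ∈ (Su t S y).erase p, (q : ℤ)) := by
    rw [ns_prod hp'.1 _ (fun q hq => vt_prime hS q (su_sub y (mem_of_mem_erase hq)))
      (notMem_erase p _), ← sum_filter]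
    congr 1
    ext q
    rw [mem_filter, mem_erase, mem_erase]
    exact ⟨fun h => ⟨h.1.1, h.2⟩, fun h => ⟨⟨h.1, su_sub y h.2⟩, h.2⟩⟩
  have h3 : ∑ q ∈ (Vt t S).erase p, (if p ∈ Su t S y then sy r s p q else 0) =
      if p ∈ Su t S y then ns p (Dl r s * ∏ q ∈ S.erase p, st q) else 0 := by
    by_cases h4 : p ∈ Su t S y
    · rw [if_pos h4, ← row_all hS hok hp]
      exact sum_congr rfl fun q _ => if_pos h4
    · rw [if_neg h4]
      exact sum_eq_zero fun q _ => if_neg h4
  rw [h2, h3] at h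
  exact h

end

end Pool.Agent.T2h79.XM.CG
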