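import Mathlib

/-!
# Local analysis of the descent by 2-isogeny on `y² = x (x + 9 m) (x + 25 m)`
-/

set_option autoImplicit false

namespace Pool.Agent.T2h79.XM

/-! ### odd primes -/

section odd

variable {p : ℕ}

lemma split_sq (hp : p.Prime) {α : ℕ} {u c : ℤ} (hu : ¬ (p : ℤ) ∣ u)
    (h : (p : ℤ) ^ α * u = c ^ 2) : Even α ∧ ∃ w : ℤ, u = w ^ 2 := by
  have hpp : Prime (p : ℤ) := Nat.prime_iff_prime_int.1 hp
  induction α using Nat.strong_induction_on generalizing c with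
  | _ α ih =>
    rcases Nat.eq_zero_or_pos α with rfl | h0
    · exact ⟨Even.zero, c, by rw [← h]; ring⟩
    · have h1 : (p : ℤ) ∣ c ^ 2 := by
        rw [← h]
        exact Dvd.dvd.mul_right (dvd_pow_self _ h0.ne') _
      obtain ⟨c', rfl⟩ := hpp.dvd_of_dvd_pow h1
      have h2 : 2 ≤ α := by
        by_contra hlt
        have e : α = 1 := by omega
        subst e
        apply hu
        refine ⟨c' ^ 2, ?_⟩
        have : (p : ℤ) * u = p * (p * c' ^ 2) := by linear_combination h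
        exact mul_left_cancel₀ hpp.ne_zero this
      obtain ⟨β, rfl⟩ := Nat.exists_eq_add_of_le' h2
      have h3 : (p : ℤ) ^ β * u = c' ^ 2 := by
        have : (p : ℤ) ^ 2 * ((p : ℤ) ^ β * u) = p ^ 2 * c' ^ 2 := by
          linear_combination h
        exact mul_left_cancel₀ (pow_ne_zero 2 hpp.ne_zero) this
      obtain ⟨h4, h5⟩ := ih β (by omega) h3
      exact ⟨by rw [Nat.even_add]; simp [h4], h5⟩

/-- squares modulo `p` -/
def Sq (p : ℕ) (n : ℤ) : Prop := IsSquare (n : ZMod p)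

lemma sq_congr {a b : ℤ} (h : (p : ℤ) ∣ a - b) : Sq p a ↔ Sq p b := by
  unfold Sq
  have : (a : ZMod p) = b := by
    rw [← sub_eq_zero, ← Int.cast_sub]
    exact (ZMod.intCast_zmod_eq_zero_iff_dvd _ _).2 h
  rw [this]

lemma sq_sq (a : ℤ) : Sq p (a ^ 2) := ⟨(a : ZMod p), by push_cast; ring⟩

/-- cancel a square factor -/
lemma sq_cancel (hp : p.Prime) {a s : ℤ} (hs : ¬ (p : ℤ) ∣ s) (h : Sq p (a * s ^ 2)) : Sq p a := by
  have : Fact p.Prime := ⟨hp⟩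
  have hs0 : (s : ZMod p) ≠ 0 := by
    rw [Ne, ZMod.intCast_zmod_eq_zero_iff_dvd]
    exact hs
  obtain ⟨t, ht⟩ := h
  refine ⟨t / s, ?_⟩
  push_cast at ht
  field_simp
  linear_combination ht

/-- the core: `p` divides `m = p m'` -/
lemma core_ram (hp : p.Prime) {α : ℕ} {u x y m' s1 s2 c : ℤ} {ν : ℕ} (hν : ν = 1 ∨ ν = 3)
    (hu : ¬ (p : ℤ) ∣ u) (hm : ¬ (p : ℤ) ∣ m') (h1 : ¬ (p : ℤ) ∣ s1) (h2 : ¬ (p : ℤ) ∣ s2)
    (hx : x = m' * s1 ^ 2) (hy : y = m' * s2 ^ 2) (hα : 1 ≤ α)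
    (h : (p : ℤ) ^ α * u * ((p : ℤ) ^ α * u + p * x) * ((p : ℤ) ^ α * u + p ^ ν * y) = c ^ 2) :
    (Even α ∧ Sq p u) ∨ (¬ Even α ∧ Sq p (-m' * u)) := by
  have hpp : Prime (p : ℤ) := Nat.prime_iff_prime_int.1 hp
  have hx0 : ¬ (p : ℤ) ∣ x := by
    rw [hx]
    intro h
    rcases hpp.dvd_or_dvd h with h | h
    · exact hm h
    · exact h1 (hpp.dvd_of_dvd_pow h)
  have hy0 : ¬ (p : ℤ) ∣ y := by
    rw [hy]
    intro h
    rcases hpp.dvd_or_dvd h with h | h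
    · exact hm h
    · exact h2 (hpp.dvd_of_dvd_pow h)
  -- if `p ∣ u + x` or `p ∣ u + y`
  have kx : (p : ℤ) ∣ u + x → Sq p (-m' * u) := by
    intro h
    have : Sq p (m' * s1) ↔ Sq p (m' * s1) := Iff.rfl
    have h3 : (p : ℤ) ∣ (-m' * u) - (m' * s1) ^ 2 := by
      have : (-m' * u) - (m' * s1) ^ 2 = -m' * (u + x) := by rw [hx]; ring
      rw [this]
      exact h.mul_left _
    exact (sq_congr h3).2 (sq_sq _)
  have ky : (p : ℤ) ∣ u + y → Sq p (-m' * u) := by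
    intro h
    have h3 : (p : ℤ) ∣ (-m' * u) - (m' * s2) ^ 2 := by
      have : (-m' * u) - (m' * s2) ^ 2 = -m' * (u + y) := by rw [hy]; ring
      rw [this]
      exact h.mul_left _
    exact (sq_congr h3).2 (sq_sq _)
  have nd2 : ∀ {a b : ℤ}, ¬ (p : ℤ) ∣ a → ¬ (p : ℤ) ∣ b → ¬ (p : ℤ) ∣ a * b :=
    fun ha hb h => (hpp.dvd_or_dvd h).elim ha hb
  have nda : ∀ {a b : ℤ}, ¬ (p : ℤ) ∣ a → ¬ (p : ℤ) ∣ a + p * b := by
    intro a b ha h
    exact ha ((dvd_add_left (dvd_mul_right _ _)).1 h)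
  rcases Nat.lt_or_ge 1 α with hα2 | hα1
  · -- `α ≥ 2`
    obtain ⟨β, rfl⟩ := Nat.exists_eq_add_of_le' hα2
    rcases lt_trichotomy ν (β + 2) with hlt | heq | hgt
    · -- `α > ν`
      obtain ⟨γ, hγ⟩ := Nat.exists_eq_add_of_lt hlt
      have e : (p : ℤ) ^ (β + 2) = p ^ ν * (p * p ^ γ) := by
        rw [hγ]; ring
      have h3 : (p : ℤ) ^ ((β + 2) + 1 + ν) * (u * (x + p * (p ^ β * u)) * (y + p * (p ^ γ * u))) =
          c ^ 2 := by
        rw [← h]
        have e2 : (p : ℤ) ^ (β + 2) * u + p ^ ν * y = p ^ ν * (y + p * (p ^ γ * u)) := by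
          rw [e]; ring
        rw [e2]
        ring
      obtain ⟨h4, w, hw⟩ := split_sq hp (nd2 (nd2 hu (nda hx0)) (nda hy0)) h3
      left
      refine ⟨?_, ?_⟩
      · rcases hν with rfl | rfl
        · have : (β + 2) + 1 + 1 = (β + 2) + 2 := by ring
          rw [this] at h4
          simpa [Nat.even_add] using h4
        · have : (β + 2) + 1 + 3 = (β + 2) + 4 := by ring
          rw [this] at h4
          have h5 : Even 4 := by decide
          exact (Nat.even_add.1 h4).2 h5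
      · refine sq_cancel hp (s := m' * s1 * s2) (nd2 (nd2 hm h1) h2) ?_
        have h5 : (p : ℤ) ∣ u * (m' * s1 * s2) ^ 2 - w ^ 2 := by
          rw [← hw, hx, hy]
          refine ⟨-(u * ((p ^ β * u) * (m' * s2 ^ 2 + p * (p ^ γ * u)) + (m' * s1 ^ 2) *
            (p ^ γ * u))), ?_⟩
          ring
        exact (sq_congr h5).2 (sq_sq _)
    · -- `α = ν = 3`
      have hβ : β = 1 := by omega
      subst hβ
      have hν3 : ν = 3 := heq
      subst hν3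
      by_cases hd : (p : ℤ) ∣ u + y
      · right
        exact ⟨by decide, ky hd⟩
      · exfalso
        have h3 : (p : ℤ) ^ 7 * (u * (x + p * (p * u)) * (u + y)) = c ^ 2 := by
          rw [← h]; ring
        have h4 := (split_sq hp (nd2 (nd2 hu (nda hx0)) hd) h3).1
        exact absurd h4 (by decide)
    · -- `α < ν`, `α = 2`
      have hβ : β = 0 := by omega
      have hν3 : ν = 3 := by omega
      subst hβ
      subst hν3
      exfalso
      have h3 : (p : ℤ) ^ 5 * (u * (x + p * u) * (u + p * y)) = c ^ 2 := by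
        rw [← h]; ring
      have h4 := (split_sq hp (nd2 (nd2 hu (nda hx0)) (nda hu)) h3).1
      exact absurd h4 (by decide)
  · -- `α = 1`
    have hα' : α = 1 := by omega
    subst hα'
    right
    refine ⟨by decide, ?_⟩
    by_cases hd : (p : ℤ) ∣ u + x
    · exact kx hd
    · rcases hν with rfl | rfl
      · by_cases hd' : (p : ℤ) ∣ u + y
        · exact ky hd'
        · exfalso
          have h3 : (p : ℤ) ^ 3 * (u * (u + x) * (u + y)) = c ^ 2 := by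
            rw [← h]; ring
          have h4 := (split_sq hp (nd2 (nd2 hu hd) hd') h3).1
          exact absurd h4 (by decide)
      · exfalso
        have h3 : (p : ℤ) ^ 3 * (u * (u + x) * (u + p * (p * y))) = c ^ 2 := by
          rw [← h]; ring
        have h4 := (split_sq hp (nd2 (nd2 hu hd) (nda hu)) h3).1
        exact absurd h4 (by decide)

/-- the core for a prime not dividing `m`, both coefficients are units -/
lemma core_unr (hp : p.Prime) {α : ℕ} {u x y c : ℤ} (hα : 1 ≤ α) (hu : ¬ (p : ℤ) ∣ u)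
    (hx0 : ¬ (p : ℤ) ∣ x) (hy0 : ¬ (p : ℤ) ∣ y)
    (h : (p : ℤ) ^ α * u * ((p : ℤ) ^ α * u + x) * ((p : ℤ) ^ α * u + y) = c ^ 2) : Even α := by
  have hpp : Prime (p : ℤ) := Nat.prime_iff_prime_int.1 hp
  have nd2 : ∀ {a b : ℤ}, ¬ (p : ℤ) ∣ a → ¬ (p : ℤ) ∣ b → ¬ (p : ℤ) ∣ a * b :=
    fun ha hb h => (hpp.dvd_or_dvd h).elim ha hb
  obtain ⟨β, rfl⟩ := Nat.exists_eq_add_of_le' hα
  have nda : ∀ {a b : ℤ}, ¬ (p : ℤ) ∣ a → ¬ (p : ℤ) ∣ a + p * b := by
    intro a b ha h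
    exact ha ((dvd_add_left (dvd_mul_right _ _)).1 h)
  refine (split_sq hp (u := u * (x + p * (p ^ β * u)) * (y + p * (p ^ β * u))) (c := c)
    (nd2 (nd2 hu (nda hx0)) (nda hy0)) ?_).1
  rw [← h]
  ring

/-- the core for `p = 3`, `p = 5` not dividing `m` -/
lemma core_three (hp : p.Prime) {α : ℕ} {u x y m s1 s2 c : ℤ} (hα : 1 ≤ α) (hu : ¬ (p : ℤ) ∣ u)
    (h1 : ¬ (p : ℤ) ∣ s1) (h2 : ¬ (p : ℤ) ∣ s2) (hm : ¬ (p : ℤ) ∣ m) (hm2 : ¬ Sq p m)
    (hx : x = m * s1 ^ 2) (hy : y = m * s2 ^ 2)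
    (h : (p : ℤ) ^ α * u * ((p : ℤ) ^ α * u + x) * ((p : ℤ) ^ α * u + p ^ 2 * y) = c ^ 2) :
    Even α := by
  have hpp : Prime (p : ℤ) := Nat.prime_iff_prime_int.1 hp
  have nd2 : ∀ {a b : ℤ}, ¬ (p : ℤ) ∣ a → ¬ (p : ℤ) ∣ b → ¬ (p : ℤ) ∣ a * b :=
    fun ha hb h => (hpp.dvd_or_dvd h).elim ha hb
  have hx0 : ¬ (p : ℤ) ∣ x := by
    rw [hx]
    exact nd2 hm (fun h => h1 (hpp.dvd_of_dvd_pow h))
  have hy0 : ¬ (p : ℤ) ∣ y := by
    rw [hy]
    exact nd2 hm (fun h => h2 (hpp.dvd_of_dvd_pow h))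
  have nda : ∀ {a b : ℤ}, ¬ (p : ℤ) ∣ a → ¬ (p : ℤ) ∣ a + p * b := by
    intro a b ha h
    exact ha ((dvd_add_left (dvd_mul_right _ _)).1 h)
  rcases (by omega : α = 1 ∨ α = 2 ∨ 3 ≤ α) with rfl | rfl | h3
  · exfalso
    have h3 : (p : ℤ) ^ 2 * (u * (x + p * u) * (u + p * y)) = c ^ 2 := by
      rw [← h]; ring
    obtain ⟨-, w, hw⟩ := split_sq hp (nd2 (nd2 hu (nda hx0)) (nda hu)) h3
    apply hm2
    refine sq_cancel hp (s := u * s1) (nd2 hu h1) ?_
    have h5 : (p : ℤ) ∣ m * (u * s1) ^ 2 - w ^ 2 := by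
      rw [← hw, hx]
      refine ⟨-(u * (m * s1 ^ 2 * y + u * (u + p * y))), ?_⟩
      ring
    exact (sq_congr h5).2 (sq_sq _)
  · decide
  · obtain ⟨β, rfl⟩ := Nat.exists_eq_add_of_le' h3
    have h3 : (p : ℤ) ^ ((β + 3) + 2) * (u * (x + p * (p ^ (β + 2) * u)) * (y + p * (p ^ β * u))) =
        c ^ 2 := by
      rw [← h]; ring
    have h4 := (split_sq hp (nd2 (nd2 hu (nda hx0)) (nda hy0)) h3).1
    exact (Nat.even_add.1 h4).2 (by decide)

end odd

end Pool.Agent.T2h79.XM
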