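import Pool.Agent.T2h79.XM.Fam

/-!
# The weights
-/

set_option autoImplicit false
set_option linter.unusedVariables false

namespace Pool.Agent.T2h79.XM

open Finset Filter Topology
open Pool.Agent.N916.GB (SS Gd eta card_eq)

/-- the prime `3` is not inert and `5` is not split in `ℚ(√-D)` -/
def La (D : ℕ) : Prop := D % 3 ≠ 1 ∧ D % 5 ≠ 1 ∧ D % 5 ≠ 4

/-- the prime `3` is inert and `5` is split in `ℚ(√-D)` -/
def Lb (D : ℕ) : Prop := D % 3 = 1 ∧ (D % 5 = 1 ∨ D % 5 = 4)

instance : DecidablePred La := fun D => by unfold La; infer_instance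
instance : DecidablePred Lb := fun D => by unfold Lb; infer_instance

lemma la_mod (D : ℕ) : La D ↔ La (D % 15) := by unfold La; omega
lemma lb_mod (D : ℕ) : Lb D ↔ Lb (D % 15) := by unfold Lb; omega

lemma kg_eq (L : ℕ → Prop) [DecidablePred L] (f : ℕ × ℕ) (g : ℕ) : Kg (Kr f L) g =
    (range 120).filter fun u => Nat.Coprime u 120 ∧ (g * u % 120) % 4 = f.2 ∧
      L (f.1 * (g * u % 120)) := by
  ext u
  unfold Kg Kr Un
  simp only [mem_filter, mem_range]
  constructor
  · rintro ⟨⟨h1, h2⟩, h3, h4, h5⟩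
    exact ⟨h1, h2, h4, h5⟩
  · rintro ⟨h1, h2, h4, h5⟩
    exact ⟨⟨h1, h2⟩, Nat.mod_lt _ (by norm_num), h4, h5⟩

lemma sl_eq (L : ℕ → Prop) [DecidablePred L] : SL L = ∑ f ∈ fams,
    (∑ g ∈ ({1, 3, 5, 15} : Finset ℕ), (((range 120).filter fun u => Nat.Coprime u 120 ∧
      (g * u % 120) % 4 = f.2 ∧ L (f.1 * (g * u % 120))).card : ℝ) / g) / f.1 := by
  unfold SL Wt
  refine sum_congr rfl fun f _ => ?_
  congr 1
  refine sum_congr rfl fun g _ => ?_
  rw [kg_eq]

/-- the counting function of the classes -/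
def ct (L : ℕ → Prop) [DecidablePred L] (k c g : ℕ) : ℕ :=
  ((range 120).filter fun u => Nat.Coprime u 120 ∧ (g * u % 120) % 4 = c ∧
      L (k * (g * u % 120))).card

/-- the sum over the divisors of `15` -/
noncomputable def s4 (L : ℕ → Prop) [DecidablePred L] (k c : ℕ) : ℝ :=
  (ct L k c 1 : ℝ) + ct L k c 3 / 3 + ct L k c 5 / 5 + ct L k c 15 / 15

lemma s4_eq (L : ℕ → Prop) [DecidablePred L] (k c : ℕ) :
    ∑ g ∈ ({1, 3, 5, 15} : Finset ℕ), (ct L k c g : ℝ) / g = s4 L k c := by
  unfold s4
  rw [sum_insert (by decide), sum_insert (by decide), sum_insert (by decide), sum_singleton]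
  push_cast
  ring

lemma sl_val (L : ℕ → Prop) [DecidablePred L] :
    SL L = s4 L 1 3 + s4 L 4 1 / 4 + s4 L 8 3 / 8 + s4 L 8 1 / 8 := by
  have e : ∀ f : ℕ × ℕ, (∑ g ∈ ({1, 3, 5, 15} : Finset ℕ), (((range 120).filter fun u =>
      Nat.Coprime u 120 ∧ (g * u % 120) % 4 = f.2 ∧ L (f.1 * (g * u % 120))).card : ℝ) / g) =
      s4 L f.1 f.2 := fun f => s4_eq L f.1 f.2
  rw [sl_eq, sum_congr rfl fun f _ => by rw [e f]]
  unfold fams
  rw [sum_insert (by decide), sum_insert (by decide), sum_insert (by decide), sum_singleton]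
  push_cast
  ring

lemma s4_val (L : ℕ → Prop) [DecidablePred L] {k c a b d e : ℕ} (h1 : ct L k c 1 = a)
    (h2 : ct L k c 3 = b) (h3 : ct L k c 5 = d) (h4 : ct L k c 15 = e) :
    s4 L k c = a + b / 3 + d / 5 + e / 15 := by
  unfold s4
  rw [h1, h2, h3, h4]

lemma sl_all : SL (fun _ => True) = 192 / 5 := by
  have h := @sl_val (fun _ => True) (fun _ => instDecidableTrue)
  rw [h, @s4_val (fun _ => True) (fun _ => instDecidableTrue) 1 3 16 16 16 16 (by decide +kernel)
    (by decide +kernel) (by decide +kernel) (by decide +kernel),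
    @s4_val (fun _ => True) (fun _ => instDecidableTrue) 4 1 16 16 16 16 (by decide +kernel)
    (by decide +kernel) (by decide +kernel) (by decide +kernel),
    @s4_val (fun _ => True) (fun _ => instDecidableTrue) 8 3 16 16 16 16 (by decide +kernel)
    (by decide +kernel) (by decide +kernel) (by decide +kernel),
    @s4_val (fun _ => True) (fun _ => instDecidableTrue) 8 1 16 16 16 16 (by decide +kernel)
    (by decide +kernel) (by decide +kernel) (by decide +kernel)]
  norm_num

lemma sl_la : SL La = 14 := by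
  rw [sl_val La, s4_val La (k := 1) (c := 3) (a := 4) (b := 8) (d := 8) (e := 16)
    (by decide +kernel) (by decide +kernel) (by decide +kernel) (by decide +kernel),
    s4_val La (k := 4) (c := 1) (a := 4) (b := 8) (d := 8) (e := 16)
    (by decide +kernel) (by decide +kernel) (by decide +kernel) (by decide +kernel),
    s4_val La (k := 8) (c := 3) (a := 4) (b := 8) (d := 8) (e := 16)
    (by decide +kernel) (by decide +kernel) (by decide +kernel) (by decide +kernel),
    s4_val La (k := 8) (c := 1) (a := 4) (b := 8) (d := 8) (e := 16)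
    (by decide +kernel) (by decide +kernel) (by decide +kernel) (by decide +kernel)]
  norm_num

lemma sl_lb : SL Lb = 6 := by
  rw [sl_val Lb, s4_val Lb (k := 1) (c := 3) (a := 4) (b := 0) (d := 0) (e := 0)
    (by decide +kernel) (by decide +kernel) (by decide +kernel) (by decide +kernel),
    s4_val Lb (k := 4) (c := 1) (a := 4) (b := 0) (d := 0) (e := 0)
    (by decide +kernel) (by decide +kernel) (by decide +kernel) (by decide +kernel),
    s4_val Lb (k := 8) (c := 3) (a := 4) (b := 0) (d := 0) (e := 0)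
    (by decide +kernel) (by decide +kernel) (by decide +kernel) (by decide +kernel),
    s4_val Lb (k := 8) (c := 1) (a := 4) (b := 0) (d := 0) (e := 0)
    (by decide +kernel) (by decide +kernel) (by decide +kernel) (by decide +kernel)]
  norm_num

end Pool.Agent.T2h79.XM
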