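import Mathlib

/-!
# The square root of the discriminant in a quadratic field
-/

set_option autoImplicit false
set_option linter.unusedVariables false

namespace Pool.Agent.T2h79.XM

open Module

section

variable {K : Type} [Field K] [NumberField K]

/-- the quadratic equation -/
lemma quad_eq (h2 : finrank ℚ K = 2) (x : K) : x ^ 2 = algebraMap ℚ K (Algebra.trace ℚ K x) * x -
    algebraMap ℚ K (Algebra.norm ℚ x) := by
  let b : Basis (Fin 2) ℚ K := finBasisOfFinrankEq ℚ K h2
  set M := Algebra.leftMulMatrix b x with hM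
  have h1 : M ^ 2 = M.trace • M - M.det • (1 : Matrix (Fin 2) (Fin 2) ℚ) := by
    rw [pow_two]
    ext i j
    fin_cases i <;> fin_cases j <;>
      simp [Matrix.mul_apply, Matrix.trace, Matrix.det_fin_two, Fin.sum_univ_two] <;> ring
  have ht : Algebra.trace ℚ K x = M.trace := Algebra.trace_eq_matrix_trace b x
  have hn : Algebra.norm ℚ x = M.det := Algebra.norm_eq_matrix_det b x
  have h3 : Algebra.leftMulMatrix b (x ^ 2) = Algebra.leftMulMatrix b
      (Algebra.trace ℚ K x • x - algebraMap ℚ K (Algebra.norm ℚ x)) := by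
    rw [map_pow, map_sub, map_smul, AlgHom.commutes, ← hM, h1, ht, hn, Algebra.algebraMap_eq_smul_one]
  have h4 := Algebra.leftMulMatrix_injective b h3
  rw [h4, Algebra.smul_def]

/-- the trace of a product -/
lemma trace_mul' (h2 : finrank ℚ K = 2) (x y : K) :
    algebraMap ℚ K (Algebra.trace ℚ K (x * y)) = 2 * (x * y) -
      algebraMap ℚ K (Algebra.trace ℚ K x) * y - algebraMap ℚ K (Algebra.trace ℚ K y) * x +
      algebraMap ℚ K (Algebra.trace ℚ K x) * algebraMap ℚ K (Algebra.trace ℚ K y) := by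
  have hq : ∀ x : K, algebraMap ℚ K (Algebra.trace ℚ K (x ^ 2)) =
      algebraMap ℚ K (Algebra.trace ℚ K x) ^ 2 - 2 * algebraMap ℚ K (Algebra.norm ℚ x) := by
    intro x
    have h3 := congrArg (Algebra.trace ℚ K) (quad_eq h2 x)
    have h4 : algebraMap ℚ K (Algebra.trace ℚ K x) * x = Algebra.trace ℚ K x • x :=
      (Algebra.smul_def _ _).symm
    rw [h4, map_sub, map_smul, Algebra.trace_algebraMap, h2] at h3
    rw [h3]
    simp only [smul_eq_mul, nsmul_eq_mul, map_sub, map_mul, map_natCast]
    push_cast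
    ring
  -- the norms in terms of the traces
  have hx := hq x
  have hy := hq y
  have hxy := hq (x + y)
  have e1 := quad_eq h2 x
  have e2 := quad_eq h2 y
  have e3 := quad_eq h2 (x + y)
  have e4 : Algebra.trace ℚ K ((x + y) ^ 2) = Algebra.trace ℚ K (x ^ 2) +
      2 * Algebra.trace ℚ K (x * y) + Algebra.trace ℚ K (y ^ 2) := by
    have : (x + y) ^ 2 = x ^ 2 + (2 : ℚ) • (x * y) + y ^ 2 := by
      rw [Algebra.smul_def]
      simp only [map_ofNat]
      ring
    rw [this, map_add, map_add, map_smul, smul_eq_mul]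
  rw [e4] at hxy
  rw [map_add (Algebra.trace ℚ K)] at hxy e3
  simp only [map_add, map_mul, map_ofNat] at hxy e3
  have h2' : (2 : K) ≠ 0 := two_ne_zero
  apply mul_left_cancel₀ h2'
  linear_combination hxy - hx - hy - 2 * e3 + 2 * e1 + 2 * e2

/-- the discriminant of a basis is a square -/
lemma discr_sq (h2 : finrank ℚ K = 2) (b : Fin 2 → K) :
    ∃ s : K, s ^ 2 = algebraMap ℚ K (Algebra.discr ℚ b) := by
  refine ⟨b 0 * (algebraMap ℚ K (Algebra.trace ℚ K (b 1)) - b 1) -
    b 1 * (algebraMap ℚ K (Algebra.trace ℚ K (b 0)) - b 0), ?_⟩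
  rw [Algebra.discr_def, Matrix.det_fin_two]
  simp only [Algebra.traceMatrix_apply, Algebra.traceForm_apply, map_sub, map_mul]
  have e1 := trace_mul' h2 (b 0) (b 0)
  have e2 := trace_mul' h2 (b 1) (b 1)
  have e3 := trace_mul' h2 (b 0) (b 1)
  have e4 := trace_mul' h2 (b 1) (b 0)
  rw [e1, e2, e3, e4]
  ring

/-- **the discriminant of a quadratic field is a square in the field** -/
theorem discr_sqrt (h2 : finrank ℚ K = 2) : ∃ s : K, s ^ 2 = (NumberField.discr K : K) := by
  have hc : Fintype.card (Free.ChooseBasisIndex ℤ (NumberField.RingOfIntegers K)) = 2 := by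
    rw [← Module.finrank_eq_card_chooseBasisIndex, NumberField.RingOfIntegers.rank, h2]
  let e : Free.ChooseBasisIndex ℤ (NumberField.RingOfIntegers K) ≃ Fin 2 := Fintype.equivFinOfCardEq hc
  obtain ⟨s, hs⟩ := discr_sq h2 ((NumberField.integralBasis K).reindex e)
  refine ⟨s, ?_⟩
  rw [hs]
  have h3 : Algebra.discr ℚ ((NumberField.integralBasis K).reindex e) =
      Algebra.discr ℚ (NumberField.integralBasis K) := by
    rw [Basis.coe_reindex]
    exact Algebra.discr_reindex ℚ (NumberField.integralBasis K) e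
  rw [h3, ← NumberField.coe_discr]
  simp

end

end Pool.Agent.T2h79.XM
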