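import Pool.Agent.T2h79.XM.S2
import Pool.Agent.N848.Q.J

/-!
# The linear algebra of the two descent maps
-/

set_option autoImplicit false
set_option linter.unusedVariables false
set_option linter.unusedSectionVars false

namespace Pool.Agent.T2h79.XM

open Finset
open Pool.Agent.Y703.CQ (nr)
open Pool.Agent.N973.ND (uu)
open Pool.Agent.N916.GB (Po sy Vt Gd z2 z2_add_self z2_sq nr_recip z2_eq_of_add)
open Pool.Agent.N848.Q hiding star

open Pool.Agent.N848.Q renaming star → st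

open scoped Classical

/-- no factorization of second kind of the discriminant of `ℚ(√-m)` except the trivial one -/
def Cond (m : ℕ) : Prop := ∀ a b : ℤ, a * b = -(m : ℤ) →
  (a % 8 = 1 ∨ (m % 8 = 7 ∧ a % 8 = 5)) → Cd a b → a = 1 ∨ b = 1

lemma ns_sq {q : ℕ} {a : ℤ} : ns q a = 0 ↔ Sq q a := ns_zero

lemma cd_symm {a b : ℤ} (h : Cd a b) : Cd b a := fun q hq hq2 =>
  ⟨fun h1 => (h q hq hq2).2 h1, fun h1 => (h q hq hq2).1 h1⟩

lemma mod8a {b d : ℤ} (h5 : d % 8 = 5) (h : (b * d) % 8 = 5) : b % 8 = 1 := by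
  rcases (by omega : b % 8 = 0 ∨ b % 8 = 1 ∨ b % 8 = 2 ∨ b % 8 = 3 ∨ b % 8 = 4 ∨ b % 8 = 5 ∨
    b % 8 = 6 ∨ b % 8 = 7) with h8 | h8 | h8 | h8 | h8 | h8 | h8 | h8 <;>
    simp [Int.mul_emod, h8, h5] at h ⊢

lemma mod8b {b d : ℤ} (hd : d % 2 = 1) (h : (b * d) % 8 = d % 8) : b % 8 = 1 := by
  rcases (by omega : b % 8 = 0 ∨ b % 8 = 1 ∨ b % 8 = 2 ∨ b % 8 = 3 ∨ b % 8 = 4 ∨ b % 8 = 5 ∨
    b % 8 = 6 ∨ b % 8 = 7) with h8 | h8 | h8 | h8 | h8 | h8 | h8 | h8 <;>
    rcases (by omega : d % 8 = 1 ∨ d % 8 = 3 ∨ d % 8 = 5 ∨ d % 8 = 7) with h9 | h9 | h9 | h9 <;>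
    simp [Int.mul_emod, h8, h9] at h ⊢

lemma mod8c {b e : ℤ} (h : (b * e * e) % 8 = 1) : b % 8 = 1 := by
  rcases (by omega : b % 8 = 0 ∨ b % 8 = 1 ∨ b % 8 = 2 ∨ b % 8 = 3 ∨ b % 8 = 4 ∨ b % 8 = 5 ∨
    b % 8 = 6 ∨ b % 8 = 7) with h8 | h8 | h8 | h8 | h8 | h8 | h8 | h8 <;>
    rcases (by omega : e % 8 = 0 ∨ e % 8 = 1 ∨ e % 8 = 2 ∨ e % 8 = 3 ∨ e % 8 = 4 ∨ e % 8 = 5 ∨
    e % 8 = 6 ∨ e % 8 = 7) with h9 | h9 | h9 | h9 | h9 | h9 | h9 | h9 <;>
    simp [Int.mul_emod, h8, h9] at h ⊢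

/-- the first descent map -/
theorem r1 {m : ℕ} (hm : Squarefree m) (hC : Cond m) {d : ℤ} (hd : d ∣ (m : ℤ))
    (h3 : (m : ℤ) % 4 = 3 → d % 4 = 1) (h1 : (m : ℤ) % 4 = 1 → d % 8 = 1 ∨ (d + m) % 8 = 0)
    (h2 : (m : ℤ) % 2 = 0 → (d % 2 = 1 → d % 8 = 1) ∧
      (d % 2 = 0 → ((m : ℤ) / 2 * (d / 2) + 1) % 8 = 0))
    (hodd : (m : ℤ) % 2 = 1 → d % 2 = 1)
    (hloc : ∀ p : ℕ, p.Prime → p ≠ 2 → ∀ m' : ℤ, (m : ℤ) = p * m' →
      (¬ (p : ℤ) ∣ d → Sq p d) ∧ ∀ d', d = p * d' → Sq p (-m' * d')) : d = 1 ∨ d = -m := by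
  obtain ⟨b, hb⟩ := hd
  have hsq : Squarefree (m : ℤ) := Int.squarefree_natCast.2 hm
  have hd0 : d ≠ 0 := by
    rintro rfl
    apply hsq.ne_zero
    rw [hb, zero_mul]
  have hcd : Cd d (-b) := by
    intro q hq hq2
    have hqq : Prime (q : ℤ) := Nat.prime_iff_prime_int.1 hq
    constructor
    · intro h
      obtain ⟨b', hb'⟩ : (q : ℤ) ∣ b := (dvd_neg).1 h
      have hqd : ¬ (q : ℤ) ∣ d := by
        rintro ⟨d', hd'⟩
        exact hqq.not_isUnit (hsq q ⟨d' * b', by rw [hb, hd', hb']; ring⟩)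
      exact (hloc q hq hq2 (d * b') (by rw [hb, hb']; ring)).1 hqd
    · rintro ⟨d', hd'⟩
      have hqd' : ¬ (q : ℤ) ∣ d' := by
        rintro ⟨d'', hd''⟩
        exact hqq.not_isUnit (hsq q ⟨d'' * b, by rw [hb, hd', hd'']; ring⟩)
      have h4 := (hloc q hq hq2 (d' * b) (by rw [hb, hd']; ring)).2 d' hd'
      have h5 : Sq q (-b * d' ^ 2) := by
        have : -b * d' ^ 2 = -(d' * b) * d' := by ring
        rw [this]; exact h4
      exact sq_cancel hq hqd' h5
  have hab : d * (-b) = -(m : ℤ) := by rw [hb]; ring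
  have hfin : d = 1 ∨ -b = 1 → d = 1 ∨ d = -m := by
    rintro (h | h)
    · exact Or.inl h
    · right
      rw [← hab, h, mul_one]
  have hfin' : -b = 1 ∨ d = 1 → d = 1 ∨ d = -m := fun h => hfin h.symm
  have hab' : -b * d = -(m : ℤ) := by rw [hb]; ring
  rcases (by omega : (m : ℤ) % 4 = 3 ∨ (m : ℤ) % 4 = 1 ∨ (m : ℤ) % 2 = 0) with h | h | h
  · have h4 := h3 h
    rcases (by omega : d % 8 = 1 ∨ d % 8 = 5) with h5 | h5
    · exact hfin (hC d (-b) hab (Or.inl h5) hcd)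
    · rcases (by omega : (m : ℤ) % 8 = 7 ∨ (m : ℤ) % 8 = 3) with h6 | h6
      · exact hfin (hC d (-b) hab (Or.inr ⟨by omega, h5⟩) hcd)
      · refine hfin' (hC (-b) d hab' (Or.inl ?_) (cd_symm hcd))
        exact mod8a h5 (by rw [hab']; omega)
  · rcases h1 h with h5 | h5
    · exact hfin (hC d (-b) hab (Or.inl h5) hcd)
    · refine hfin' (hC (-b) d hab' (Or.inl ?_) (cd_symm hcd))
      exact mod8b (hodd (by omega)) (by rw [hab']; omega)
  · rcases (by omega : d % 2 = 1 ∨ d % 2 = 0) with h4 | h4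
    · exact hfin (hC d (-b) hab (Or.inl ((h2 h).1 h4)) hcd)
    · refine hfin' (hC (-b) d hab' (Or.inl ?_) (cd_symm hcd))
      have h5 := (h2 h).2 h4
      obtain ⟨e, he⟩ : ∃ e, d = 2 * e := ⟨d / 2, by omega⟩
      have e1 : (m : ℤ) / 2 = e * b := by
        rw [hb, he]
        have : 2 * e * b = 2 * (e * b) := by ring
        rw [this]; omega
      have e2 : d / 2 = e := by omega
      rw [e1, e2] at h5
      -- `e² b = -1` modulo 8
      refine mod8c (e := e) ?_
      have : -b * e * e = 1 - (e * b * e + 1) := by ring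
      rw [this]; omega

/-! ### the second map -/

section

variable {n : ℕ} {t : Bool} {r s : ZMod 2}

/-- the sum of all the columns -/
lemma sum_Lk (S : Finset ℕ) (x : ℕ → ZMod 2) : ∑ p ∈ Vt t S, Lk t r s S x p = 0 := by
  have h1 : ∑ p ∈ Vt t S, Lk t r s S x p =
      ∑ p ∈ Vt t S, ∑ q ∈ Vt t S, (if q = p then 0 else x q * sy r s q p) +
      ∑ p ∈ Vt t S, ∑ q ∈ Vt t S, (if q = p then 0 else x p * sy r s p q) := by
    rw [← sum_add_distrib]
    refine sum_congr rfl fun p _ => ?_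
    unfold Lk
    rw [← sum_add_distrib]
    refine sum_congr rfl fun q _ => ?_
    split_ifs
    · rw [add_zero]
    · rfl
  have h2 : ∑ p ∈ Vt t S, ∑ q ∈ Vt t S, (if q = p then 0 else x p * sy r s p q) =
      ∑ p ∈ Vt t S, ∑ q ∈ Vt t S, (if q = p then 0 else x q * sy r s q p) := by
    rw [sum_comm]
    refine sum_congr rfl fun p _ => sum_congr rfl fun q _ => ?_
    by_cases h : q = p
    · rw [if_pos h, if_pos h.symm]
    · rw [if_neg h, if_neg (Ne.symm h)]
  rw [h1, h2, z2_add_self]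

lemma ns_prod_ite {q : ℕ} (hq : Po q) (T : Finset ℕ) (hT : ∀ p ∈ T, Po p) (h : q ∉ T) :
    ns q (∏ p ∈ T, (p : ℤ)) = ∑ p ∈ T, nr p q + (∑ p ∈ T, uu p) * uu q := by
  have hnd : ¬ (q : ℤ) ∣ ∏ p ∈ T, st p := not_dvd_prod_star hq T hT h
  have h1 := ns_prod_star hq T hT h
  have hq1 : ¬ (q : ℤ) ∣ -1 := by
    rw [dvd_neg]
    intro h2
    exact hq.1.one_lt.ne' (Nat.dvd_one.1 (by exact_mod_cast h2))
  rw [prod_star_sign] at h1 hnd
  rcases z2 (∑ p ∈ T, uu p) with h2 | h2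
  · rw [if_pos h2, one_mul] at h1
    rw [h1, h2, zero_mul, add_zero]
  · rw [if_neg (by rw [h2]; exact one_ne_zero)] at h1 hnd
    have hnd' : ¬ (q : ℤ) ∣ ∏ p ∈ T, (p : ℤ) := fun h => hnd (h.mul_left _)
    rw [ns_mul hq.1 hq1 hnd', ns_neg_one hq.1] at h1
    rw [← h1, h2, one_mul]
    linear_combination (-(uu q)) * two0

theorem r2 (hn : Squarefree n) (h4 : n % 4 = if s = 0 then 3 else 1)
    (hok : t = false → r = 0 ∧ s = 0) (hG : Gd t r s n.primeFactors)
    (hne : n ≠ 1 ∨ (t = true ∧ r = 1))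
    {e : ℤ} (he : Squarefree e) (he0 : 0 < e) (hdvd : e ∣ 2 * (n : ℤ)) (he2 : t = false → e % 2 = 1)
    (hloc : ∀ p ∈ n.primeFactors, ∀ m' : ℤ, (((if r = 1 then 2 * n else n : ℕ)) : ℤ) = p * m' →
      (¬ (p : ℤ) ∣ e → Sq p e) ∧ ∀ e', e = p * e' → Sq p (m' * e')) :
    e = 1 ∨ e = ((if r = 1 then 2 * n else n : ℕ) : ℤ) := by
  set S := n.primeFactors with hSdef
  have hS : ∀ p ∈ S, Po p := po_of (odd_of h4)
  have hU : ∑ p ∈ S, uu p = 1 + s := uu_of hn h4
  set M : ℕ := if r = 1 then 2 * n else n with hM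
  have hMof : Dl r s * ∏ p ∈ S, st p = -(M : ℤ) := M_of hn h4
  set T : Finset ℕ := S.filter (fun p : ℕ => ((p : ℕ) : ℤ) ∣ e) with hT
  have hTS : T ⊆ S := filter_subset _ _
  have h2T : (2 : ℕ) ∉ T := fun h => (hS 2 (hTS h)).2 rfl
  set x2 : ZMod 2 := if (2 : ℤ) ∣ e then 1 else 0 with hx2
  set x : ℕ → ZMod 2 := fun p => if (p : ℤ) ∣ e then 1 else 0 with hx
  have hxT : ∀ p ∈ S, x p = if p ∈ T then 1 else 0 := by
    intro p hp
    simp only [hx, hT, mem_filter, hp, true_and]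
  have hx22 : x 2 = x2 := rfl
  -- the value of `e`
  have heT : e = (if (2 : ℤ) ∣ e then 2 else 1) * ∏ p ∈ T, (p : ℤ) := by
    have h1 : (e.natAbs : ℤ) = e := Int.natAbs_of_nonneg he0.le
    have hsq : Squarefree e.natAbs := Int.squarefree_natAbs.2 he
    have hT2 : e.natAbs.primeFactors = (if (2 : ℤ) ∣ e then insert 2 T else T) := by
      ext p
      rw [Nat.mem_primeFactors]
      have hpe : ∀ {p : ℕ}, p ∣ e.natAbs ↔ (p : ℤ) ∣ e := fun {p} => Int.natCast_dvd.symm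
      have h3 : ∀ p : ℕ, p.Prime → p ≠ 2 → (p : ℤ) ∣ e → p ∈ T := by
        intro p hp hp2 h
        rw [hT, mem_filter, hSdef, Nat.mem_primeFactors]
        refine ⟨⟨hp, ?_, hn.ne_zero⟩, h⟩
        have h4 : (p : ℤ) ∣ 2 * (n : ℤ) := h.trans hdvd
        have h5 : p ∣ 2 * n := by exact_mod_cast h4
        rcases hp.dvd_mul.1 h5 with h6 | h6
        · exact absurd ((Nat.prime_dvd_prime_iff_eq hp Nat.prime_two).1 h6) hp2
        · exact h6
      have h3' : ∀ p ∈ T, p.Prime ∧ (p : ℤ) ∣ e := fun p hp =>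
        ⟨(hS p (hTS hp)).1, (mem_filter.1 hp).2⟩
      have hne0 : e.natAbs ≠ 0 := hsq.ne_zero
      by_cases h2 : (2 : ℤ) ∣ e
      · rw [if_pos h2, mem_insert]
        constructor
        · rintro ⟨h5, h6, -⟩
          by_cases hp2 : p = 2
          · exact Or.inl hp2
          · exact Or.inr (h3 p h5 hp2 (hpe.1 h6))
        · rintro (rfl | h5)
          · exact ⟨Nat.prime_two, hpe.2 h2, hne0⟩
          · exact ⟨(h3' p h5).1, hpe.2 (h3' p h5).2, hne0⟩
      · rw [if_neg h2]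
        constructor
        · rintro ⟨h5, h6, -⟩
          by_cases hp2 : p = 2
          · subst hp2
            exact absurd (hpe.1 h6) h2
          · exact h3 p h5 hp2 (hpe.1 h6)
        · intro h5
          exact ⟨(h3' p h5).1, hpe.2 (h3' p h5).2, hne0⟩
    have h5 : (e.natAbs : ℤ) = ∏ p ∈ e.natAbs.primeFactors, (p : ℤ) := by
      rw [← Nat.cast_prod, Nat.prod_primeFactors_of_squarefree hsq]
    rw [hT2, h1] at h5
    by_cases h2 : (2 : ℤ) ∣ e
    · rw [if_pos h2, prod_insert h2T] at h5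
      rw [if_pos h2]
      exact_mod_cast h5
    · rw [if_neg h2] at h5
      rw [if_neg h2, one_mul]
      exact h5
  -- the symbols of `2^{x2}`
  have hns2 : ∀ q : ℕ, Po q → ns q (if (2 : ℤ) ∣ e then 2 else 1) = x2 * nr q 2 := by
    intro q hq
    by_cases h2 : (2 : ℤ) ∣ e
    · rw [if_pos h2, hx2, if_pos h2, one_mul]
      exact ns_nat q 2
    · rw [if_neg h2, hx2, if_neg h2, zero_mul, ns_one]
  have hnd2 : ∀ q : ℕ, Po q → ¬ (q : ℤ) ∣ (if (2 : ℤ) ∣ e then 2 else 1) := by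
    intro q hq
    by_cases h2 : (2 : ℤ) ∣ e
    · rw [if_pos h2]
      intro h
      exact hq.2 ((Nat.prime_dvd_prime_iff_eq hq.1 Nat.prime_two).1 (by exact_mod_cast h))
    · rw [if_neg h2]
      intro h
      exact hq.1.one_lt.ne' (Nat.dvd_one.1 (by exact_mod_cast h))
  have hndp : ∀ q : ℕ, Po q → ∀ T' : Finset ℕ, (∀ p ∈ T', Po p) → q ∉ T' →
      ¬ (q : ℤ) ∣ ∏ p ∈ T', (p : ℤ) := by
    intro q hq T' hT' hqT h
    obtain ⟨p, hp, h3⟩ := ((Nat.prime_iff_prime_int.1 hq.1).dvd_finsetProd_iff _).1 h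
    have h6 := (Nat.prime_dvd_prime_iff_eq hq.1 (hT' p hp).1).1 (by exact_mod_cast h3)
    exact hqT (h6 ▸ hp)
  have hxl : ∀ p ∈ S, Lk t r s S x p = 0 := by
    intro p hp
    have hp' := hS p hp
    rw [Lk_odd hS x hp, sum_Vt hS]
    have h1 : ∑ q ∈ S, (x q + x p) * sy r s p q =
        ∑ q ∈ S, ((if q ∈ T then (1 : ZMod 2) else 0) + (if p ∈ T then 1 else 0)) * sy r s p q := by
      refine sum_congr rfl fun q hq => ?_
      rw [hxT q hq, hxT p hp]
    have h2 : ∑ q ∈ S, uu q * x q = ∑ q ∈ T, uu q := by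
      rw [hT, sum_filter]
      refine sum_congr rfl fun q hq => ?_
      simp only [hx]
      split_ifs
      · rw [mul_one]
      · rw [mul_zero]
    have h3 := row_eq (r := r) (s := s) hS hok hTS hp
    rw [sum_Vt hS, if_neg h2T] at h3
    rw [h1, h2, hxT p hp, hx22, sy_two]
    rw [sy_two] at h3
    by_cases hpT : p ∈ T
    · rw [if_pos hpT] at h3 ⊢
      rw [if_pos hpT] at h3
      -- `e = p e'`
      obtain ⟨e', he'⟩ : (p : ℤ) ∣ e := (mem_filter.1 hpT).2
      have hpn : p ∣ n := Nat.dvd_of_mem_primeFactors hp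
      obtain ⟨m', hm'⟩ : (p : ℤ) ∣ (M : ℤ) := by
        rw [hM]
        split_ifs
        · exact_mod_cast hpn.mul_left 2
        · exact_mod_cast hpn
      have h5 := (hloc p hp m' hm').2 e' he'
      have hpp : Prime (p : ℤ) := Nat.prime_iff_prime_int.1 hp'.1
      -- `2^{x2} m' e' = - sign * D2 * e'^2`
      set Q := Dl r s * ∏ q ∈ S \ T, st q with hQ
      have hQnd : ¬ (p : ℤ) ∣ Q := by
        rw [hQ]
        intro h
        rcases hpp.dvd_or_dvd h with h | h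
        · exact not_dvd_Dl hp' h
        · exact not_dvd_prod_star hp' _ (fun q hq => hS q (mem_sdiff.1 hq).1)
            (fun h => (mem_sdiff.1 h).2 hpT) h
      have hQM : Q * ∏ q ∈ T, st q = -(M : ℤ) := by
        rw [← hMof, hQ, ← prod_sdiff hTS]
        ring
      rw [prod_star_sign] at hQM
      have he'nd : ¬ (p : ℤ) ∣ e' := by
        rintro ⟨f, hf⟩
        exact hpp.not_isUnit (he p ⟨f, by rw [he', hf]; ring⟩)
      have hm'nd : ¬ (p : ℤ) ∣ m' := by
        rintro ⟨f, hf⟩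
        have h6 : p * p ∣ M := by
          have : ((p * p : ℕ) : ℤ) ∣ (M : ℤ) := by
            rw [hm', hf]; push_cast; exact ⟨f, by ring⟩
          exact_mod_cast this
        have h7 : p * p ∣ n := by
          rw [hM] at h6
          split_ifs at h6
          · refine (Nat.Coprime.dvd_of_dvd_mul_left ?_ h6)
            have : Nat.Coprime p 2 := (Nat.coprime_primes hp'.1 Nat.prime_two).2 hp'.2
            exact Nat.Coprime.mul_left this this
          · exact h6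
        exact hp'.1.prime.not_isUnit (hn p h7)
      have h8 : (if (2 : ℤ) ∣ e then (2 : ℤ) else 1) * (m' * e') =
          (-1) * (if ∑ q ∈ T, uu q = 0 then (1 : ℤ) else -1) * Q * e' ^ 2 := by
        set σ : ℤ := if ∑ q ∈ T, uu q = 0 then (1 : ℤ) else -1 with hσ
        set τ : ℤ := if (2 : ℤ) ∣ e then (2 : ℤ) else 1 with hτ
        set P0 := ∏ q ∈ T, (q : ℤ) with hP0
        -- `Q σ P0 = - p m'`, `p e' = τ P0`
        have h9 : (p : ℤ) * (τ * (m' * e')) = p * ((-1) * σ * Q * e' ^ 2) := by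
          have e1 : Q * (σ * P0) = -(p * m') := by rw [← hm']; exact hQM
          have e2 : (p : ℤ) * e' = τ * P0 := by rw [← he']; exact heT
          linear_combination (τ * e') * e1 + (Q * σ * e') * e2
        exact mul_left_cancel₀ hpp.ne_zero h9
      have h10 := congrArg (ns p) h8
      have hneg1 : ¬ (p : ℤ) ∣ -1 := by
        rw [dvd_neg]
        intro h2
        exact hp'.1.one_lt.ne' (Nat.dvd_one.1 (by exact_mod_cast h2))
      have nd2 : ∀ {a b : ℤ}, ¬ (p : ℤ) ∣ a → ¬ (p : ℤ) ∣ b → ¬ (p : ℤ) ∣ a * b :=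
        fun ha hb h => (hpp.dvd_or_dvd h).elim ha hb
      have hσnd : ¬ (p : ℤ) ∣ (if ∑ q ∈ T, uu q = 0 then (1 : ℤ) else -1) := by
        split_ifs
        · rwa [dvd_neg] at hneg1
        · exact hneg1
      have hσns : ns p (if ∑ q ∈ T, uu q = 0 then (1 : ℤ) else -1) = (∑ q ∈ T, uu q) * uu p := by
        rcases z2 (∑ q ∈ T, uu q) with h | h
        · rw [h, if_pos rfl, ns_one, zero_mul]
        · rw [h, if_neg one_ne_zero, ns_neg_one hp'.1, one_mul]
      rw [ns_mul hp'.1 (hnd2 p hp') (nd2 hm'nd he'nd), hns2 p hp', ns_sq.2 h5, add_zero,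
        ns_mul hp'.1 (nd2 (nd2 hneg1 hσnd) hQnd) (fun h => he'nd (hpp.dvd_of_dvd_pow h)),
        ns_mul hp'.1 (nd2 hneg1 hσnd) hQnd, ns_mul hp'.1 hneg1 hσnd, hσns,
        ns_neg_one hp'.1, ns_sq.2 (sq_sq e'), add_zero] at h10
      -- combine
      by_cases ht : t = true
      · rw [if_pos ht, if_pos ht]
        rw [if_pos ht] at h3
        linear_combination h3 + h10 + (x2 * (r * nr p 2 + s * uu p)) * two0 +
          ((∑ q ∈ T, uu q) * uu p + uu p + ns p Q) * two0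
      · obtain ⟨hr, hs⟩ := hok (by simpa using ht)
        rw [if_neg ht, if_neg ht]
        rw [if_neg ht] at h3
        have hx20 : x2 = 0 := by
          rw [hx2, if_neg]
          intro h
          have := he2 (by simpa using ht)
          omega
        rw [hx20] at h10
        linear_combination h3 + h10 + ((∑ q ∈ T, uu q) * uu p + uu p + ns p Q) * two0
    · rw [if_neg hpT] at h3 ⊢
      rw [if_neg hpT] at h3
      have hpe : ¬ (p : ℤ) ∣ e := fun h => hpT (mem_filter.2 ⟨hp, h⟩)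
      have hpn : p ∣ n := Nat.dvd_of_mem_primeFactors hp
      obtain ⟨m', hm'⟩ : (p : ℤ) ∣ (M : ℤ) := by
        rw [hM]
        split_ifs
        · exact_mod_cast hpn.mul_left 2
        · exact_mod_cast hpn
      have h5 := (hloc p hp m' hm').1 hpe
      have h6 : ns p e = x2 * nr p 2 + (∑ q ∈ T, nr q p + (∑ q ∈ T, uu q) * uu p) := by
        conv_lhs => rw [heT]
        rw [ns_mul hp'.1 (hnd2 p hp') (hndp p hp' T (fun q hq => hS q (hTS hq)) hpT),
          hns2 p hp', ns_prod_ite hp' T (fun q hq => hS q (hTS hq)) hpT]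
      rw [ns_sq.2 h5] at h6
      rw [ns_prod_star hp' T (fun q hq => hS q (hTS hq)) hpT] at h3
      by_cases ht : t = true
      · rw [if_pos ht, if_pos ht]
        rw [if_pos ht] at h3
        linear_combination h3 - h6 + (x2 * (r * nr p 2 + s * uu p)) * two0
      · rw [if_neg ht, if_neg ht]
        rw [if_neg ht] at h3
        have hx20 : x2 = 0 := by
          rw [hx2, if_neg]
          intro h
          have := he2 (by simpa using ht)
          omega
        rw [hx20] at h6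
        linear_combination h3 - h6
  have hxl' : ∀ p ∈ Vt t S, Lk t r s S x p = 0 := by
    intro p hp
    rcases mem_Vt.1 hp with ⟨ht, rfl⟩ | hp
    · have h1 := sum_Lk (t := t) (r := r) (s := s) S x
      rw [sum_Vt hS, if_pos ht, sum_eq_zero hxl, add_zero] at h1
      exact h1
    · exact hxl p hp
  have hy := gen_left (r := r) (s := s) hS hok hU
  -- the generator is not zero
  obtain ⟨p₀, hp₀, hy0⟩ : ∃ p₀ ∈ Vt t S, (fun q => if q = 2 then r else (1 : ZMod 2)) p₀ ≠ 0 := by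
    rcases hne with h | ⟨ht, hr⟩
    · obtain ⟨p, hp⟩ := (Nat.nonempty_primeFactors.2 (by
        have := hn.ne_zero
        omega : 1 < n))
      refine ⟨p, mem_Vt.2 (Or.inr hp), ?_⟩
      simp only
      rw [if_neg (hS p hp).2]
      exact one_ne_zero
    · refine ⟨2, mem_Vt.2 (Or.inl ⟨ht, rfl⟩), ?_⟩
      simp [hr]
  have h2n : (2 : ℤ) ∣ e → t = true := by
    intro h
    by_contra ht
    have := he2 (by simpa using ht)
    omega
  rcases left_two hG hxl' hy hp₀ hy0 with h | h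
  · left
    have hT0 : T = ∅ := by
      rw [hT, filter_eq_empty_iff]
      intro p hp hpe
      have := h p (mem_Vt.2 (Or.inr hp))
      simp only [hx, if_pos hpe] at this
      exact one_ne_zero this
    have h20 : ¬ (2 : ℤ) ∣ e := by
      intro h2
      have h3 := h 2 (mem_Vt.2 (Or.inl ⟨h2n h2, rfl⟩))
      rw [hx22, hx2, if_pos h2] at h3
      exact one_ne_zero h3
    rw [heT, hT0, if_neg h20, prod_empty, one_mul]
  · right
    have hTS' : T = S := by
      rw [hT, filter_eq_self]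
      intro p hp
      have h3 := h p (mem_Vt.2 (Or.inr hp))
      rw [if_neg (hS p hp).2] at h3
      by_contra hpe
      simp only [hx, if_neg hpe] at h3
      exact zero_ne_one h3
    have hprod : ∏ p ∈ S, (p : ℤ) = n := by
      rw [← Nat.cast_prod, hSdef, Nat.prod_primeFactors_of_squarefree hn]
    rw [heT, hTS', hprod, hM]
    by_cases ht : t = true
    · have h3 := h 2 (mem_Vt.2 (Or.inl ⟨ht, rfl⟩))
      rw [hx22, hx2, if_pos rfl] at h3
      by_cases h2 : (2 : ℤ) ∣ e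
      · rw [if_pos h2] at h3 ⊢
        rw [if_pos h3.symm]
        push_cast
        ring
      · rw [if_neg h2] at h3 ⊢
        rw [if_neg (by rw [← h3]; exact zero_ne_one)]
        ring
    · have h2 : ¬ (2 : ℤ) ∣ e := fun h => ht (h2n h)
      obtain ⟨hr, hs⟩ := hok (by simpa using ht)
      rw [if_neg h2, if_neg (by rw [hr]; exact zero_ne_one)]
      ring

end

end Pool.Agent.T2h79.XM
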