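import Pool.Agent.T2h79.XM.Two

/-!
# The first descent map
-/

set_option autoImplicit false
set_option linter.unusedVariables false
set_option linter.unusedSectionVars false

namespace Pool.Agent.T2h79.XM

/-- the decomposition at a prime -/
lemma dec {p : ℕ} (hp : p.Prime) {a d k : ℤ} (ha : a ≠ 0) (had : a = d * k ^ 2)
    (hd : Squarefree d) : ∃ (α : ℕ) (u k' : ℤ), a = (p : ℤ) ^ α * u ∧ ¬ (p : ℤ) ∣ u ∧
      ¬ (p : ℤ) ∣ k' ∧ ((Even α ∧ ¬ (p : ℤ) ∣ d ∧ u = d * k' ^ 2) ∨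
        (¬ Even α ∧ ∃ d', d = p * d' ∧ ¬ (p : ℤ) ∣ d' ∧ u = d' * k' ^ 2)) := by
  have hpp : Prime (p : ℤ) := Nat.prime_iff_prime_int.1 hp
  have hk0 : k ≠ 0 := by rintro rfl; apply ha; rw [had]; ring
  have hf : FiniteMultiplicity (p : ℤ) k := by
    rw [Int.finiteMultiplicity_iff]
    refine ⟨?_, hk0⟩
    rw [Int.natAbs_natCast]
    exact hp.one_lt.ne'
  obtain ⟨k', hk', hk''⟩ := hf.exists_eq_pow_mul_and_not_dvd
  set κ := multiplicity (p : ℤ) k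
  have nd2 : ∀ {a b : ℤ}, ¬ (p : ℤ) ∣ a → ¬ (p : ℤ) ∣ b → ¬ (p : ℤ) ∣ a * b :=
    fun ha hb h => (hpp.dvd_or_dvd h).elim ha hb
  have hk2 : ¬ (p : ℤ) ∣ k' ^ 2 := fun h => hk'' (hpp.dvd_of_dvd_pow h)
  by_cases hpd : (p : ℤ) ∣ d
  · obtain ⟨d', rfl⟩ := hpd
    have hd' : ¬ (p : ℤ) ∣ d' := by
      rintro ⟨e, rfl⟩
      have := hd (p : ℤ) ⟨e, by ring⟩
      exact hpp.not_isUnit this
    refine ⟨2 * κ + 1, d' * k' ^ 2, k', ?_, nd2 hd' hk2, hk'', Or.inr ⟨?_, d', rfl, hd', rfl⟩⟩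
    · rw [had, hk']; ring
    · simp [Nat.even_add]
  · refine ⟨2 * κ, d * k' ^ 2, k', ?_, nd2 hpd hk2, hk'', Or.inl ⟨even_two_mul κ, hpd, rfl⟩⟩
    rw [had, hk']; ring

/-- a squarefree number divides `m` if its primes do -/
lemma dvd_of_primes {d m : ℤ} (hd : Squarefree d) (h : ∀ p : ℕ, p.Prime → (p : ℤ) ∣ d → (p : ℤ) ∣ m) :
    d ∣ m := by
  rw [← Int.natAbs_dvd_natAbs]
  have h1 : Squarefree d.natAbs := Int.squarefree_natAbs.2 hd
  rw [← Nat.prod_primeFactors_of_squarefree h1]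
  refine Finset.prod_primes_dvd _ (fun p hp => (Nat.prime_of_mem_primeFactors hp).prime)
    fun p hp => ?_
  have h2 := h p (Nat.prime_of_mem_primeFactors hp)
    (Int.natCast_dvd.2 (Nat.dvd_of_mem_primeFactors hp))
  exact Int.natCast_dvd.1 h2

lemma not_sq3 {m : ℤ} (h : m % 3 = 2) : ¬ Sq 3 m := by
  intro h1
  have e : (m : ZMod 3) = 2 := by
    have : (m : ZMod 3) = ((m % ((3 : ℕ) : ℤ) : ℤ) : ZMod 3) := (ZMod.intCast_mod m 3).symm
    rw [this, show m % ((3 : ℕ) : ℤ) = 2 from h]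
    rfl
  unfold Sq at h1
  rw [e] at h1
  revert h1
  decide

lemma not_sq5 {m : ℤ} (h : m % 5 = 2 ∨ m % 5 = 3) : ¬ Sq 5 m := by
  intro h1
  have e1 : (m : ZMod 5) = ((m % ((5 : ℕ) : ℤ) : ℤ) : ZMod 5) := (ZMod.intCast_mod m 5).symm
  unfold Sq at h1
  rw [e1] at h1
  rcases h with h | h
  · rw [show m % ((5 : ℕ) : ℤ) = 2 from h] at h1
    revert h1
    decide
  · rw [show m % ((5 : ℕ) : ℤ) = 3 from h] at h1
    revert h1
    decide

lemma mod3 {m : ℤ} (h : ¬ (3 : ℤ) ∣ m) (h3 : m % 3 ≠ 1) : m % 3 = 2 := by omega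

lemma mod5 {m : ℤ} (h : ¬ (5 : ℤ) ∣ m) (h5 : m % 5 ≠ 1) (h5' : m % 5 ≠ 4) :
    m % 5 = 2 ∨ m % 5 = 3 := by omega

lemma not_dvd_num {p : ℕ} (hp : p.Prime) {n : ℕ} (hn : ∀ q : ℕ, q.Prime → q ∣ n → p ≠ q) :
    ¬ (p : ℤ) ∣ (n : ℤ) := by
  intro h
  exact hn p hp (Int.natCast_dvd_natCast.1 h) rfl

section

variable {m a b c d k : ℤ} (hsq : Squarefree m) (hco : IsCoprime a b) (hc : c ≠ 0)
  (had : a = d * k ^ 2) (hd : Squarefree d)
  (h : a * (a + 9 * m * b ^ 2) * (a + 25 * m * b ^ 2) = c ^ 2)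

include hc h in
lemma a_ne : a ≠ 0 := by
  rintro rfl
  apply hc
  have : c ^ 2 = 0 := by rw [← h]; ring
  exact pow_eq_zero_iff (two_ne_zero) |>.1 this

include hco in
lemma b_ndvd {p : ℕ} (hp : p.Prime) (ha : (p : ℤ) ∣ a) : ¬ (p : ℤ) ∣ b := by
  intro hb
  have hpp : Prime (p : ℤ) := Nat.prime_iff_prime_int.1 hp
  exact hpp.not_isUnit (hco.isUnit_of_dvd' ha hb)

include hsq hco hc had hd h

/-- the odd primes not dividing `m` -/
lemma s1_unr {p : ℕ} (hp : p.Prime) (hp2 : p ≠ 2) (hpm : ¬ (p : ℤ) ∣ m)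
    (h3 : p = 3 → m % 3 ≠ 1) (h5 : p = 5 → m % 5 ≠ 1 ∧ m % 5 ≠ 4) : ¬ (p : ℤ) ∣ d := by
  have hpp : Prime (p : ℤ) := Nat.prime_iff_prime_int.1 hp
  obtain ⟨α, u, k', h1, h2, hk', h4⟩ := dec hp (a_ne hc h) had hd
  have nd2 : ∀ {a b : ℤ}, ¬ (p : ℤ) ∣ a → ¬ (p : ℤ) ∣ b → ¬ (p : ℤ) ∣ a * b :=
    fun ha hb h => (hpp.dvd_or_dvd h).elim ha hb
  have key : Even α → ¬ (p : ℤ) ∣ d := by
    intro he
    rcases h4 with h4 | h4
    · exact h4.2.1
    · exact absurd he h4.1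
  refine key ?_
  rcases Nat.eq_zero_or_pos α with h0 | h0
  · rw [h0]; exact Even.zero
  have hpa : (p : ℤ) ∣ a := by
    rw [h1]
    exact (dvd_pow_self _ h0.ne').mul_right _
  have hb : ¬ (p : ℤ) ∣ b := b_ndvd hco hp hpa
  have hp3 : (3 : ℤ) = ((3 : ℕ) : ℤ) := rfl
  have hp5 : (5 : ℤ) = ((5 : ℕ) : ℤ) := rfl
  by_cases h33 : p = 3
  · subst h33
    have hb5 : ¬ ((3 : ℕ) : ℤ) ∣ 5 * b := nd2 (by norm_num) hb
    refine core_three hp (α := α) (u := u) (x := m * (5 * b) ^ 2) (y := m * b ^ 2) (m := m)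
      (s1 := 5 * b) (s2 := b) (c := c) h0 h2 hb5 hb hpm ?_ rfl rfl ?_
    · exact not_sq3 (mod3 hpm (h3 rfl))
    · rw [← h1, ← h]
      push_cast
      ring
  · by_cases h55 : p = 5
    · subst h55
      have hb5 : ¬ ((5 : ℕ) : ℤ) ∣ 3 * b := nd2 (by norm_num) hb
      refine core_three hp (α := α) (u := u) (x := m * (3 * b) ^ 2) (y := m * b ^ 2) (m := m)
        (s1 := 3 * b) (s2 := b) (c := c) h0 h2 hb5 hb hpm ?_ rfl rfl ?_
      · exact not_sq5 (mod5 hpm (h5 rfl).1 (h5 rfl).2)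
      · rw [← h1, ← h]
        push_cast
        ring
    · have h9 : ¬ (p : ℤ) ∣ 3 * b := by
        refine nd2 (not_dvd_num (n := 3) hp ?_) hb
        intro q hq hq3
        rw [(Nat.prime_dvd_prime_iff_eq hq Nat.prime_three).1 hq3]
        exact h33
      have h25 : ¬ (p : ℤ) ∣ 5 * b := by
        refine nd2 (not_dvd_num (n := 5) hp ?_) hb
        intro q hq hq3
        rw [(Nat.prime_dvd_prime_iff_eq hq Nat.prime_five).1 hq3]
        exact h55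
      refine core_unr hp (α := α) (u := u) (x := m * (3 * b) ^ 2) (y := m * (5 * b) ^ 2) (c := c)
        h0 h2 (nd2 hpm fun h => h9 (hpp.dvd_of_dvd_pow h))
        (nd2 hpm fun h => h25 (hpp.dvd_of_dvd_pow h)) ?_
      rw [← h1, ← h]
      ring

/-- the odd primes dividing `m` -/
lemma s1_ram {p : ℕ} (hp : p.Prime) (hp2 : p ≠ 2) {m' : ℤ} (hpm : m = p * m') :
    (¬ (p : ℤ) ∣ d → Sq p d) ∧ ∀ d', d = p * d' → Sq p (-m' * d') := by
  have hpp : Prime (p : ℤ) := Nat.prime_iff_prime_int.1 hp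
  obtain ⟨α, u, k', h1, h2, hk', h4⟩ := dec hp (a_ne hc h) had hd
  have nd2 : ∀ {a b : ℤ}, ¬ (p : ℤ) ∣ a → ¬ (p : ℤ) ∣ b → ¬ (p : ℤ) ∣ a * b :=
    fun ha hb h => (hpp.dvd_or_dvd h).elim ha hb
  have hm' : ¬ (p : ℤ) ∣ m' := by
    rintro ⟨e, rfl⟩
    have := hsq (p : ℤ) ⟨e, by rw [hpm]; ring⟩
    exact hpp.not_isUnit this
  have key : (Even α ∧ Sq p u) ∨ (¬ Even α ∧ Sq p (-m' * u)) := by
    rcases Nat.eq_zero_or_pos α with h0 | h0
    · subst h0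
      left
      refine ⟨Even.zero, sq_cancel hp h2 ?_⟩
      have h5 : (p : ℤ) ∣ u * u ^ 2 - c ^ 2 := by
        have e : a = u := by rw [h1]; ring
        rw [← h, e, hpm]
        exact ⟨-(u * (m' * b ^ 2 * (9 * (u + 25 * p * m' * b ^ 2) + 25 * u))), by ring⟩
      exact (sq_congr h5).2 (sq_sq _)
    have hpa : (p : ℤ) ∣ a := by
      rw [h1]
      exact (dvd_pow_self _ h0.ne').mul_right _
    have hb : ¬ (p : ℤ) ∣ b := b_ndvd hco hp hpa
    by_cases h33 : p = 3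
    · subst h33
      have hb5 : ¬ ((3 : ℕ) : ℤ) ∣ 5 * b := nd2 (by norm_num) hb
      refine core_ram hp (α := α) (u := u) (x := m' * (5 * b) ^ 2) (y := m' * b ^ 2) (m' := m')
        (s1 := 5 * b) (s2 := b) (c := c) (ν := 3) (Or.inr rfl) h2 hm' hb5 hb rfl rfl h0 ?_
      rw [← h1, ← h, hpm]
      push_cast
      ring
    · by_cases h55 : p = 5
      · subst h55
        have hb5 : ¬ ((5 : ℕ) : ℤ) ∣ 3 * b := nd2 (by norm_num) hb
        refine core_ram hp (α := α) (u := u) (x := m' * (3 * b) ^ 2) (y := m' * b ^ 2) (m' := m')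
          (s1 := 3 * b) (s2 := b) (c := c) (ν := 3) (Or.inr rfl) h2 hm' hb5 hb rfl rfl h0 ?_
        rw [← h1, ← h, hpm]
        push_cast
        ring
      · have h9 : ¬ (p : ℤ) ∣ 3 * b := by
          refine nd2 (not_dvd_num (n := 3) hp ?_) hb
          intro q hq hq3
          rw [(Nat.prime_dvd_prime_iff_eq hq Nat.prime_three).1 hq3]
          exact h33
        have h25 : ¬ (p : ℤ) ∣ 5 * b := by
          refine nd2 (not_dvd_num (n := 5) hp ?_) hb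
          intro q hq hq3
          rw [(Nat.prime_dvd_prime_iff_eq hq Nat.prime_five).1 hq3]
          exact h55
        refine core_ram hp (α := α) (u := u) (x := m' * (3 * b) ^ 2) (y := m' * (5 * b) ^ 2)
          (m' := m') (s1 := 3 * b) (s2 := 5 * b) (c := c) (ν := 1) (Or.inl rfl) h2 hm' h9 h25
          rfl rfl h0 ?_
        rw [← h1, ← h, hpm]
        ring
  rcases h4 with ⟨he, h4, hu⟩ | ⟨he, d', hd', h4, hu⟩
  · refine ⟨fun _ => ?_, fun d' hd' => absurd (Dvd.intro _ hd'.symm) h4⟩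
    rcases key with ⟨_, h6⟩ | ⟨h6, _⟩
    · rw [hu] at h6
      exact sq_cancel hp hk' h6
    · exact absurd he h6
  · refine ⟨fun h => absurd (Dvd.intro _ hd'.symm) h, fun d'' hd'' => ?_⟩
    have e : d'' = d' := by
      have : (p : ℤ) * d'' = p * d' := by rw [← hd'', hd']
      exact mul_left_cancel₀ hpp.ne_zero this
    subst e
    rcases key with ⟨h6, _⟩ | ⟨_, h6⟩
    · exact absurd h6 he
    · rw [hu] at h6
      refine sq_cancel hp hk' (?_ : Sq p (-m' * d'' * k' ^ 2))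
      rw [mul_assoc]
      exact h6

/-- the prime two -/
lemma s1_two : (m % 2 = 1 → d % 2 = 1) ∧ (m % 4 = 3 → d % 4 = 1) ∧
    (m % 4 = 1 → d % 8 = 1 ∨ (d + m) % 8 = 0) ∧
    (m % 2 = 0 → (d % 2 = 1 → d % 8 = 1) ∧ (d % 2 = 0 → (m / 2 * (d / 2) + 1) % 8 = 0)) := by
  obtain ⟨α, u, k', h1, h2, hk', h4⟩ := dec Nat.prime_two (a_ne hc h) had hd
  have hu2 : u % 2 = 1 := by
    have : ¬ (2 : ℤ) ∣ u := h2
    omega
  have hk2 : k' % 2 = 1 := by
    have : ¬ (2 : ℤ) ∣ k' := hk'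
    omega
  have hm4 : m % 4 ≠ 0 := by
    intro h0
    have h6 := hsq 2 (by
      have : (4 : ℤ) ∣ m := by omega
      exact this)
    rw [Int.isUnit_iff] at h6
    omega
  have h0 : α = 0 ∨ b % 2 = 1 := by
    rcases Nat.eq_zero_or_pos α with h0 | h0
    · exact Or.inl h0
    · right
      have hpa : ((2 : ℕ) : ℤ) ∣ a := by
        rw [h1]
        exact (dvd_pow_self _ h0.ne').mul_right _
      have hb : ¬ (2 : ℤ) ∣ b := b_ndvd hco Nat.prime_two hpa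
      omega
  obtain ⟨c1, c2, c3, c4⟩ := core_two (α := α) (u := u) (m := m) (b := b) (c := c) hu2 h0 hm4 hc
    (by rw [← h, h1]; push_cast; ring)
  obtain ⟨t, ht⟩ : ∃ t, k' ^ 2 = 8 * t + 1 := ⟨k' ^ 2 / 8, by have := odd_sq hk2; omega⟩
  rcases h4 with ⟨he, h4, hu⟩ | ⟨he, d', hd', h4, hu⟩
  · have e : u = d + 8 * (d * t) := by rw [hu, ht]; ring
    have hd2 : d % 2 = 1 := by
      have : ¬ (2 : ℤ) ∣ d := h4
      omega
    refine ⟨fun _ => hd2, fun h => ?_, fun h => ?_, fun h => ⟨fun _ => ?_, fun h' => ?_⟩⟩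
    · have := c2 h; omega
    · rcases c3 h with h7 | h7
      · left; omega
      · right; omega
    · have := (c4 h).1 he; omega
    · omega
  · have e : u = d' + 8 * (d' * t) := by rw [hu, ht]; ring
    have hd2 : d % 2 = 0 := by rw [hd']; push_cast; omega
    have hm1 : m % 2 = 1 → False := fun h => he (c1 h)
    refine ⟨fun h => (hm1 h).elim, fun h => (hm1 (by omega)).elim, fun h => (hm1 (by omega)).elim,
      fun h => ⟨fun h' => by omega, fun _ => ?_⟩⟩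
    have h7 := (c4 h).2 he
    have e2 : d / 2 = d' := by rw [hd']; push_cast; omega
    rw [e2]
    have e3 : m / 2 * u + 1 = m / 2 * d' + 1 + 8 * (m / 2 * (d' * t)) := by rw [e]; ring
    rw [e3] at h7
    omega

/-- `d` divides `m` -/
lemma s1_dvd (h3 : m % 3 ≠ 1) (h5 : m % 5 ≠ 1) (h5' : m % 5 ≠ 4) : d ∣ m := by
  refine dvd_of_primes hd fun p hp hpd => ?_
  by_contra hpm
  by_cases hp2 : p = 2
  · subst hp2
    have h1 := (s1_two hsq hco hc had hd h).1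
    have h2 : ¬ (2 : ℤ) ∣ m := hpm
    have h4 : (2 : ℤ) ∣ d := hpd
    have := h1 (by omega)
    omega
  · exact s1_unr hsq hco hc had hd h hp hp2 hpm (fun _ => h3) (fun _ => ⟨h5, h5'⟩) hpd

end

end Pool.Agent.T2h79.XM
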