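import Pool.Agent.T2h79.XM.S1

/-!
# The second descent map
-/

set_option autoImplicit false
set_option linter.unusedVariables false
set_option linter.unusedSectionVars false

namespace Pool.Agent.T2h79.XM

section

variable {m s z e k l : ℤ} (hsq : Squarefree m) (hco : IsCoprime s z) (he : Squarefree e)
  (hA : s ^ 2 + 9 * m * z ^ 2 = e * k ^ 2) (hB : s ^ 2 + 25 * m * z ^ 2 = e * l ^ 2)

/-- only one of the two equations; `p` is odd and does not divide `q` -/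
lemma s2_ram {p : ℕ} (hp : p.Prime) {m' q : ℤ} (hsq : Squarefree m) (hco : IsCoprime s z)
    (he : Squarefree e) (hpm : m = p * m') (hq : ¬ (p : ℤ) ∣ q)
    (hA : s ^ 2 + q ^ 2 * m * z ^ 2 = e * k ^ 2) :
    (¬ (p : ℤ) ∣ e → Sq p e) ∧ ∀ e', e = p * e' → Sq p (m' * e') := by
  have hpp : Prime (p : ℤ) := Nat.prime_iff_prime_int.1 hp
  have nd2 : ∀ {a b : ℤ}, ¬ (p : ℤ) ∣ a → ¬ (p : ℤ) ∣ b → ¬ (p : ℤ) ∣ a * b :=
    fun ha hb h => (hpp.dvd_or_dvd h).elim ha hb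
  have hm' : ¬ (p : ℤ) ∣ m' := by
    rintro ⟨e, rfl⟩
    have := hsq (p : ℤ) ⟨e, by rw [hpm]; ring⟩
    exact hpp.not_isUnit this
  have hcop : (p : ℤ) ∣ s → ¬ (p : ℤ) ∣ z := fun h1 h2 => hpp.not_isUnit (hco.isUnit_of_dvd' h1 h2)
  constructor
  · intro hpe
    by_cases hps : (p : ℤ) ∣ s
    · exfalso
      have hz := hcop hps
      obtain ⟨s', rfl⟩ := hps
      have h1 : (p : ℤ) ∣ e * k ^ 2 := by
        rw [← hA, hpm]
        exact ⟨p * s' ^ 2 + q ^ 2 * m' * z ^ 2, by ring⟩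
      have h2 : (p : ℤ) ∣ k := by
        rcases hpp.dvd_or_dvd h1 with h | h
        · exact absurd h hpe
        · exact hpp.dvd_of_dvd_pow h
      obtain ⟨k', rfl⟩ := h2
      have h3 : (p : ℤ) ∣ m' * (q * z) ^ 2 := by
        refine ⟨e * k' ^ 2 - s' ^ 2, ?_⟩
        rw [hpm] at hA
        have : (p : ℤ) * (m' * (q * z) ^ 2) = p * (p * (e * k' ^ 2 - s' ^ 2)) := by
          linear_combination hA
        exact mul_left_cancel₀ hpp.ne_zero this
      rcases hpp.dvd_or_dvd h3 with h | h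
      · exact hm' h
      · exact nd2 hq hz (hpp.dvd_of_dvd_pow h)
    · have hk : ¬ (p : ℤ) ∣ k := by
        intro hk
        apply hps
        refine hpp.dvd_of_dvd_pow (n := 2) ?_
        have : s ^ 2 = e * k ^ 2 - p * (q ^ 2 * m' * z ^ 2) := by rw [← hA, hpm]; ring
        rw [this]
        exact dvd_sub ((dvd_pow hk two_ne_zero).mul_left _) (dvd_mul_right _ _)
      refine sq_cancel hp hk ?_
      have h5 : (p : ℤ) ∣ e * k ^ 2 - s ^ 2 := by
        rw [← hA, hpm]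
        exact ⟨q ^ 2 * m' * z ^ 2, by ring⟩
      exact (sq_congr h5).2 (sq_sq _)
  · rintro e' rfl
    have he' : ¬ (p : ℤ) ∣ e' := by
      rintro ⟨f, rfl⟩
      have := he (p : ℤ) ⟨f, by ring⟩
      exact hpp.not_isUnit this
    have hps : (p : ℤ) ∣ s := by
      refine hpp.dvd_of_dvd_pow (n := 2) ?_
      have : s ^ 2 = p * (e' * k ^ 2 - q ^ 2 * m' * z ^ 2) := by
        rw [hpm] at hA; linear_combination hA
      rw [this]
      exact dvd_mul_right _ _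
    have hz := hcop hps
    obtain ⟨s', rfl⟩ := hps
    have h1 : (p : ℤ) * s' ^ 2 + q ^ 2 * m' * z ^ 2 = e' * k ^ 2 := by
      rw [hpm] at hA
      have : (p : ℤ) * (p * s' ^ 2 + q ^ 2 * m' * z ^ 2) = p * (e' * k ^ 2) := by
        linear_combination hA
      exact mul_left_cancel₀ hpp.ne_zero this
    refine sq_cancel hp (nd2 hq hz) ?_
    have h5 : (p : ℤ) ∣ m' * e' * (q * z) ^ 2 - (e' * k) ^ 2 := by
      refine ⟨-(e' * s' ^ 2), ?_⟩
      linear_combination e' * h1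
    exact (sq_congr h5).2 (sq_sq _)

include hsq hco he hA hB

/-- the primes of `e` -/
lemma s2_prime {p : ℕ} (hp : p.Prime) (hp2 : p ≠ 2) (hpe : (p : ℤ) ∣ e) : (p : ℤ) ∣ m := by
  have hpp : Prime (p : ℤ) := Nat.prime_iff_prime_int.1 hp
  have h1 : (p : ℤ) ∣ 16 * m * z ^ 2 := by
    have : 16 * m * z ^ 2 = e * (l ^ 2 - k ^ 2) := by linear_combination hB - hA
    rw [this]
    exact hpe.mul_right _
  by_contra hpm
  have h2 : (p : ℤ) ∣ z := by
    rcases hpp.dvd_or_dvd h1 with h | h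
    · rcases hpp.dvd_or_dvd h with h | h
      · exfalso
        have h3 : p ∣ 2 ^ 4 := Int.natCast_dvd_natCast.1 (by exact_mod_cast h)
        exact hp2 ((Nat.prime_dvd_prime_iff_eq hp Nat.prime_two).1 (hp.dvd_of_dvd_pow h3))
      · exact absurd h hpm
    · exact hpp.dvd_of_dvd_pow h
  have h3 : (p : ℤ) ∣ s := by
    refine hpp.dvd_of_dvd_pow (n := 2) ?_
    have : s ^ 2 = e * k ^ 2 - z * (9 * m * z) := by linear_combination hA
    rw [this]
    exact dvd_sub (hpe.mul_right _) (h2.mul_right _)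
  exact hpp.not_isUnit (hco.isUnit_of_dvd' h3 h2)

/-- `e` is odd if `m` is `3` modulo `4` -/
lemma s2_odd (h4 : m % 4 = 3) : e % 2 = 1 := by
  by_contra hcon
  obtain ⟨f, rfl⟩ : ∃ f, e = 2 * f := ⟨e / 2, by omega⟩
  have hf : f % 2 = 1 := by
    by_contra hf
    have h1 := he 2 (by
      have : (4 : ℤ) ∣ 2 * f := by omega
      exact this)
    rw [Int.isUnit_iff] at h1
    omega
  -- `s` and `z` are odd
  have hev : (s ^ 2 + 9 * m * z ^ 2) % 2 = 0 := by
    rw [hA]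
    have : 2 * f * k ^ 2 = 2 * (f * k ^ 2) := by ring
    rw [this]; omega
  have hsz : s % 2 = 1 ∧ z % 2 = 1 := by
    have h9 : (9 * m) % 2 = 1 := by omega
    rcases (by omega : s % 2 = 1 ∨ s % 2 = 0) with hs | hs <;>
      rcases (by omega : z % 2 = 1 ∨ z % 2 = 0) with hz | hz
    · exact ⟨hs, hz⟩
    · exfalso
      have : (s ^ 2 + 9 * m * z ^ 2) % 2 = 1 := by
        simp [pow_two, Int.add_emod, Int.mul_emod, hs, hz]
      omega
    · exfalso
      have e1 : (m % 2) = 1 := by omega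
      have : (s ^ 2 + 9 * m * z ^ 2) % 2 = 1 := by
        simp [pow_two, Int.add_emod, Int.mul_emod, hs, hz, e1]
      omega
    · exfalso
      have h1 : (2 : ℤ) ∣ s := by omega
      have h2 : (2 : ℤ) ∣ z := by omega
      have h3 := hco.isUnit_of_dvd' h1 h2
      rw [Int.isUnit_iff] at h3
      omega
  obtain ⟨a, ha⟩ : ∃ a, s ^ 2 = 8 * a + 1 := ⟨s ^ 2 / 8, by have := odd_sq hsz.1; omega⟩
  obtain ⟨b, hb⟩ : ∃ b, z ^ 2 = 8 * b + 1 := ⟨z ^ 2 / 8, by have := odd_sq hsz.2; omega⟩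
  have e1 : s ^ 2 + 9 * m * z ^ 2 = 8 * a + 1 + 9 * m + 8 * (9 * m * b) := by rw [ha, hb]; ring
  -- a value `2 f k²` which is `0` modulo `4` is `0` modulo `8`
  have hpar : ∀ k : ℤ, (2 * f * k ^ 2) % 4 = 0 → k % 2 = 0 := by
    intro k hk
    by_contra hk2
    have h1 : k % 2 = 1 := by omega
    obtain ⟨c, hc⟩ : ∃ c, k ^ 2 = 8 * c + 1 := ⟨k ^ 2 / 8, by have := odd_sq h1; omega⟩
    rw [hc] at hk
    have : 2 * f * (8 * c + 1) = 2 * f + 8 * (2 * (f * c)) := by ring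
    rw [this] at hk
    omega
  obtain ⟨k', rfl⟩ : ∃ k', k = 2 * k' := by
    refine ⟨k / 2, ?_⟩
    have := hpar k (by rw [← hA, e1]; omega)
    omega
  obtain ⟨l', rfl⟩ : ∃ l', l = 2 * l' := by
    refine ⟨l / 2, ?_⟩
    have := hpar l (by
      rw [← hB]
      have : s ^ 2 + 25 * m * z ^ 2 = s ^ 2 + 9 * m * z ^ 2 + 4 * (4 * m * z ^ 2) := by ring
      rw [this, e1]; omega)
    omega
  -- `f (l'² - k'²) = 2 m z²`
  have h5 : f * (l' ^ 2 - k' ^ 2) = 2 * (m * z ^ 2) := by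
    have : 8 * (f * (l' ^ 2 - k' ^ 2)) = 8 * (2 * (m * z ^ 2)) := by linear_combination hA - hB
    omega
  have h6 : (m * z ^ 2) % 2 = 1 := by
    have : m * z ^ 2 = m + 8 * (m * b) := by rw [hb]; ring
    rw [this]; omega
  have h7 : (l' ^ 2 - k' ^ 2) % 4 = 2 := by
    have hD : (l' ^ 2 - k' ^ 2) % 4 = 0 ∨ (l' ^ 2 - k' ^ 2) % 4 = 1 ∨ (l' ^ 2 - k' ^ 2) % 4 = 2 ∨
      (l' ^ 2 - k' ^ 2) % 4 = 3 := by omega
    have h8 : (f * (l' ^ 2 - k' ^ 2)) % 4 = 2 := by rw [h5]; omega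
    have hf4 : f % 4 = 1 ∨ f % 4 = 3 := by omega
    rcases hD with h | h | h | h <;> rcases hf4 with h' | h' <;>
      simp [Int.mul_emod, h, h'] at h8 ⊢
  rcases (by omega : l' % 4 = 0 ∨ l' % 4 = 1 ∨ l' % 4 = 2 ∨ l' % 4 = 3) with h | h | h | h <;>
    rcases (by omega : k' % 4 = 0 ∨ k' % 4 = 1 ∨ k' % 4 = 2 ∨ k' % 4 = 3) with h' | h' | h' | h' <;>
    simp [pow_two, Int.sub_emod, Int.mul_emod, h, h'] at h7

/-- `e` divides `2 m` -/
lemma s2_dvd : e ∣ 2 * m := by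
  refine dvd_of_primes he fun p hp hpe => ?_
  by_cases hp2 : p = 2
  · subst hp2
    exact dvd_mul_right _ _
  · exact (s2_prime hsq hco he hA hB hp hp2 hpe).mul_left _

lemma s2_dvd' (h4 : m % 4 = 3) : e ∣ m := by
  refine dvd_of_primes he fun p hp hpe => ?_
  by_cases hp2 : p = 2
  · subst hp2
    exfalso
    have h1 := s2_odd hsq hco he hA hB h4
    have h2 : (2 : ℤ) ∣ e := hpe
    omega
  · exact s2_prime hsq hco he hA hB hp hp2 hpe

/-- the odd primes dividing `m` -/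
lemma s2_loc {p : ℕ} (hp : p.Prime) (hp2 : p ≠ 2) {m' : ℤ} (hpm : m = p * m') :
    (¬ (p : ℤ) ∣ e → Sq p e) ∧ ∀ e', e = p * e' → Sq p (m' * e') := by
  by_cases h33 : p = 3
  · subst h33
    exact s2_ram (q := 5) hp hsq hco he hpm (by norm_num) (by rw [← hB]; ring)
  · refine s2_ram (q := 3) hp hsq hco he hpm ?_ (by rw [← hA]; ring)
    refine not_dvd_num (n := 3) hp ?_
    intro q hq hq3
    rw [(Nat.prime_dvd_prime_iff_eq hq Nat.prime_three).1 hq3]
    exact h33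

end

end Pool.Agent.T2h79.XM
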