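import Pool.Agent.Helper368_LD.Sieve

/-!
# Squarefree numbers in the classes modulo `120`
-/

set_option autoImplicit false
set_option linter.unusedVariables false

namespace Pool.Agent.T2h79.XM

open Finset Filter Topology

open scoped Classical

/-- the squarefree numbers up to `X` in the class `a` modulo `120` -/
noncomputable def QS (a X : ℕ) : Finset ℕ := (Icc 1 X).filter fun n => Squarefree n ∧ n % 120 = a

/-- the density of the squarefree numbers in a class prime to `120` -/
noncomputable def c0 : ℝ := ∑' d : ℕ,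
  if d.Coprime 120 then ((ArithmeticFunction.moebius d : ℤ) : ℝ) / (120 * (d : ℝ) ^ 2) else 0

lemma prog_count (X v : ℕ) {r : ℕ} (hr : 0 < r) :
    |(((Icc 1 X).filter fun n => n ≡ v [MOD r]).card : ℝ) - X / r| ≤ 1 := by
  have h1 := Nat.Ioc_filter_modEq_card 0 X hr v
  have h2 : (Ioc 0 X).filter (fun n => n ≡ v [MOD r]) = (Icc 1 X).filter fun n => n ≡ v [MOD r] := by
    ext n
    simp only [mem_filter, mem_Ioc, mem_Icc]
    constructor <;> rintro ⟨h, h'⟩ <;> exact ⟨by omega, h'⟩
  have hr' : (0 : ℚ) < r := by exact_mod_cast hr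
  have e1 := Int.floor_le (((X : ℚ) - v) / r)
  have e2 := Int.lt_floor_add_one (((X : ℚ) - v) / r)
  have e3 := Int.floor_le ((((0 : ℕ) : ℚ) - v) / r)
  have e4 := Int.lt_floor_add_one ((((0 : ℕ) : ℚ) - v) / r)
  have h3 : ⌊(((0 : ℕ) : ℚ) - v) / r⌋ ≤ ⌊((X : ℚ) - v) / r⌋ := by
    apply Int.floor_le_floor
    apply div_le_div_of_nonneg_right _ hr'.le
    have : (0 : ℚ) ≤ X := by positivity
    push_cast
    linarith
  rw [h2, max_eq_left (by linarith)] at h1
  have h4 : (((Icc 1 X).filter fun n => n ≡ v [MOD r]).card : ℚ) =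
      ⌊((X : ℚ) - v) / r⌋ - ⌊(((0 : ℕ) : ℚ) - v) / r⌋ := by exact_mod_cast h1
  have h5 : |(((Icc 1 X).filter fun n => n ≡ v [MOD r]).card : ℚ) - X / r| ≤ 1 := by
    rw [h4, abs_le]
    have h6 : ((X : ℚ) - v) / r - (((0 : ℕ) : ℚ) - v) / r = X / r := by
      push_cast
      ring
    constructor <;> linarith
  have h7 := (Rat.cast_le (K := ℝ)).2 h5
  push_cast at h7
  exact h7

lemma prog_sq {a d : ℕ} (hd : 0 < d) (hc : d.Coprime 120) (X : ℕ) (ha : a < 120) :
    |(((Icc 1 X).filter fun n => d ^ 2 ∣ n ∧ n % 120 = a).card : ℝ) - X / (120 * (d : ℝ) ^ 2)| ≤ 1 := by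
  have hc2 : Nat.Coprime (d ^ 2) 120 := Nat.Coprime.pow_left 2 hc
  obtain ⟨k, hk1, hk2⟩ := Nat.chineseRemainder hc2 0 a
  have h1 : (Icc 1 X).filter (fun n => d ^ 2 ∣ n ∧ n % 120 = a) =
      (Icc 1 X).filter fun n => n ≡ k [MOD d ^ 2 * 120] := by
    ext n
    simp only [mem_filter]
    refine and_congr_right fun _ => ?_
    rw [← Nat.modEq_and_modEq_iff_modEq_mul hc2]
    refine and_congr ?_ ?_
    · rw [← Nat.modEq_zero_iff_dvd]
      exact ⟨fun h => h.trans hk1.symm, fun h => h.trans hk1⟩
    · have : k % 120 = a := by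
        have := hk2
        unfold Nat.ModEq at this
        rwa [Nat.mod_eq_of_lt ha] at this
      unfold Nat.ModEq
      rw [this]
  rw [h1]
  have h2 := prog_count X k (r := d ^ 2 * 120) (by positivity)
  have h3 : ((d ^ 2 * 120 : ℕ) : ℝ) = 120 * (d : ℝ) ^ 2 := by push_cast; ring
  rwa [h3] at h2

lemma sq_count_le {d : ℕ} (hd : 0 < d) (X : ℕ) (P : ℕ → Prop) [DecidablePred P] :
    (((Icc 1 X).filter fun n => d ^ 2 ∣ n ∧ P n).card : ℝ) ≤ X / (d : ℝ) ^ 2 := by
  have h1 : ((Icc 1 X).filter fun n => d ^ 2 ∣ n ∧ P n).card ≤ X / d ^ 2 := by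
    calc _ ≤ ((Ioc 0 X).filter fun n => d ^ 2 ∣ n).card := by
          apply card_le_card
          intro n hn
          simp only [mem_filter, mem_Icc, mem_Ioc] at hn ⊢
          exact ⟨by omega, hn.2.1⟩
      _ = X / d ^ 2 := Nat.Ioc_filter_dvd_card_eq_div X (d ^ 2)
  calc _ ≤ ((X / d ^ 2 : ℕ) : ℝ) := by exact_mod_cast h1
    _ ≤ _ := by
      have := @Nat.cast_div_le ℝ _ _ _ X (d ^ 2)
      push_cast at this
      exact this

lemma moebius_abs (d : ℕ) : |((ArithmeticFunction.moebius d : ℤ) : ℝ)| ≤ 1 := by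
  have := ArithmeticFunction.abs_moebius_le_one (n := d)
  exact_mod_cast this

/-- the terms -/
noncomputable def ft (a X d : ℕ) : ℝ := if d = 0 then 0 else
  ((ArithmeticFunction.moebius d : ℤ) : ℝ) *
    (((Icc 1 X).filter fun n => d ^ 2 ∣ n ∧ n % 120 = a).card : ℝ) / X

lemma ft_abs (a X d : ℕ) : ‖ft a X d‖ ≤ 1 / (d : ℝ) ^ 2 := by
  unfold ft
  split_ifs with h
  · rw [norm_zero]; positivity
  · have hd : 0 < d := Nat.pos_of_ne_zero h
    have hd' : (0 : ℝ) < d := by exact_mod_cast hd
    rw [Real.norm_eq_abs, abs_div, abs_mul, Nat.abs_cast, Nat.abs_cast]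
    rcases Nat.eq_zero_or_pos X with h0 | h0
    · rw [h0]
      simp
    · have hX : (0 : ℝ) < X := by exact_mod_cast h0
      rw [div_le_iff₀ hX]
      have h1 := sq_count_le hd X fun n => n % 120 = a
      have h2 : 1 / (d : ℝ) ^ 2 * X = 1 * (X / (d : ℝ) ^ 2) := by ring
      rw [h2]
      exact mul_le_mul (moebius_abs d) h1 (by positivity) (by norm_num)

lemma ft_sum (a X : ℕ) (h0 : 0 < X) : ∑' d, ft a X d = ((QS a X).card : ℝ) / X := by
  have hz : ∀ d ∉ Icc 1 X, ft a X d = 0 := by
    intro d hd
    unfold ft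
    split_ifs with h
    · rfl
    · have h1 : X < d := by
        rw [mem_Icc] at hd
        omega
      have h2 : (Icc 1 X).filter (fun n => d ^ 2 ∣ n ∧ n % 120 = a) = ∅ := by
        rw [filter_eq_empty_iff]
        rintro n hn ⟨h3, -⟩
        rw [mem_Icc] at hn
        have h4 := Nat.le_of_dvd (by omega) h3
        nlinarith
      rw [h2, card_empty]
      simp
  rw [tsum_eq_sum hz]
  have h1 : ((QS a X).card : ℝ) = ∑ n ∈ (Icc 1 X).filter (fun n => n % 120 = a),
      ∑ d ∈ (Icc 1 X).filter (fun d => d ^ 2 ∣ n), ((ArithmeticFunction.moebius d : ℤ) : ℝ) := by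
    have h2 : QS a X = ((Icc 1 X).filter fun n => n % 120 = a).filter fun n => Squarefree n := by
      unfold QS
      ext n
      simp only [mem_filter]
      tauto
    rw [h2, card_filter]
    push_cast
    refine sum_congr rfl fun n hn => ?_
    rw [mem_filter, mem_Icc] at hn
    have h3 := Pool.Agent.Helper368_LD.sqf_indicator hn.1.1 hn.1.2
    have h4 := congrArg (fun z : ℤ => (z : ℝ)) h3
    push_cast at h4
    rw [← h4]
  rw [h1, sum_div]
  simp only [sum_filter, sum_div]
  have h5 : ∀ d ∈ Icc 1 X, ft a X d = ∑ n ∈ Icc 1 X, if n % 120 = a then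
      (if d ^ 2 ∣ n then ((ArithmeticFunction.moebius d : ℤ) : ℝ) / X else 0) else 0 := by
    intro d hd
    rw [mem_Icc] at hd
    unfold ft
    rw [if_neg (by omega), card_filter]
    push_cast
    rw [mul_div_assoc, sum_div, mul_sum]
    refine sum_congr rfl fun n _ => ?_
    by_cases e1 : n % 120 = a <;> by_cases e2 : d ^ 2 ∣ n <;> simp [e1, e2, div_eq_mul_inv]
  rw [sum_congr rfl h5, sum_comm]
  refine sum_congr rfl fun n _ => ?_
  by_cases e1 : n % 120 = a
  · simp only [if_pos e1]
    refine sum_congr rfl fun d _ => ?_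
    split_ifs
    · rfl
    · simp
  · simp [e1]

/-- **the density of the squarefree numbers in a class prime to `120`** -/
theorem qs_lim {a : ℕ} (ha : a < 120) (hc : a.Coprime 120) :
    Tendsto (fun X : ℕ => ((QS a X).card : ℝ) / X) atTop (𝓝 c0) := by
  have h1 : Tendsto (fun X : ℕ => ∑' d, ft a X d) atTop (𝓝 c0) := by
    unfold c0
    refine tendsto_tsum_of_dominated_convergence (bound := fun d : ℕ => 1 / (d : ℝ) ^ 2)
      (Real.summable_one_div_nat_pow.2 (by norm_num)) ?_ ?_
    · intro d
      by_cases hd0 : d = 0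
      · subst hd0
        simp only [ft, if_true]
        have : ¬ Nat.Coprime 0 120 := by norm_num
        rw [if_neg this]
        exact tendsto_const_nhds
      · have hd : 0 < d := Nat.pos_of_ne_zero hd0
        have hd' : (0 : ℝ) < d := by exact_mod_cast hd
        split_ifs with hco
        · have h2 : Tendsto (fun X : ℕ =>
              (((Icc 1 X).filter fun n => d ^ 2 ∣ n ∧ n % 120 = a).card : ℝ) / X) atTop
              (𝓝 (1 / (120 * (d : ℝ) ^ 2))) := by
            rw [tendsto_iff_dist_tendsto_zero]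
            refine squeeze_zero' (Eventually.of_forall fun X => dist_nonneg)
              (g := fun X : ℕ => 1 / (X : ℝ)) ?_ tendsto_one_div_atTop_nhds_zero_nat
            filter_upwards [eventually_gt_atTop 0] with X hX
            have hX' : (0 : ℝ) < X := by exact_mod_cast hX
            have h3 := prog_sq (a := a) hd hco X ha
            rw [Real.dist_eq]
            have h4 : (((Icc 1 X).filter fun n => d ^ 2 ∣ n ∧ n % 120 = a).card : ℝ) / X -
                1 / (120 * (d : ℝ) ^ 2) =
                ((((Icc 1 X).filter fun n => d ^ 2 ∣ n ∧ n % 120 = a).card : ℝ) -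
                X / (120 * (d : ℝ) ^ 2)) / X := by
              field_simp
            rw [h4, abs_div, Nat.abs_cast]
            gcongr
          have h5 := h2.const_mul ((ArithmeticFunction.moebius d : ℤ) : ℝ)
          have h6 : (fun X : ℕ => ((ArithmeticFunction.moebius d : ℤ) : ℝ) *
              ((((Icc 1 X).filter fun n => d ^ 2 ∣ n ∧ n % 120 = a).card : ℝ) / X)) =
              fun X => ft a X d := by
            funext X
            unfold ft
            rw [if_neg hd0]
            ring
          rw [h6, mul_one_div] at h5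
          exact h5
        · have h2 : ∀ X, ft a X d = 0 := by
            intro X
            unfold ft
            rw [if_neg hd0]
            have h3 : (Icc 1 X).filter (fun n => d ^ 2 ∣ n ∧ n % 120 = a) = ∅ := by
              rw [filter_eq_empty_iff]
              rintro n hn ⟨h3, h4⟩
              apply hco
              have h5 : Nat.Coprime n 120 := by
                rw [Nat.Coprime, Nat.gcd_comm, Nat.gcd_rec, h4]
                exact hc
              exact Nat.Coprime.coprime_dvd_left ((dvd_pow_self d two_ne_zero).trans h3) h5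
            rw [h3, card_empty]
            simp
          simp only [h2]
          exact tendsto_const_nhds
    · exact Eventually.of_forall fun X d => ft_abs a X d
  refine h1.congr' ?_
  filter_upwards [eventually_gt_atTop 0] with X hX
  exact ft_sum a X hX

end Pool.Agent.T2h79.XM
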