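import Pool.Agent.T2h79.XM.Loc

/-!
# The prime two
-/

set_option autoImplicit false

namespace Pool.Agent.T2h79.XM

lemma not2 {u : ℤ} (hu : u % 2 = 1) : ¬ ((2 : ℕ) : ℤ) ∣ u := by
  intro h
  have : (2 : ℤ) ∣ u := h
  omega

/-- odd squares -/
lemma odd_sq {w : ℤ} (h : w % 2 = 1) : w ^ 2 % 8 = 1 := by
  have h1 : w % 8 = 1 ∨ w % 8 = 3 ∨ w % 8 = 5 ∨ w % 8 = 7 := by omega
  rcases h1 with h1 | h1 | h1 | h1 <;> simp [pow_two, Int.mul_emod, h1]

lemma two_split {α : ℕ} {u c : ℤ} (hu : u % 2 = 1) (h : (2 : ℤ) ^ α * u = c ^ 2) :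
    Even α ∧ u % 8 = 1 := by
  obtain ⟨h1, w, hw⟩ := split_sq (p := 2) Nat.prime_two (not2 hu) (by exact_mod_cast h)
  refine ⟨h1, ?_⟩
  rw [hw]
  apply odd_sq
  by_contra h2
  have h3 : w % 2 = 0 := by omega
  have h4 : w ^ 2 % 2 = 0 := by simp [pow_two, Int.mul_emod, h3]
  rw [← hw] at h4
  omega

lemma mul_odd {a b : ℤ} (ha : a % 2 = 1) (hb : b % 2 = 1) : (a * b) % 2 = 1 := by
  simp [Int.mul_emod, ha, hb]

/-- the product of two odd numbers congruent modulo 8 -/
lemma mul_one8 {u A B : ℤ} (hA : A % 2 = 1) (hAB : (B - A) % 8 = 0) (h : (u * A * B) % 8 = 1) :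
    u % 8 = 1 := by
  have h1 : A % 8 = 1 ∨ A % 8 = 3 ∨ A % 8 = 5 ∨ A % 8 = 7 := by omega
  have h0 : B % 8 = A % 8 := by omega
  have hu : u % 8 = 0 ∨ u % 8 = 1 ∨ u % 8 = 2 ∨ u % 8 = 3 ∨ u % 8 = 4 ∨ u % 8 = 5 ∨ u % 8 = 6 ∨
    u % 8 = 7 := by omega
  rcases h1 with h1 | h1 | h1 | h1 <;> rw [h1] at h0 <;>
    rcases hu with hu | hu | hu | hu | hu | hu | hu | hu <;>
    simp [Int.mul_emod, h0, h1, hu] at h ⊢

/-- the main lemma at two -/
theorem core_two {α : ℕ} {u m b c : ℤ} (hu : u % 2 = 1) (hco : α = 0 ∨ b % 2 = 1)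
    (h4 : m % 4 ≠ 0) (hc : c ≠ 0)
    (h : (2 : ℤ) ^ α * u * ((2 : ℤ) ^ α * u + 9 * m * b ^ 2) * ((2 : ℤ) ^ α * u + 25 * m * b ^ 2) =
      c ^ 2) :
    (m % 2 = 1 → Even α) ∧ (m % 4 = 3 → u % 4 = 1) ∧
      (m % 4 = 1 → u % 8 = 1 ∨ (u + m) % 8 = 0) ∧
      (m % 2 = 0 → (Even α → u % 8 = 1) ∧ (¬ Even α → (m / 2 * u + 1) % 8 = 0)) := by
  by_cases hb : b % 2 = 1
  swap
  · -- `b` even
    obtain rfl : α = 0 := hco.resolve_right hb
    obtain ⟨b', rfl⟩ : ∃ b', b = 2 * b' := ⟨b / 2, by omega⟩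
    have key : u % 8 = 1 := by
      have h1 : (2 : ℤ) ^ 0 * (u * (u + 9 * m * (2 * b') ^ 2) * (u + 25 * m * (2 * b') ^ 2)) =
          c ^ 2 := by rw [← h]; ring
      have hA : (u + 9 * m * (2 * b') ^ 2) % 2 = 1 := by
        have : u + 9 * m * (2 * b') ^ 2 = u + 2 * (18 * m * b' ^ 2) := by ring
        rw [this]; omega
      have hB : (u + 25 * m * (2 * b') ^ 2) % 2 = 1 := by
        have : u + 25 * m * (2 * b') ^ 2 = u + 2 * (50 * m * b' ^ 2) := by ring
        rw [this]; omega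
      have h2 := (two_split (mul_odd (mul_odd hu hA) hB) h1).2
      refine mul_one8 hA ?_ h2
      have : u + 25 * m * (2 * b') ^ 2 - (u + 9 * m * (2 * b') ^ 2) = 8 * (8 * m * b' ^ 2) := by
        ring
      rw [this]
      omega
    refine ⟨fun _ => Even.zero, fun _ => by omega, fun _ => Or.inl key, fun _ => ⟨fun _ => key,
      fun h => absurd Even.zero h⟩⟩
  -- `b` odd
  have hb8 : b ^ 2 % 8 = 1 := odd_sq hb
  obtain ⟨t, ht⟩ : ∃ t, b ^ 2 = 8 * t + 1 := ⟨b ^ 2 / 8, by omega⟩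
  rcases (by omega : m % 2 = 1 ∨ m % 2 = 0) with hm | hm
  · -- `m` odd
    rcases Nat.eq_zero_or_pos α with rfl | hα
    · -- `a` odd
      set A := (2 : ℤ) ^ 0 * u + 9 * m * b ^ 2 with hA
      have hB : (2 : ℤ) ^ 0 * u + 25 * m * b ^ 2 = A + 16 * m * b ^ 2 := by rw [hA]; ring
      rw [hB] at h
      have hA' : A = u + 9 * m + 8 * (9 * m * t) := by rw [hA, ht]; ring
      refine ⟨fun _ => Even.zero, ?_, ?_, fun h => by omega⟩
      · intro hm4
        rcases (by omega : A % 8 = 0 ∨ A % 4 = 2 ∨ A % 8 = 4) with h8 | h8 | h8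
        · omega
        · obtain ⟨w, hw⟩ : ∃ w, A = 2 * w := ⟨A / 2, by omega⟩
          have h1 : (2 : ℤ) ^ 2 * (u * w * (w + 8 * m * b ^ 2)) = c ^ 2 := by
            rw [← h, hw]; ring
          have hw2 : w % 2 = 1 := by omega
          have hw3 : (w + 8 * m * b ^ 2) % 2 = 1 := by
            have : w + 8 * m * b ^ 2 = w + 2 * (4 * m * b ^ 2) := by ring
            rw [this]; omega
          have h2 := (two_split (mul_odd (mul_odd hu hw2) hw3) h1).2
          have h3 := mul_one8 hw2 (by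
            have : w + 8 * m * b ^ 2 - w = 8 * (m * b ^ 2) := by ring
            rw [this]; omega) h2
          omega
        · omega
      · intro hm4
        rcases (by omega : A % 8 = 0 ∨ A % 4 = 2 ∨ A % 8 = 4) with h8 | h8 | h8
        · right
          omega
        · left
          obtain ⟨w, hw⟩ : ∃ w, A = 2 * w := ⟨A / 2, by omega⟩
          have h1 : (2 : ℤ) ^ 2 * (u * w * (w + 8 * m * b ^ 2)) = c ^ 2 := by
            rw [← h, hw]; ring
          have hw2 : w % 2 = 1 := by omega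
          have hw3 : (w + 8 * m * b ^ 2) % 2 = 1 := by
            have : w + 8 * m * b ^ 2 = w + 2 * (4 * m * b ^ 2) := by ring
            rw [this]; omega
          have h2 := (two_split (mul_odd (mul_odd hu hw2) hw3) h1).2
          exact mul_one8 hw2 (by
            have : w + 8 * m * b ^ 2 - w = 8 * (m * b ^ 2) := by ring
            rw [this]; omega) h2
        · exfalso
          obtain ⟨w, hw⟩ : ∃ w, A = 4 * w := ⟨A / 4, by omega⟩
          have h1 : (2 : ℤ) ^ 4 * (u * w * (w + 4 * m * b ^ 2)) = c ^ 2 := by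
            rw [← h, hw]; ring
          have hw2 : w % 2 = 1 := by omega
          have hw3 : (w + 4 * m * b ^ 2) % 2 = 1 := by
            have : w + 4 * m * b ^ 2 = w + 2 * (2 * m * b ^ 2) := by ring
            rw [this]; omega
          have h2 := (two_split (mul_odd (mul_odd hu hw2) hw3) h1).2
          have e1 : (w + 4 * m * b ^ 2) % 8 = (w + 4) % 8 := by
            have : w + 4 * m * b ^ 2 = w + 4 * m + 8 * (4 * m * t) := by rw [ht]; ring
            rw [this]
            omega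
          have hw8 : w % 8 = 1 ∨ w % 8 = 3 ∨ w % 8 = 5 ∨ w % 8 = 7 := by omega
          have hu8 : u % 8 = 1 ∨ u % 8 = 3 ∨ u % 8 = 5 ∨ u % 8 = 7 := by omega
          have e2 : u % 8 = 5 := by
            rcases hw8 with h5 | h5 | h5 | h5 <;>
              (have h6 : (w + 4) % 8 = (w % 8 + 4) % 8 := by omega) <;>
              rw [h5] at h6 <;>
              rcases hu8 with h7 | h7 | h7 | h7 <;>
              simp [Int.mul_emod, h5, h7, e1, h6] at h2 ⊢
          omega
    · -- `a` even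
      obtain ⟨β, rfl⟩ := Nat.exists_eq_add_of_le' hα
      set A := (2 : ℤ) ^ (β + 1) * u + 9 * m * b ^ 2 with hA
      have hB : (2 : ℤ) ^ (β + 1) * u + 25 * m * b ^ 2 = A + 16 * m * b ^ 2 := by rw [hA]; ring
      rw [hB] at h
      have hA2 : A % 2 = 1 := by
        have : A = 2 * (2 ^ β * u) + 9 * m + 8 * (9 * m * t) := by rw [hA, ht]; ring
        rw [this]; omega
      have hB2 : (A + 16 * m * b ^ 2) % 2 = 1 := by
        have : A + 16 * m * b ^ 2 = A + 2 * (8 * m * b ^ 2) := by ring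
        rw [this]; omega
      have h1 : (2 : ℤ) ^ (β + 1) * (u * A * (A + 16 * m * b ^ 2)) = c ^ 2 := by
        rw [← h]; ring
      obtain ⟨h2, h3⟩ := two_split (mul_odd (mul_odd hu hA2) hB2) h1
      have h5 := mul_one8 hA2 (by
            have : A + 16 * m * b ^ 2 - A = 8 * (2 * m * b ^ 2) := by ring
            rw [this]; omega) h3
      exact ⟨fun _ => h2, fun _ => by omega, fun _ => Or.inl h5, fun h => by omega⟩
  · -- `m` even
    obtain ⟨n, rfl⟩ : ∃ n, m = 2 * n := ⟨m / 2, by omega⟩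
    have hn : n % 2 = 1 := by omega
    have en : 2 * n / 2 = n := by omega
    rw [en]
    refine ⟨fun h => by omega, fun h => by omega, fun h => by omega, fun _ => ?_⟩
    rcases (by omega : α = 0 ∨ α = 1 ∨ 2 ≤ α) with rfl | rfl | hα
    · refine ⟨fun _ => ?_, fun h => absurd Even.zero h⟩
      set A := (2 : ℤ) ^ 0 * u + 9 * (2 * n) * b ^ 2 with hA
      have hB : (2 : ℤ) ^ 0 * u + 25 * (2 * n) * b ^ 2 = A + 32 * n * b ^ 2 := by rw [hA]; ring
      rw [hB] at h
      have hA2 : A % 2 = 1 := by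
        have : A = u + 2 * (9 * n * b ^ 2) := by rw [hA]; ring
        rw [this]; omega
      have hB2 : (A + 32 * n * b ^ 2) % 2 = 1 := by
        have : A + 32 * n * b ^ 2 = A + 2 * (16 * n * b ^ 2) := by ring
        rw [this]; omega
      have h1 : (2 : ℤ) ^ 0 * (u * A * (A + 32 * n * b ^ 2)) = c ^ 2 := by
        rw [← h]; ring
      exact mul_one8 hA2 (by
            have : A + 32 * n * b ^ 2 - A = 8 * (4 * n * b ^ 2) := by ring
            rw [this]; omega) (two_split (mul_odd (mul_odd hu hA2) hB2) h1).2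
    · refine ⟨fun h => absurd h (by decide), fun _ => ?_⟩
      set w := u + 9 * n * b ^ 2 with hw
      have hw' : w = u + 9 * n + 8 * (9 * n * t) := by rw [hw, ht]; ring
      have h1 : (2 : ℤ) ^ 3 * (u * w * (w + 16 * n * b ^ 2)) = c ^ 2 := by
        rw [← h, hw]; ring
      rcases (by omega : w % 8 = 0 ∨ w % 4 = 2 ∨ w % 8 = 4) with h8 | h8 | h8
      · have h9 : (u + n) % 8 = 0 := by omega
        have hn8 : n % 8 = 1 ∨ n % 8 = 3 ∨ n % 8 = 5 ∨ n % 8 = 7 := by omega
        rcases hn8 with h5 | h5 | h5 | h5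
        · have h6 : u % 8 = 7 := by omega
          simp [Int.add_emod, Int.mul_emod, h5, h6]
        · have h6 : u % 8 = 5 := by omega
          simp [Int.add_emod, Int.mul_emod, h5, h6]
        · have h6 : u % 8 = 3 := by omega
          simp [Int.add_emod, Int.mul_emod, h5, h6]
        · have h6 : u % 8 = 1 := by omega
          simp [Int.add_emod, Int.mul_emod, h5, h6]
      · exfalso
        obtain ⟨v, hv⟩ : ∃ v, w = 2 * v := ⟨w / 2, by omega⟩
        have hv2 : v % 2 = 1 := by omega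
        have h2 : (2 : ℤ) ^ 5 * (u * v * (v + 8 * n * b ^ 2)) = c ^ 2 := by
          rw [← h1, hv]; ring
        have hv3 : (v + 8 * n * b ^ 2) % 2 = 1 := by
          have : v + 8 * n * b ^ 2 = v + 2 * (4 * n * b ^ 2) := by ring
          rw [this]; omega
        exact absurd (two_split (mul_odd (mul_odd hu hv2) hv3) h2).1 (by decide)
      · exfalso
        obtain ⟨v, hv⟩ : ∃ v, w = 4 * v := ⟨w / 4, by omega⟩
        have hv2 : v % 2 = 1 := by omega
        have h2 : (2 : ℤ) ^ 7 * (u * v * (v + 4 * n * b ^ 2)) = c ^ 2 := by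
          rw [← h1, hv]; ring
        have hv3 : (v + 4 * n * b ^ 2) % 2 = 1 := by
          have : v + 4 * n * b ^ 2 = v + 2 * (2 * n * b ^ 2) := by ring
          rw [this]; omega
        exact absurd (two_split (mul_odd (mul_odd hu hv2) hv3) h2).1 (by decide)
    · obtain ⟨β, rfl⟩ := Nat.exists_eq_add_of_le' hα
      set A := (2 : ℤ) * (2 ^ β * u) + 9 * n * b ^ 2 with hA
      have hA2 : A % 2 = 1 := by
        have : A = 2 * (2 ^ β * u) + 9 * n + 8 * (9 * n * t) := by rw [hA, ht]; ring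
        rw [this]; omega
      have hB2 : (A + 16 * n * b ^ 2) % 2 = 1 := by
        have : A + 16 * n * b ^ 2 = A + 2 * (8 * n * b ^ 2) := by ring
        rw [this]; omega
      have h1 : (2 : ℤ) ^ (β + 4) * (u * A * (A + 16 * n * b ^ 2)) = c ^ 2 := by
        rw [← h, hA]; ring
      obtain ⟨h2, h3⟩ := two_split (mul_odd (mul_odd hu hA2) hB2) h1
      have h5 := mul_one8 hA2 (by
            have : A + 16 * n * b ^ 2 - A = 8 * (2 * n * b ^ 2) := by ring
            rw [this]; omega) h3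
      refine ⟨fun _ => h5, fun h => ?_⟩
      exact absurd ((Nat.even_add.2 ⟨fun _ => by decide, fun _ => (Nat.even_add.1 h2).2 (by decide)⟩)) h

end Pool.Agent.T2h79.XM
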